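import Pool.Agent.MP27a405.Def

/-!
# MP_27a405_co: proper edge colourings and gluing at a vertex
-/

namespace Pool.Agent.MP27a405

open Finset

namespace Mg

set_option linter.unusedSectionVars false

variable {V E : Type} [Fintype V] [DecidableEq V] [Fintype E] [DecidableEq E] (G : Mg V E)

theorem deg_mono {F F' : Finset E} (h : F ⊆ F') (v : V) : G.deg F v ≤ G.deg F' v :=
  Finset.card_le_card (Finset.filter_subset_filter _ h)

theorem good_mono {F F' : Finset E} {k : ℕ} (h : F ⊆ F') (hg : G.Good F' k) : G.Good F k := by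
  refine ⟨fun v => (G.deg_mono h v).trans (hg.1 v), fun S hS => le_trans ?_ (hg.2 S hS)⟩
  exact Nat.mul_le_mul_left _ (Finset.card_le_card (Finset.filter_subset_filter _ h))

theorem exists_perm {k : ℕ} {A B : Finset (Fin k)} (h : #A + #B ≤ k) :
    ∃ π : Equiv.Perm (Fin k), ∀ i ∈ B, π i ∉ A := by
  have h1 : #B ≤ #Aᶜ := by
    rw [Finset.card_compl, Fintype.card_fin]
    omega
  obtain ⟨B', hB', hc⟩ := Finset.exists_subset_card_eq h1
  let e : {x // x ∈ B} ≃ {x // x ∈ B'} := Finset.equivOfCardEq hc.symm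
  refine ⟨e.extendSubtype, fun i hi hA => ?_⟩
  have h2 := e.extendSubtype_mem i hi
  exact (Finset.mem_compl.1 (hB' h2)) hA

/-- Gluing of two coloured parts at a vertex. -/
theorem glue {F₁ F₂ : Finset E} {k : ℕ} (v : V)
    (h : ∀ e ∈ F₁, ∀ f ∈ F₂, ∀ w, w ∈ G.ends e → w ∈ G.ends f → w = v)
    (hd : G.deg (F₁ ∪ F₂) v ≤ k) (h1 : G.EdgeCol F₁ k) (h2 : G.EdgeCol F₂ k) :
    G.EdgeCol (F₁ ∪ F₂) k := by
  obtain ⟨c₁, c1k, c1p⟩ := h1
  obtain ⟨c₂, c2k, c2p⟩ := h2
  have hdis : ∀ e, e ∈ F₁ → e ∉ F₂ := by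
    intro e he he'
    obtain ⟨a, b, hab⟩ : ∃ a b, G.ends e = s(a, b) :=
      ⟨(G.ends e).out.1, (G.ends e).out.2, by rw [Sym2.mk, Prod.mk.eta, Quot.out_eq]⟩
    have ha := h e he e he' a (by rw [hab]; exact Sym2.mem_mk_left a b)
      (by rw [hab]; exact Sym2.mem_mk_left a b)
    have hb := h e he e he' b (by rw [hab]; exact Sym2.mem_mk_right a b)
      (by rw [hab]; exact Sym2.mem_mk_right a b)
    apply G.noloop e
    rw [hab, ha, hb]
    exact rfl
  have hdeg : G.deg (F₁ ∪ F₂) v = G.deg F₁ v + G.deg F₂ v := by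
    unfold deg
    rw [Finset.filter_union, Finset.card_union_of_disjoint]
    rw [Finset.disjoint_left]
    intro e he he'
    exact hdis e (Finset.mem_filter.1 he).1 (Finset.mem_filter.1 he').1
  classical
  obtain ⟨A, hA⟩ : ∃ A : Finset (Fin k), A = univ.filter fun i : Fin k =>
      ∃ e ∈ F₁, v ∈ G.ends e ∧ c₁ e = (i : ℕ) := ⟨_, rfl⟩
  obtain ⟨B, hB⟩ : ∃ B : Finset (Fin k), B = univ.filter fun i : Fin k =>
      ∃ e ∈ F₂, v ∈ G.ends e ∧ c₂ e = (i : ℕ) := ⟨_, rfl⟩
  have hAc : #A ≤ G.deg F₁ v := by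
    have h3 : A.image (fun i : Fin k => (i : ℕ)) ⊆ (F₁.filter fun e => v ∈ G.ends e).image c₁ := by
      intro i hi
      obtain ⟨j, hj, rfl⟩ := Finset.mem_image.1 hi
      rw [hA, Finset.mem_filter] at hj
      obtain ⟨-, e, he, hv, hce⟩ := hj
      exact Finset.mem_image.2 ⟨e, Finset.mem_filter.2 ⟨he, hv⟩, hce⟩
    have h4 := (Finset.card_le_card h3).trans Finset.card_image_le
    rwa [Finset.card_image_of_injective _ Fin.val_injective] at h4
  have hBc : #B ≤ G.deg F₂ v := by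
    have h3 : B.image (fun i : Fin k => (i : ℕ)) ⊆ (F₂.filter fun e => v ∈ G.ends e).image c₂ := by
      intro i hi
      obtain ⟨j, hj, rfl⟩ := Finset.mem_image.1 hi
      rw [hB, Finset.mem_filter] at hj
      obtain ⟨-, e, he, hv, hce⟩ := hj
      exact Finset.mem_image.2 ⟨e, Finset.mem_filter.2 ⟨he, hv⟩, hce⟩
    have h4 := (Finset.card_le_card h3).trans Finset.card_image_le
    rwa [Finset.card_image_of_injective _ Fin.val_injective] at h4
  obtain ⟨π, hπ⟩ := exists_perm (A := A) (B := B) (k := k) (by omega)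
  refine ⟨fun e => if e ∈ F₁ then c₁ e else if hk : c₂ e < k then (π ⟨c₂ e, hk⟩ : ℕ) else 0,
    ?_, ?_⟩
  · intro e he
    by_cases h3 : e ∈ F₁
    · simpa [h3] using c1k e h3
    · have h4 : e ∈ F₂ := (Finset.mem_union.1 he).resolve_left h3
      simp only [h3, if_false, dif_pos (c2k e h4)]
      exact Fin.isLt _
  · intro e he f hf w hwe hwf hcc
    by_cases h3 : e ∈ F₁ <;> by_cases h4 : f ∈ F₁
    · simp only [h3, h4, if_true] at hcc
      exact c1p e h3 f h4 w hwe hwf hcc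
    · exfalso
      have h5 : f ∈ F₂ := (Finset.mem_union.1 hf).resolve_left h4
      simp only [h3, h4, if_true, if_false, dif_pos (c2k f h5)] at hcc
      have hw := h e h3 f h5 w hwe hwf
      subst hw
      refine hπ ⟨c₂ f, c2k f h5⟩ ?_ ?_
      · rw [hB, Finset.mem_filter]
        exact ⟨Finset.mem_univ _, f, h5, hwf, rfl⟩
      · rw [hA, Finset.mem_filter]
        exact ⟨Finset.mem_univ _, e, h3, hwe, hcc⟩
    · exfalso
      have h5 : e ∈ F₂ := (Finset.mem_union.1 he).resolve_left h3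
      simp only [h3, h4, if_true, if_false, dif_pos (c2k e h5)] at hcc
      have hw := h f h4 e h5 w hwf hwe
      subst hw
      refine hπ ⟨c₂ e, c2k e h5⟩ ?_ ?_
      · rw [hB, Finset.mem_filter]
        exact ⟨Finset.mem_univ _, e, h5, hwe, rfl⟩
      · rw [hA, Finset.mem_filter]
        exact ⟨Finset.mem_univ _, f, h4, hwf, hcc.symm⟩
    · have h5 : e ∈ F₂ := (Finset.mem_union.1 he).resolve_left h3
      have h6 : f ∈ F₂ := (Finset.mem_union.1 hf).resolve_left h4
      simp only [h3, h4, if_false, dif_pos (c2k e h5), dif_pos (c2k f h6)] at hcc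
      have h7 := π.injective (Fin.val_injective hcc)
      exact c2p e h5 f h6 w hwe hwf (Fin.mk.inj_iff.1 h7)

end Mg

end Pool.Agent.MP27a405
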