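import Pool.Agent.MP27a405.Def

/-!
# MP_27a405_co: proper edge colourings of nearly bipartite multigraphs

`feas`: a bipartite multigraph has a subgraph with prescribed lower and upper bounds for the
degrees if and only if the cut conditions hold (Hoffman); proof by deleting or forcing one edge and
uncrossing.  `koenig`: edge colouring of bipartite multigraphs.  `nb_col`: a set of edges of a
nearly bipartite multigraph with degrees `≤ k` and at most `k (|S| - 1) / 2` edges in every odd set
`S` can be coloured properly with `k` colours.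
-/

namespace Pool.Agent.MP27a405

open Finset

namespace NB

variable {V E : Type} [DecidableEq V] [DecidableEq E]

/-- the number of edges of `H` from `X` to the complement of `Y` -/
def up (α β : E → V) (H : Finset E) (X Y : Finset V) : ℤ :=
  ∑ e ∈ H, if α e ∈ X ∧ β e ∉ Y then 1 else 0

/-- the number of edges of `H` from `X` to `Y` -/
def bt (α β : E → V) (H : Finset E) (X Y : Finset V) : ℤ :=
  ∑ e ∈ H, if α e ∈ X ∧ β e ∈ Y then 1 else 0

/-- the degree -/
def dg (α : E → V) (H : Finset E) (v : V) : ℤ := ∑ e ∈ H, if α e = v then 1 else 0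

omit [DecidableEq E] in
lemma dg_nonneg (α : E → V) (H : Finset E) (v : V) : 0 ≤ dg α H v :=
  Finset.sum_nonneg fun e _ => by split_ifs <;> norm_num

omit [DecidableEq E] in
lemma bt_nonneg (α β : E → V) (H : Finset E) (X Y : Finset V) : 0 ≤ bt α β H X Y :=
  Finset.sum_nonneg fun e _ => by split_ifs <;> norm_num

omit [DecidableEq E] in
lemma sum_dg (α : E → V) (H : Finset E) (X : Finset V) :
    ∑ v ∈ X, dg α H v = ∑ e ∈ H, if α e ∈ X then 1 else 0 := by
  unfold dg
  rw [Finset.sum_comm]
  refine Finset.sum_congr rfl fun e _ => ?_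
  rw [Finset.sum_ite_eq]

omit [DecidableEq E] in
lemma up_add_bt (α β : E → V) (H : Finset E) (X Y : Finset V) :
    up α β H X Y + bt α β H X Y = ∑ v ∈ X, dg α H v := by
  rw [sum_dg]
  unfold up bt
  rw [← Finset.sum_add_distrib]
  refine Finset.sum_congr rfl fun e _ => ?_
  by_cases h1 : α e ∈ X <;> by_cases h2 : β e ∈ Y <;> simp [h1, h2]

omit [DecidableEq E] in
lemma bt_le_left (α β : E → V) (H : Finset E) (X Y : Finset V) :
    bt α β H X Y ≤ ∑ v ∈ X, dg α H v := by
  rw [sum_dg]
  unfold bt
  refine Finset.sum_le_sum fun e _ => ?_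
  by_cases h1 : α e ∈ X <;> by_cases h2 : β e ∈ Y <;> simp [h1, h2]

omit [DecidableEq E] in
lemma bt_le_right (α β : E → V) (H : Finset E) (X Y : Finset V) :
    bt α β H X Y ≤ ∑ v ∈ Y, dg β H v := by
  rw [sum_dg]
  unfold bt
  refine Finset.sum_le_sum fun e _ => ?_
  by_cases h1 : α e ∈ X <;> by_cases h2 : β e ∈ Y <;> simp [h1, h2]

lemma up_insert (α β : E → V) {H : Finset E} {e0 : E} (h : e0 ∉ H) (X Y : Finset V) :
    up α β (insert e0 H) X Y = (if α e0 ∈ X ∧ β e0 ∉ Y then 1 else 0) + up α β H X Y := by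
  unfold up
  rw [Finset.sum_insert h]

omit [DecidableEq E] in
lemma up_sub (α β : E → V) (H : Finset E) (X Y X' Y' : Finset V) :
    up α β H (X ∩ X') (Y ∩ Y') + up α β H (X ∪ X') (Y ∪ Y') ≤
      up α β H X Y + up α β H X' Y' := by
  unfold up
  rw [← Finset.sum_add_distrib, ← Finset.sum_add_distrib]
  refine Finset.sum_le_sum fun e _ => ?_
  by_cases h1 : α e ∈ X <;> by_cases h2 : β e ∈ Y <;> by_cases h3 : α e ∈ X' <;>
    by_cases h4 : β e ∈ Y' <;> simp [h1, h2, h3, h4]

omit [DecidableEq E] in
lemma up_cross (α β : E → V) (H : Finset E) (X Y X' Y' : Finset V) :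
    up α β H (X \ X') (Y \ Y') + up β α H (Y' \ Y) (X' \ X) ≤
      up α β H X Y + up β α H Y' X' := by
  unfold up
  rw [← Finset.sum_add_distrib, ← Finset.sum_add_distrib]
  refine Finset.sum_le_sum fun e _ => ?_
  by_cases h1 : α e ∈ X <;> by_cases h2 : β e ∈ Y <;> by_cases h3 : α e ∈ X' <;>
    by_cases h4 : β e ∈ Y' <;> simp [h1, h2, h3, h4]

/-- first uncrossing -/
lemma core1 {α β : E → V} {H : Finset E} {e0 : E} (he : e0 ∉ H) {a1 b2 : V → ℤ}
    (h1 : ∀ X Y : Finset V, ∑ v ∈ X, a1 v ≤ ∑ w ∈ Y, b2 w + up α β (insert e0 H) X Y)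
    (X Y : Finset V) (hD : ∑ w ∈ Y, b2 w + up α β H X Y < ∑ v ∈ X, a1 v)
    (X' Y' : Finset V)
    (hF : (∑ w ∈ Y', b2 w - if β e0 ∈ Y' then 1 else 0) + up α β H X' Y' <
      ∑ v ∈ X', a1 v - if α e0 ∈ X' then 1 else 0) : False := by
  have g0 := h1 X Y
  have g1 := h1 (X ∩ X') (Y ∩ Y')
  have g2 := h1 (X ∪ X') (Y ∪ Y')
  have s := up_sub α β H X Y X' Y'
  have t1 := Finset.sum_union_inter (s₁ := X) (s₂ := X') (f := a1)
  have t2 := Finset.sum_union_inter (s₁ := Y) (s₂ := Y') (f := b2)
  rw [up_insert α β he] at g0 g1 g2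
  simp only [Finset.mem_inter, Finset.mem_union] at g1 g2
  by_cases k1 : α e0 ∈ X <;> by_cases k2 : β e0 ∈ Y <;> by_cases k3 : α e0 ∈ X' <;>
    by_cases k4 : β e0 ∈ Y' <;> simp [k1, k2, k3, k4] at g0 g1 g2 hF <;> linarith

/-- second uncrossing -/
lemma core2 {α β : E → V} {H : Finset E} {e0 : E} (he : e0 ∉ H) {a1 b1 a2 b2 : V → ℤ}
    (ha : ∀ v, a1 v ≤ b1 v) (hb : ∀ v, a2 v ≤ b2 v)
    (h1 : ∀ X Y : Finset V, ∑ v ∈ X, a1 v ≤ ∑ w ∈ Y, b2 w + up α β (insert e0 H) X Y)
    (h2 : ∀ X Y : Finset V, ∑ w ∈ Y, a2 w ≤ ∑ v ∈ X, b1 v + up β α (insert e0 H) Y X)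
    (X Y : Finset V) (hD : ∑ w ∈ Y, b2 w + up α β H X Y < ∑ v ∈ X, a1 v)
    (X' Y' : Finset V)
    (hF : (∑ v ∈ X', b1 v - if α e0 ∈ X' then 1 else 0) + up β α H Y' X' <
      ∑ w ∈ Y', a2 w - if β e0 ∈ Y' then 1 else 0) : False := by
  have g0 := h1 X Y
  have g1 := h1 (X \ X') (Y \ Y')
  have g2 := h2 (X' \ X) (Y' \ Y)
  have s := up_cross α β H X Y X' Y'
  have t1 := Finset.sum_inter_add_sum_sdiff X X' a1
  have t2 := Finset.sum_inter_add_sum_sdiff Y Y' b2
  have t3 := Finset.sum_inter_add_sum_sdiff X' X b1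
  have t4 := Finset.sum_inter_add_sum_sdiff Y' Y a2
  have u1 : ∑ v ∈ X ∩ X', a1 v ≤ ∑ v ∈ X' ∩ X, b1 v := by
    rw [Finset.inter_comm]
    exact Finset.sum_le_sum fun v _ => ha v
  have u2 : ∑ v ∈ Y' ∩ Y, a2 v ≤ ∑ v ∈ Y ∩ Y', b2 v := by
    rw [Finset.inter_comm]
    exact Finset.sum_le_sum fun v _ => hb v
  rw [up_insert α β he] at g0 g1
  rw [up_insert β α he] at g2
  simp only [Finset.mem_sdiff] at g1 g2
  by_cases k1 : α e0 ∈ X <;> by_cases k2 : β e0 ∈ Y <;> by_cases k3 : α e0 ∈ X' <;>
    by_cases k4 : β e0 ∈ Y' <;> simp [k1, k2, k3, k4] at g0 g1 g2 hF <;> linarith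

lemma sum_upd (a : V → ℤ) (v0 : V) (X : Finset V) :
    ∑ v ∈ X, (a v - if v = v0 then 1 else 0) = ∑ v ∈ X, a v - if v0 ∈ X then 1 else 0 := by
  rw [Finset.sum_sub_distrib, Finset.sum_ite_eq']

/-- Hoffman's theorem for degree constrained subgraphs of bipartite multigraphs. -/
theorem feas (α β : E → V) (H : Finset E) : ∀ (a1 b1 a2 b2 : V → ℤ),
    (∀ v, a1 v ≤ b1 v) → (∀ v, a2 v ≤ b2 v) →
    (∀ X Y : Finset V, ∑ v ∈ X, a1 v ≤ ∑ w ∈ Y, b2 w + up α β H X Y) →
    (∀ X Y : Finset V, ∑ w ∈ Y, a2 w ≤ ∑ v ∈ X, b1 v + up β α H Y X) →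
    ∃ F ⊆ H, (∀ v, a1 v ≤ dg α F v ∧ dg α F v ≤ b1 v) ∧
      ∀ v, a2 v ≤ dg β F v ∧ dg β F v ≤ b2 v := by
  induction H using Finset.induction_on with
  | empty =>
    intro a1 b1 a2 b2 _ _ h1 h2
    refine ⟨∅, subset_rfl, fun v => ⟨?_, ?_⟩, fun v => ⟨?_, ?_⟩⟩
    · simpa [up, dg] using h1 {v} ∅
    · simpa [up, dg] using h2 {v} ∅
    · simpa [up, dg] using h2 ∅ {v}
    · simpa [up, dg] using h1 ∅ {v}
  | insert e0 H he ih =>
    intro a1 b1 a2 b2 ha hb h1 h2
    -- delete `e0`
    by_cases hdel : (∀ X Y : Finset V, ∑ v ∈ X, a1 v ≤ ∑ w ∈ Y, b2 w + up α β H X Y) ∧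
        (∀ X Y : Finset V, ∑ w ∈ Y, a2 w ≤ ∑ v ∈ X, b1 v + up β α H Y X)
    · obtain ⟨F, hF, h3, h4⟩ := ih a1 b1 a2 b2 ha hb hdel.1 hdel.2
      exact ⟨F, hF.trans (Finset.subset_insert _ _), h3, h4⟩
    -- force `e0`
    by_cases hfor : (∀ X Y : Finset V, ∑ v ∈ X, (a1 v - if v = α e0 then 1 else 0) ≤
          ∑ w ∈ Y, (b2 w - if w = β e0 then 1 else 0) + up α β H X Y) ∧
        (∀ X Y : Finset V, ∑ w ∈ Y, (a2 w - if w = β e0 then 1 else 0) ≤
          ∑ v ∈ X, (b1 v - if v = α e0 then 1 else 0) + up β α H Y X)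
    · obtain ⟨F, hF, h3, h4⟩ := ih (fun v => a1 v - if v = α e0 then 1 else 0)
        (fun v => b1 v - if v = α e0 then 1 else 0) (fun w => a2 w - if w = β e0 then 1 else 0)
        (fun w => b2 w - if w = β e0 then 1 else 0)
        (fun v => sub_le_sub_right (ha v) _) (fun v => sub_le_sub_right (hb v) _) hfor.1 hfor.2
      have heF : e0 ∉ F := fun h => he (hF h)
      have hd : ∀ (f : E → V) (v : V), dg f (insert e0 F) v = (if v = f e0 then 1 else 0) +
          dg f F v := by
        intro f v
        unfold dg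
        rw [Finset.sum_insert heF]
        congr 1
        exact if_congr eq_comm rfl rfl
      refine ⟨insert e0 F, Finset.insert_subset_insert _ hF, fun v => ?_, fun v => ?_⟩
      · have := h3 v
        rw [hd]
        constructor <;> linarith [this.1, this.2]
      · have := h4 v
        rw [hd]
        constructor <;> linarith [this.1, this.2]
    -- otherwise a contradiction
    exfalso
    simp only [sum_upd] at hfor
    rw [not_and_or] at hdel hfor
    simp only [not_forall, not_le] at hdel hfor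
    have h1' : ∀ Y X : Finset V, ∑ v ∈ X, a1 v ≤ ∑ w ∈ Y, b2 w + up α β (insert e0 H) X Y :=
      fun Y X => h1 X Y
    have h2' : ∀ Y X : Finset V, ∑ w ∈ Y, a2 w ≤ ∑ v ∈ X, b1 v + up β α (insert e0 H) Y X :=
      fun Y X => h2 X Y
    rcases hdel with ⟨X, Y, hD⟩ | ⟨X, Y, hD⟩
    · rcases hfor with ⟨X', Y', hF⟩ | ⟨X', Y', hF⟩
      · exact core1 he h1 X Y hD X' Y' hF
      · exact core2 he ha hb h1 h2 X Y hD X' Y' hF
    · rcases hfor with ⟨X', Y', hF⟩ | ⟨X', Y', hF⟩
      · exact core2 he hb ha h2' h1' Y X hD Y' X' hF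
      · exact core1 he h2' Y X hD Y' X' hF

/-- comparison of an edge count with two bounds -/
lemma two {m c q x y : ℤ} (hc : 0 ≤ c) (hq : 0 ≤ q) (h1 : m ≤ (c + q) * x)
    (h2 : m ≤ (c + q) * y) : m ≤ c * x + q * y := by
  rcases le_total x y with h | h
  · nlinarith [mul_le_mul_of_nonneg_left h hq]
  · nlinarith [mul_le_mul_of_nonneg_left h hc]

omit [DecidableEq E] in
lemma one_le_dg {α : E → V} {F : Finset E} {e : E} (he : e ∈ F) : 1 ≤ dg α F (α e) := by
  unfold dg
  have h := Finset.single_le_sum (f := fun f => if α f = α e then (1 : ℤ) else 0)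
    (fun f _ => by split_ifs <;> norm_num) he
  simpa using h

lemma dg_inj {α : E → V} {F : Finset E} {e f : E} (he : e ∈ F) (hf : f ∈ F)
    (h : dg α F (α e) ≤ 1) (hef : α e = α f) : e = f := by
  by_contra hne
  have h1 : ∑ g ∈ ({e, f} : Finset E), (if α g = α e then (1 : ℤ) else 0) ≤ dg α F (α e) := by
    unfold dg
    refine Finset.sum_le_sum_of_subset_of_nonneg ?_ fun g _ _ => by split_ifs <;> norm_num
    intro g hg
    rcases Finset.mem_insert.1 hg with rfl | hg
    · exact he
    · rw [Finset.mem_singleton] at hg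
      exact hg ▸ hf
  rw [Finset.sum_pair hne, if_pos rfl, if_pos hef.symm] at h1
  linarith

lemma dg_sdiff {α : E → V} {F M : Finset E} (h : M ⊆ F) (v : V) :
    dg α (F \ M) v = dg α F v - dg α M v := by
  unfold dg
  rw [← Finset.sum_sdiff h]
  ring

omit [DecidableEq E] in
lemma sum_dg_le {α : E → V} {F : Finset E} {k : ℤ} (h : ∀ v, dg α F v ≤ k) (X : Finset V) :
    ∑ v ∈ X, dg α F v ≤ k * #X := by
  refine (Finset.sum_le_card_nsmul X _ k fun v _ => h v).trans ?_
  rw [nsmul_eq_mul, mul_comm]

/-- Edge colourings of bipartite multigraphs (Koenig). -/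
theorem koenig (α β : E → V) (q : ℕ) : ∀ F : Finset E, (∀ v, dg α F v ≤ q) →
    (∀ v, dg β F v ≤ q) → ∃ c : E → ℕ, (∀ e ∈ F, c e < q) ∧
      ∀ e ∈ F, ∀ f ∈ F, (α e = α f ∨ β e = β f) → c e = c f → e = f := by
  induction q with
  | zero =>
    intro F h _
    have hF : ∀ e, e ∉ F := by
      intro e he
      have h1 := one_le_dg (α := α) he
      have h2 := h (α e)
      push_cast at h2
      linarith
    exact ⟨fun _ => 0, fun e he => absurd he (hF e), fun e he => absurd he (hF e)⟩
  | succ q ih =>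
    intro F h h'
    push_cast at h h'
    have hq : (0 : ℤ) ≤ q := Int.natCast_nonneg q
    obtain ⟨M, hM, h1, h2⟩ := feas α β F (fun v => dg α F v - q) (fun _ => 1)
      (fun v => dg β F v - q) (fun _ => 1) (fun v => by have := h v; linarith)
      (fun v => by have := h' v; linarith)
      (by
        intro X Y
        have e1 := up_add_bt α β F X Y
        have e2 := two (m := bt α β F X Y) hq zero_le_one
          ((bt_le_left α β F X Y).trans (sum_dg_le h X))
          ((bt_le_right α β F X Y).trans (sum_dg_le h' Y))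
        rw [Finset.sum_sub_distrib, Finset.sum_const, Finset.sum_const, nsmul_eq_mul,
          nsmul_eq_mul]
        linarith)
      (by
        intro X Y
        have e1 := up_add_bt β α F Y X
        have e2 := two (m := bt β α F Y X) hq zero_le_one
          ((bt_le_left β α F Y X).trans (sum_dg_le h' Y))
          ((bt_le_right β α F Y X).trans (sum_dg_le h X))
        rw [Finset.sum_sub_distrib, Finset.sum_const, Finset.sum_const, nsmul_eq_mul,
          nsmul_eq_mul]
        linarith)
    obtain ⟨c, hc, hc'⟩ := ih (F \ M)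
      (fun v => by rw [dg_sdiff hM]; have := (h1 v).1; linarith)
      (fun v => by rw [dg_sdiff hM]; have := (h2 v).1; linarith)
    refine ⟨fun e => if e ∈ M then q else c e, ?_, ?_⟩
    · intro e he
      by_cases heM : e ∈ M
      · simp [heM]
      · have := hc e (Finset.mem_sdiff.2 ⟨he, heM⟩)
        simp only [heM, if_false]
        omega
    · intro e he f hf hef hcc
      by_cases heM : e ∈ M <;> by_cases hfM : f ∈ M
      · rcases hef with hef | hef
        · exact dg_inj heM hfM (h1 _).2 hef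
        · exact dg_inj heM hfM (h2 _).2 hef
      · have := hc f (Finset.mem_sdiff.2 ⟨hf, hfM⟩)
        simp only [heM, hfM, if_true, if_false] at hcc
        omega
      · have := hc e (Finset.mem_sdiff.2 ⟨he, heM⟩)
        simp only [heM, hfM, if_true, if_false] at hcc
        omega
      · simp only [heM, hfM, if_false] at hcc
        exact hc' e (Finset.mem_sdiff.2 ⟨he, heM⟩) f (Finset.mem_sdiff.2 ⟨hf, hfM⟩) hef hcc

section main

variable [Fintype V] [Fintype E] {G : Mg V E} {x : V} {p : V → Bool} {α β : E → V}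

omit [Fintype V] [Fintype E] [DecidableEq V] [DecidableEq E] in
lemma split {H : Finset E}
    (h : ∀ e ∈ H, x ∉ G.ends e → ∀ u ∈ G.ends e, ∀ v ∈ G.ends e, u ≠ v → p u ≠ p v) (e : E) :
    ∃ a b, G.ends e = s(a, b) ∧ a ≠ b ∧
      (e ∈ H → (a ≠ x → p a = true) ∧ (b ≠ x → p b = false)) := by
  obtain ⟨u, v, huv⟩ : ∃ u v, G.ends e = s(u, v) :=
    ⟨(G.ends e).out.1, (G.ends e).out.2, by rw [Sym2.mk, Prod.mk.eta, Quot.out_eq]⟩
  have hne : u ≠ v := by
    rintro rfl
    exact G.noloop e (by rw [huv]; exact rfl)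
  by_cases heH : e ∈ H
  swap
  · exact ⟨u, v, huv, hne, fun h => absurd h heH⟩
  by_cases hu : u = x
  · subst hu
    by_cases hv : p v = true
    · exact ⟨v, u, by rw [huv, Sym2.eq_swap], hne.symm, fun _ => ⟨fun _ => hv, fun h => absurd rfl h⟩⟩
    · exact ⟨u, v, huv, hne, fun _ => ⟨fun h => absurd rfl h, fun _ => by simpa using hv⟩⟩
  · by_cases hv : v = x
    · subst hv
      by_cases hu' : p u = true
      · exact ⟨u, v, huv, hne, fun _ => ⟨fun _ => hu', fun h => absurd rfl h⟩⟩
      · exact ⟨v, u, by rw [huv, Sym2.eq_swap], hne.symm, fun _ => ⟨fun h => absurd rfl h,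
          fun _ => by simpa using hu'⟩⟩
    · have hx : x ∉ G.ends e := by
        rw [huv, Sym2.mem_iff]
        rintro (h | h)
        · exact hu h.symm
        · exact hv h.symm
      have hp := h e heH hx u (by rw [huv]; exact Sym2.mem_mk_left u v) v
        (by rw [huv]; exact Sym2.mem_mk_right u v) hne
      by_cases hu' : p u = true
      · refine ⟨u, v, huv, hne, fun _ => ⟨fun _ => hu', fun _ => ?_⟩⟩
        rw [hu'] at hp
        cases hpv : p v
        · rfl
        · exact absurd hpv.symm hp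
      · refine ⟨v, u, by rw [huv, Sym2.eq_swap], hne.symm,
          fun _ => ⟨fun _ => ?_, fun _ => by simpa using hu'⟩⟩
        cases hpv : p v
        · exfalso
          apply hp
          rw [hpv]
          simpa using hu'
        · rfl

omit [Fintype V] [Fintype E] in
lemma deg_eq (hαβ : ∀ e, G.ends e = s(α e, β e)) (hne : ∀ e, α e ≠ β e) (F : Finset E) (v : V) :
    (G.deg F v : ℤ) = dg α F v + dg β F v := by
  unfold Mg.deg dg
  rw [Finset.card_filter]
  push_cast
  rw [← Finset.sum_add_distrib]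
  refine Finset.sum_congr rfl fun e _ => ?_
  have := hne e
  simp only [hαβ, Sym2.mem_iff]
  by_cases h1 : α e = v
  · have h2 : β e ≠ v := fun h => this (h1.trans h.symm)
    simp [h1, h2]
  · by_cases h2 : β e = v
    · simp [h1, h2]
    · simp [h1, h2, Ne.symm h1, Ne.symm h2]

omit [Fintype E] in
lemma bt_le_ins (hαβ : ∀ e, G.ends e = s(α e, β e)) (F : Finset E) (X Y S : Finset V)
    (hX : X ⊆ S) (hY : Y ⊆ S) : bt α β F X Y ≤ #(G.ins F S) := by
  unfold Mg.ins bt
  rw [Finset.card_filter]
  push_cast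
  refine Finset.sum_le_sum fun e _ => ?_
  by_cases h : α e ∈ X ∧ β e ∈ Y
  · rw [if_pos h, if_pos]
    intro v hv
    rw [hαβ, Sym2.mem_iff] at hv
    rcases hv with rfl | rfl
    · exact hX h.1
    · exact hY h.2
  · rw [if_neg h]
    split_ifs <;> norm_num

/-- The edge count between two sets of the two sides, both with the vertex `x`. -/
lemma keyK (hαβ : ∀ e, G.ends e = s(α e, β e)) {H : Finset E} {q c : ℤ}
    (hq : 0 ≤ q) (hc : 0 ≤ c) (hA : ∀ v, dg α H v ≤ c + q) (hB : ∀ v, dg β H v ≤ c + q)
    (hAx : dg α H x = q) (hBx : dg β H x ≤ c)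
    (hodd : ∀ S : Finset V, Odd #S → 2 * (#(G.ins H S) : ℤ) ≤ (c + q) * (#S - 1))
    (X Y : Finset V) (hX : ∀ v ∈ X, v ≠ x ∧ p v = true) (hY : ∀ v ∈ Y, v ≠ x ∧ p v = false) :
    bt α β H (insert x X) (insert x Y) ≤ c * #X + q * #Y := by
  have hxX : x ∉ X := fun h => (hX x h).1 rfl
  have hxY : x ∉ Y := fun h => (hY x h).1 rfl
  have b1 := bt_le_left α β H (insert x X) (insert x Y)
  have b2 := bt_le_right α β H (insert x X) (insert x Y)
  rw [Finset.sum_insert hxX, hAx] at b1
  rw [Finset.sum_insert hxY] at b2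
  have s1 := sum_dg_le hA X
  have s2 := sum_dg_le hB Y
  rcases lt_trichotomy (#X) (#Y) with h | h | h
  · have h' : (#X : ℤ) + 1 ≤ #Y := by exact_mod_cast h
    nlinarith [mul_le_mul_of_nonneg_left h' hq]
  · have hdis : Disjoint X Y := by
      rw [Finset.disjoint_left]
      intro v h1 h2
      have := (hX v h1).2
      rw [(hY v h2).2] at this
      exact absurd this (by simp)
    have hcard : #(insert x (X ∪ Y)) = 2 * #X + 1 := by
      rw [Finset.card_insert_of_notMem, Finset.card_union_of_disjoint hdis, h]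
      · omega
      · rw [Finset.mem_union]
        rintro (h | h)
        · exact hxX h
        · exact hxY h
    have h1 := hodd (insert x (X ∪ Y)) (by rw [hcard]; exact ⟨_, rfl⟩)
    have h2 := bt_le_ins hαβ H (insert x X) (insert x Y) (insert x (X ∪ Y))
      (Finset.insert_subset_insert _ Finset.subset_union_left)
      (Finset.insert_subset_insert _ Finset.subset_union_right)
    rw [hcard] at h1
    have h' : (#X : ℤ) = #Y := by exact_mod_cast h
    push_cast at h1
    rw [← h']
    linarith
  · have h' : (#Y : ℤ) + 1 ≤ #X := by exact_mod_cast h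
    nlinarith [mul_le_mul_of_nonneg_left h' hc]

/-- The subgraph `F` of `H`. -/
lemma exF (hαβ : ∀ e, G.ends e = s(α e, β e)) {H : Finset E}
    (hα : ∀ e ∈ H, α e ≠ x → p (α e) = true)
    (hβ : ∀ e ∈ H, β e ≠ x → p (β e) = false) {q c : ℤ}
    (hq : 0 ≤ q) (hc : 0 ≤ c) (hA : ∀ v, dg α H v ≤ c + q) (hB : ∀ v, dg β H v ≤ c + q)
    (hAx : dg α H x = q) (hBx : dg β H x ≤ c)
    (hodd : ∀ S : Finset V, Odd #S → 2 * (#(G.ins H S) : ℤ) ≤ (c + q) * (#S - 1)) :
    ∃ F ⊆ H, (∀ v, dg α F v ≤ q ∧ dg β F v ≤ q) ∧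
      (∀ v, dg α (H \ F) v ≤ c ∧ dg β (H \ F) v ≤ c) ∧ dg β F x ≤ 0 ∧
      dg α (H \ F) x ≤ 0 := by
  obtain ⟨F, hF, h1, h2⟩ := feas α β H (fun v => if v = x then q else dg α H v - c)
    (fun _ => q) (fun v => if v = x then 0 else dg β H v - c) (fun v => if v = x then 0 else q)
    (by
      intro v
      have := hA v
      by_cases hv : v = x
      · simp [hv]
      · simp only [hv, if_false]
        linarith)
    (by
      intro v
      have := hB v
      by_cases hv : v = x
      · simp [hv]
      · simp only [hv, if_false]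
        linarith)
    (by
      intro X Y
      -- `x` may be added to `Y`
      have e0 : ∑ w ∈ Y, (if w = x then 0 else q) = q * #(Y.erase x) := by
        rw [← Finset.sum_erase (s := Y) (a := x) (f := fun w => if w = x then 0 else q) (by simp),
          Finset.sum_congr rfl (g := fun _ => q), Finset.sum_const, nsmul_eq_mul, mul_comm]
        intro w hw
        rw [if_neg (Finset.ne_of_mem_erase hw)]
      have e1 := up_add_bt α β H X Y
      by_cases hx : x ∈ X
      · have e2 : ∑ v ∈ X, (if v = x then q else dg α H v - c) =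
            ∑ v ∈ X, dg α H v - c * #(X.erase x) := by
          rw [← Finset.add_sum_erase X _ hx, ← Finset.add_sum_erase X (dg α H) hx, if_pos rfl, hAx,
            Finset.sum_congr rfl (g := fun v => dg α H v - c), Finset.sum_sub_distrib,
            Finset.sum_const, nsmul_eq_mul]
          · ring
          · intro v hv
            rw [if_neg (Finset.ne_of_mem_erase hv)]
        have e3 : bt α β H X Y ≤ bt α β H (insert x ((X.erase x).filter fun v => p v = true))
            (insert x ((Y.erase x).filter fun v => p v = false)) := by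
          unfold bt
          refine Finset.sum_le_sum fun e heH => ?_
          by_cases h : α e ∈ X ∧ β e ∈ Y
          · rw [if_pos h, if_pos]
            refine ⟨?_, ?_⟩
            · by_cases hx' : α e = x
              · rw [hx']; exact Finset.mem_insert_self _ _
              · exact Finset.mem_insert_of_mem (Finset.mem_filter.2
                  ⟨Finset.mem_erase.2 ⟨hx', h.1⟩, hα e heH hx'⟩)
            · by_cases hx' : β e = x
              · rw [hx']; exact Finset.mem_insert_self _ _
              · exact Finset.mem_insert_of_mem (Finset.mem_filter.2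
                  ⟨Finset.mem_erase.2 ⟨hx', h.2⟩, hβ e heH hx'⟩)
          · rw [if_neg h]
            split_ifs <;> norm_num
        have e4 := keyK (p := p) hαβ hq hc hA hB hAx hBx hodd
          ((X.erase x).filter fun v => p v = true) ((Y.erase x).filter fun v => p v = false)
          (fun v hv => by
            rw [Finset.mem_filter] at hv
            exact ⟨Finset.ne_of_mem_erase hv.1, hv.2⟩)
          (fun v hv => by
            rw [Finset.mem_filter] at hv
            exact ⟨Finset.ne_of_mem_erase hv.1, hv.2⟩)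
        have e5 : (#((X.erase x).filter fun v => p v = true) : ℤ) ≤ #(X.erase x) := by
          exact_mod_cast Finset.card_filter_le _ _
        have e6 : (#((Y.erase x).filter fun v => p v = false) : ℤ) ≤ #(Y.erase x) := by
          exact_mod_cast Finset.card_filter_le _ _
        have e7 := mul_le_mul_of_nonneg_left e5 hc
        have e8 := mul_le_mul_of_nonneg_left e6 hq
        rw [e0, e2]
        linarith
      · have e2 : ∑ v ∈ X, (if v = x then q else dg α H v - c) =
            ∑ v ∈ X, dg α H v - c * #X := by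
          rw [Finset.sum_congr rfl (g := fun v => dg α H v - c), Finset.sum_sub_distrib,
            Finset.sum_const, nsmul_eq_mul]
          · ring
          · intro v hv
            rw [if_neg]
            rintro rfl
            exact hx hv
        have e3 := (bt_le_left α β H X Y).trans (sum_dg_le hA X)
        have e4 : bt α β H X Y ≤ (c + q) * #(Y.erase x) + c := by
          refine (bt_le_right α β H X Y).trans ?_
          have h1 : ∑ v ∈ Y, dg β H v ≤ ∑ v ∈ Y.erase x, dg β H v + dg β H x := by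
            by_cases hy : x ∈ Y
            · rw [← Finset.add_sum_erase Y _ hy]; linarith
            · rw [Finset.erase_eq_of_notMem hy]
              linarith [dg_nonneg β H x]
          have h2 := sum_dg_le hB (Y.erase x)
          linarith
        have e5 : bt α β H X Y ≤ c * #X + q * #(Y.erase x) := by
          rcases le_or_gt (#X) (#(Y.erase x)) with h | h
          · have h' : (#X : ℤ) ≤ #(Y.erase x) := by exact_mod_cast h
            nlinarith [mul_le_mul_of_nonneg_left h' hq]
          · have h' : (#(Y.erase x) : ℤ) + 1 ≤ #X := by exact_mod_cast h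
            nlinarith [mul_le_mul_of_nonneg_left h' hc]
        rw [e0, e2]
        linarith)
    (by
      intro X Y
      have e0 : ∑ w ∈ Y, (if w = x then 0 else dg β H w - c) =
          ∑ w ∈ Y.erase x, dg β H w - c * #(Y.erase x) := by
        rw [← Finset.sum_erase (s := Y) (a := x)
          (f := fun w => if w = x then 0 else dg β H w - c) (by simp),
          Finset.sum_congr rfl (g := fun w => dg β H w - c), Finset.sum_sub_distrib,
          Finset.sum_const, nsmul_eq_mul]
        · ring
        · intro w hw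
          rw [if_neg (Finset.ne_of_mem_erase hw)]
      have e1 : up β α H (Y.erase x) X ≤ up β α H Y X := by
        unfold up
        refine Finset.sum_le_sum fun e _ => ?_
        by_cases h : β e ∈ Y.erase x ∧ α e ∉ X
        · rw [if_pos h, if_pos ⟨Finset.mem_of_mem_erase h.1, h.2⟩]
        · rw [if_neg h]
          split_ifs <;> norm_num
      have e2 := up_add_bt β α H (Y.erase x) X
      have e3 := two (m := bt β α H (Y.erase x) X) hc hq
        ((bt_le_left β α H (Y.erase x) X).trans (sum_dg_le hB _))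
        ((bt_le_right β α H (Y.erase x) X).trans (sum_dg_le hA X))
      rw [e0, Finset.sum_const, nsmul_eq_mul]
      linarith)
  refine ⟨F, hF, fun v => ⟨(h1 v).2, ?_⟩, fun v => ⟨?_, ?_⟩, ?_, ?_⟩
  · have := (h2 v).2
    refine this.trans ?_
    split_ifs
    · exact hq
    · exact le_rfl
  · rw [dg_sdiff hF]
    have := (h1 v).1
    by_cases hv : v = x
    · subst hv
      rw [if_pos rfl] at this
      linarith
    · rw [if_neg hv] at this
      linarith
  · rw [dg_sdiff hF]
    have := (h2 v).1
    by_cases hv : v = x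
    · subst hv
      rw [if_pos rfl] at this
      linarith
    · rw [if_neg hv] at this
      linarith
  · have := (h2 x).2
    rwa [if_pos rfl] at this
  · rw [dg_sdiff hF]
    have := (h1 x).1
    rw [if_pos rfl] at this
    linarith

end main

end NB

open NB in
/-- For a set `H` of edges such that `(V, H) - x` is bipartite the two obvious necessary conditions
for a proper edge colouring with `k` colours are sufficient. -/
theorem nb_col_on {V E : Type} [Fintype V] [DecidableEq V] [Fintype E] [DecidableEq E]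
    (G : Mg V E) (H : Finset E) (x : V) (p : V → Bool)
    (hp : ∀ e ∈ H, x ∉ G.ends e → ∀ u ∈ G.ends e, ∀ v ∈ G.ends e, u ≠ v → p u ≠ p v)
    (k : ℕ) (hg : G.Good H k) : G.EdgeCol H k := by
  choose α β hαβ hne hαβ' using split hp
  have hα : ∀ e ∈ H, α e ≠ x → p (α e) = true := fun e he => (hαβ' e he).1
  have hβ : ∀ e ∈ H, β e ≠ x → p (β e) = false := fun e he => (hαβ' e he).2
  obtain ⟨hdeg, hodd⟩ := hg
  have hd : ∀ v, dg α H v + dg β H v ≤ k := by
    intro v
    rw [← deg_eq hαβ hne]
    exact_mod_cast hdeg v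
  have h0 := hd x
  obtain ⟨q, hq⟩ := Int.eq_ofNat_of_zero_le (dg_nonneg α H x)
  have hqk : q ≤ k := by
    have := dg_nonneg β H x
    have h1 : (q : ℤ) ≤ k := by linarith
    exact_mod_cast h1
  obtain ⟨c, rfl⟩ : ∃ c, k = c + q := ⟨k - q, by omega⟩
  push_cast at hd h0
  have hodd' : ∀ S : Finset V, Odd #S → 2 * (#(G.ins H S) : ℤ) ≤ ((c : ℤ) + q) * (#S - 1) := by
    intro S hS
    have h1 := hodd S hS
    have h2 : 1 ≤ #S := hS.pos
    have h3 : ((2 * #(G.ins H S) : ℕ) : ℤ) ≤ (((c + q) * (#S - 1) : ℕ) : ℤ) := by exact_mod_cast h1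
    push_cast [Nat.cast_sub h2] at h3
    exact h3
  obtain ⟨F, hF, f1, f2, f3, f4⟩ := exF (p := p) hαβ hα hβ (q := q) (c := c)
    (Int.natCast_nonneg q) (Int.natCast_nonneg c)
    (fun v => by have := hd v; have := dg_nonneg β H v; linarith)
    (fun v => by have := hd v; have := dg_nonneg α H v; linarith) hq (by linarith) hodd'
  obtain ⟨c1, c1l, c1p⟩ := koenig α β q F (fun v => (f1 v).1) (fun v => (f1 v).2)
  obtain ⟨c2, c2l, c2p⟩ := koenig α β c (H \ F) (fun v => (f2 v).1) (fun v => (f2 v).2)
  have hnβ : ∀ e ∈ F, β e ≠ x := by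
    intro e he h
    have := one_le_dg (α := β) he
    rw [h] at this
    linarith
  have hnα : ∀ e ∈ H \ F, α e ≠ x := by
    intro e he h
    have := one_le_dg (α := α) he
    rw [h] at this
    linarith
  have hside : ∀ e ∈ H, ∀ f ∈ H, α e = β f → α e = x := by
    intro e he f hf hef
    by_contra hx
    have h1 := hα e he hx
    have h2 := hβ f hf (by rw [← hef]; exact hx)
    rw [hef, h2] at h1
    exact absurd h1 (by simp)
  refine ⟨fun e => if e ∈ F then c1 e else q + c2 e, ?_, ?_⟩
  · intro e he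
    by_cases heF : e ∈ F
    · have := c1l e heF
      simp only [heF, if_true]
      omega
    · have := c2l e (Finset.mem_sdiff.2 ⟨he, heF⟩)
      simp only [heF, if_false]
      omega
  · intro e he f hf v hve hvf hcc
    rw [hαβ, Sym2.mem_iff] at hve hvf
    by_cases heF : e ∈ F <;> by_cases hfF : f ∈ F
    · simp only [heF, hfF, if_true] at hcc
      refine c1p e heF f hfF ?_ hcc
      rcases hve with h1 | h1 <;> rcases hvf with h2 | h2
      · exact Or.inl (h1.symm.trans h2)
      · exfalso
        have h3 := hside e he f hf (h1.symm.trans h2)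
        exact hnβ f hfF (by rw [← h2, h1, h3])
      · exfalso
        have h3 := hside f hf e he (h2.symm.trans h1)
        exact hnβ e heF (by rw [← h1, h2, h3])
      · exact Or.inr (h1.symm.trans h2)
    · have := c1l e heF
      simp only [heF, hfF, if_true, if_false] at hcc
      omega
    · have := c1l f hfF
      simp only [heF, hfF, if_true, if_false] at hcc
      omega
    · simp only [heF, hfF, if_false] at hcc
      refine c2p e (Finset.mem_sdiff.2 ⟨he, heF⟩) f (Finset.mem_sdiff.2 ⟨hf, hfF⟩) ?_ (by omega)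
      rcases hve with h1 | h1 <;> rcases hvf with h2 | h2
      · exact Or.inl (h1.symm.trans h2)
      · exfalso
        exact hnα e (Finset.mem_sdiff.2 ⟨he, heF⟩) (hside e he f hf (h1.symm.trans h2))
      · exfalso
        exact hnα f (Finset.mem_sdiff.2 ⟨hf, hfF⟩) (hside f hf e he (h2.symm.trans h1))
      · exact Or.inr (h1.symm.trans h2)

/-- In a nearly bipartite multigraph the two obvious necessary conditions for a proper edge
colouring with `k` colours are sufficient, for every set `H` of edges. -/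
theorem nb_col {V E : Type} [Fintype V] [DecidableEq V] [Fintype E] [DecidableEq E]
    (G : Mg V E) (h : G.NearlyBipartite) (H : Finset E) (k : ℕ) (hg : G.Good H k) :
    G.EdgeCol H k := by
  obtain ⟨x, p, hp⟩ := h
  exact nb_col_on G H x p (fun e _ => hp e) k hg

end Pool.Agent.MP27a405
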