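import Pool.Agent.MP27a405.OA

/-!
# MP_27a405_co: multigraphs of order at most 8, part C: contraction and merging
-/

namespace Pool.Agent.MP27a405.SP

open Finset

set_option linter.unusedSectionVars false

/-! ### Permutations of colours -/

theorem swapSet : ∀ (n : ℕ) (R R' : Finset ℕ), #(R \ R') = n → #R = #R' →
    ∃ σ : Equiv.Perm ℕ, R.image σ = R' ∧ ∀ z, z ∉ R → z ∉ R' → σ z = z := by
  intro n
  induction n with
  | zero =>
    intro R R' h hc
    have h1 : R ⊆ R' := by
      rw [Finset.card_eq_zero, Finset.sdiff_eq_empty_iff_subset] at h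
      exact h
    have h2 : R = R' := Finset.eq_of_subset_of_card_le h1 hc.ge
    refine ⟨1, ?_, fun _ _ _ => rfl⟩
    rw [h2]
    exact Finset.image_id
  | succ n ih =>
    intro R R' h hc
    have h1 : (R \ R').Nonempty := by
      rw [← Finset.card_pos, h]
      exact Nat.succ_pos n
    have hc' : #(R' \ R) = #(R \ R') := by
      have e1 := Finset.card_sdiff_add_card_inter R R'
      have e2 := Finset.card_sdiff_add_card_inter R' R
      rw [Finset.inter_comm] at e2
      omega
    have h2 : (R' \ R).Nonempty := by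
      rw [← Finset.card_pos, hc', h]
      exact Nat.succ_pos n
    obtain ⟨a, ha⟩ := h1
    obtain ⟨b, hb⟩ := h2
    obtain ⟨ha1, ha2⟩ := Finset.mem_sdiff.1 ha
    obtain ⟨hb1, hb2⟩ := Finset.mem_sdiff.1 hb
    have hab : a ≠ b := fun h => hb2 (h ▸ ha1)
    have hR1 : R.image (Equiv.swap a b) = insert b (R.erase a) := by
      ext x
      rw [Finset.mem_image, Finset.mem_insert, Finset.mem_erase]
      constructor
      · rintro ⟨y, hy, rfl⟩
        by_cases h3 : y = a
        · left
          rw [h3, Equiv.swap_apply_left]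
        · right
          have h4 : y ≠ b := fun h => hb2 (h ▸ hy)
          rw [Equiv.swap_apply_of_ne_of_ne h3 h4]
          exact ⟨h3, hy⟩
      · rintro (h3 | ⟨h3, h4⟩)
        · exact ⟨a, ha1, by rw [h3, Equiv.swap_apply_left]⟩
        · have h5 : x ≠ b := fun h => hb2 (h ▸ h4)
          exact ⟨x, h4, Equiv.swap_apply_of_ne_of_ne h3 h5⟩
    have hdiff : R.image (Equiv.swap a b) \ R' = (R \ R').erase a := by
      rw [hR1]
      ext x
      simp only [Finset.mem_sdiff, Finset.mem_insert, Finset.mem_erase]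
      constructor
      · rintro ⟨h3 | ⟨h3, h4⟩, h5⟩
        · exact absurd (h3 ▸ hb1) h5
        · exact ⟨h3, h4, h5⟩
      · rintro ⟨h3, h4, h5⟩
        exact ⟨Or.inr ⟨h3, h4⟩, h5⟩
    obtain ⟨σ, hσ, hσ'⟩ := ih (R.image (Equiv.swap a b)) R'
      (by rw [hdiff, Finset.card_erase_of_mem ha, h]; rfl)
      (by rw [Finset.card_image_of_injective _ (Equiv.injective _), hc])
    refine ⟨(Equiv.swap a b).trans σ, ?_, ?_⟩
    · rw [← hσ, Finset.image_image]
      rfl
    · intro z h3 h4
      have hza : z ≠ a := fun h => h3 (h ▸ ha1)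
      have hzb : z ≠ b := fun h => h4 (h ▸ hb1)
      rw [Equiv.trans_apply, Equiv.swap_apply_of_ne_of_ne hza hzb]
      refine hσ' z ?_ h4
      rw [hR1, Finset.mem_insert, Finset.mem_erase]
      rintro (h | h)
      · exact hzb h
      · exact h3 h.2

theorem permFam {ι : Type} [DecidableEq ι] {k : ℕ} (P Q : ι → Finset ℕ) (I : Finset ι)
    (hP : ∀ i ∈ I, P i ⊆ range k) (hQ : ∀ i ∈ I, Q i ⊆ range k) (hc : ∀ i ∈ I, #(P i) = #(Q i))
    (dP : ∀ i ∈ I, ∀ j ∈ I, i ≠ j → Disjoint (P i) (P j))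
    (dQ : ∀ i ∈ I, ∀ j ∈ I, i ≠ j → Disjoint (Q i) (Q j)) :
    ∃ π : Equiv.Perm ℕ, (∀ i ∈ I, (Q i).image π = P i) ∧ ∀ z, z ∉ range k → π z = z := by
  induction I using Finset.induction_on with
  | empty => exact ⟨1, fun i hi => absurd hi (Finset.notMem_empty i), fun _ _ => rfl⟩
  | insert i0 I hi0 ih =>
    obtain ⟨π, h1, h2⟩ := ih (fun i hi => hP i (Finset.mem_insert_of_mem hi))
      (fun i hi => hQ i (Finset.mem_insert_of_mem hi))
      (fun i hi => hc i (Finset.mem_insert_of_mem hi))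
      (fun i hi j hj => dP i (Finset.mem_insert_of_mem hi) j (Finset.mem_insert_of_mem hj))
      (fun i hi j hj => dQ i (Finset.mem_insert_of_mem hi) j (Finset.mem_insert_of_mem hj))
    have hi0' := Finset.mem_insert_self i0 I
    -- `π` preserves `range k`
    have hπ : ∀ z ∈ range k, π z ∈ range k := by
      intro z hz
      by_contra h
      have h3 := h2 _ h
      exact h ((π.injective h3).symm ▸ hz)
    have hR : (Q i0).image π ⊆ range k := by
      intro x hx
      obtain ⟨y, hy, rfl⟩ := Finset.mem_image.1 hx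
      exact hπ y (hQ i0 hi0' hy)
    obtain ⟨σ, hσ, hσ'⟩ := swapSet _ ((Q i0).image π) (P i0) rfl
      (by rw [Finset.card_image_of_injective _ π.injective, hc i0 hi0'])
    refine ⟨π.trans σ, ?_, ?_⟩
    · intro i hi
      have e : (Q i).image (π.trans σ) = ((Q i).image π).image σ := by
        rw [Finset.image_image]
        rfl
      rw [e]
      rcases Finset.mem_insert.1 hi with h | h
      · rw [h, hσ]
      · rw [h1 i h]
        have hne : i ≠ i0 := fun h' => hi0 (h' ▸ h)
        have hfix : ∀ z ∈ P i, σ z = z := by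
          intro z hz
          refine hσ' z ?_ ?_
          · intro h3
            obtain ⟨y, hy, hyz⟩ := Finset.mem_image.1 h3
            rw [← h1 i h] at hz
            obtain ⟨w, hw, hwz⟩ := Finset.mem_image.1 hz
            have h4 : y = w := π.injective (hyz.trans hwz.symm)
            exact Finset.disjoint_left.1 (dQ i0 hi0' i hi hne.symm) hy (h4 ▸ hw)
          · intro h3
            exact Finset.disjoint_left.1 (dP i hi i0 hi0' hne) hz h3
        rw [Finset.image_congr (g := id) (fun z hz => hfix z hz), Finset.image_id]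
    · intro z hz
      rw [Equiv.trans_apply, h2 z hz]
      exact hσ' z (fun h => hz (hR h)) (fun h => hz (hP i0 hi0' h))

/-- Splitting a set into pieces of prescribed sizes. -/
theorem split {ι : Type} [DecidableEq ι] (X : Finset ι) (n : ι → ℕ) : ∀ B : Finset ℕ,
    ∑ x ∈ X, n x ≤ #B → ∃ P : ι → Finset ℕ, (∀ x ∈ X, P x ⊆ B ∧ #(P x) = n x) ∧
      ∀ x ∈ X, ∀ y ∈ X, x ≠ y → Disjoint (P x) (P y) := by
  induction X using Finset.induction_on with
  | empty =>
    intro B _
    exact ⟨fun _ => ∅, fun x hx => absurd hx (Finset.notMem_empty x),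
      fun x hx => absurd hx (Finset.notMem_empty x)⟩
  | insert x0 X hx0 ih =>
    intro B hB
    rw [Finset.sum_insert hx0] at hB
    obtain ⟨A, hA, hAc⟩ := exSub (A := B) (n := n x0) (by omega)
    obtain ⟨P, h1, h2⟩ := ih (B \ A) (by
      rw [Finset.card_sdiff_of_subset hA]
      omega)
    refine ⟨fun x => if x = x0 then A else P x, ?_, ?_⟩
    · intro x hx
      by_cases h : x = x0
      · simp only [h, if_true]
        exact ⟨hA, hAc⟩
      · have hx' : x ∈ X := (Finset.mem_insert.1 hx).resolve_left h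
        simp only [h, if_false]
        exact ⟨(h1 x hx').1.trans Finset.sdiff_subset, (h1 x hx').2⟩
    · have hAP : ∀ x ∈ X, Disjoint A (P x) := fun x hx =>
        Finset.disjoint_of_subset_right (h1 x hx).1 Finset.disjoint_sdiff
      intro x hx y hy hxy
      by_cases h : x = x0
      · have hy' : y ≠ x0 := fun h' => hxy (h.trans h'.symm)
        simp only [h, if_true, hy', if_false]
        exact hAP y ((Finset.mem_insert.1 hy).resolve_left hy')
      · have hx' : x ∈ X := (Finset.mem_insert.1 hx).resolve_left h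
        by_cases h' : y = x0
        · simp only [h, h', if_true, if_false]
          exact (hAP x hx').symm
        · simp only [h, h', if_false]
          exact h2 x hx' y ((Finset.mem_insert.1 hy).resolve_left h') hxy

variable {V : Type} [DecidableEq V] {U S T : Finset V} {μ : V → V → ℕ} {k : ℕ}

/-! ### Contraction of a set -/

/-- The multigraph in which `S` is contracted to `s`. -/
def ctr (μ : V → V → ℕ) (S : Finset V) (s a b : V) : ℕ :=
  if a = s then (if b = s then 0 else dgs μ S b) else if b = s then dgs μ S a else μ a b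

theorem ctr_symm (hs : ∀ x y, μ x y = μ y x) (s a b : V) : ctr μ S s a b = ctr μ S s b a := by
  unfold ctr
  by_cases h1 : a = s <;> by_cases h2 : b = s
  · simp [h1, h2]
  · simp [h1, h2]
  · simp [h1, h2]
  · simp only [h1, h2, if_false]
    exact hs a b

theorem ctr_diag (hd : ∀ x, μ x x = 0) (s a : V) : ctr μ S s a a = 0 := by
  unfold ctr
  by_cases h1 : a = s
  · simp [h1]
  · simp only [h1, if_false]
    exact hd a

theorem ctr_s {s b : V} (h : b ≠ s) : ctr μ S s s b = dgs μ S b := by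
  unfold ctr
  simp [h]

theorem ctr_o {s a b : V} (ha : a ≠ s) (hb : b ≠ s) : ctr μ S s a b = μ a b := by
  unfold ctr
  simp [ha, hb]

theorem ctr_dgs_o {s a : V} (ha : a ≠ s) (hs : s ∉ T) : dgs (ctr μ S s) T a = dgs μ T a := by
  unfold dgs
  exact Finset.sum_congr rfl fun y hy => ctr_o ha (fun h => hs (h ▸ hy))

theorem ctr_dgs_s {s : V} (hs : s ∉ T) : dgs (ctr μ S s) T s = ex μ T S := by
  unfold ex
  conv_lhs => unfold dgs
  exact Finset.sum_congr rfl fun y hy => ctr_s (fun h => hs (h ▸ hy))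

theorem ctr_ein {s : V} (hs : s ∉ T) : ein (ctr μ S s) T = ein μ T := by
  unfold ein
  exact Finset.sum_congr rfl fun a ha => ctr_dgs_o (fun h => hs (h ▸ ha)) hs

/-- Contraction of a tight set preserves the conditions. -/
theorem good_ctr (hs : ∀ x y, μ x y = μ y x) (hd : ∀ x, μ x x = 0) (hG : GoodOn U μ k)
    (hreg : ∀ v ∈ U, dgs μ U v = k) (hS : S ⊆ U) (ho : Odd #S)
    (ht : ein μ S + k = k * #S) {s : V} (hsS : s ∈ S) :
    GoodOn (insert s (U \ S)) (ctr μ S s) k := by
  have hdis : Disjoint S (U \ S) := Finset.disjoint_sdiff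
  have hUS : U = S ∪ (U \ S) := (Finset.union_sdiff_of_subset hS).symm
  have hsT : s ∉ U \ S := fun h => (Finset.mem_sdiff.1 h).2 hsS
  have hb : ex μ S (U \ S) = k := by
    have h := ex_union_right (μ := μ) hdis S
    rw [← hUS] at h
    have h3 : ex μ S U = k * #S := by
      unfold ex
      rw [Finset.sum_congr rfl (fun x hx => hreg x (hS hx)), Finset.sum_const, smul_eq_mul,
        mul_comm]
    rw [← ein_eq] at h
    omega
  refine ⟨?_, ?_⟩
  · intro v hv
    rcases Finset.mem_insert.1 hv with h | h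
    · rw [h, dgs_insert hsT, ctr_diag hd, ctr_dgs_s hsT, ex_comm hs, hb]
      omega
    · have hvs : v ≠ s := fun h' => hsT (h' ▸ h)
      rw [dgs_insert hsT, ctr_symm hs, ctr_s hvs, ctr_dgs_o hvs hsT, ← dgs_union hdis, ← hUS]
      exact hG.deg v (Finset.mem_sdiff.1 h).1
  · intro R hR hoR
    by_cases hsR : s ∈ R
    · obtain ⟨R', hR'⟩ : ∃ R', R' = R.erase s := ⟨_, rfl⟩
      have hsR' : s ∉ R' := by rw [hR']; exact Finset.notMem_erase s R
      have hRR : R = insert s R' := by rw [hR', Finset.insert_erase hsR]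
      have hR'T : R' ⊆ U \ S := by
        intro w hw
        have hw' : w ∈ R := by rw [hRR]; exact Finset.mem_insert_of_mem hw
        rcases Finset.mem_insert.1 (hR hw') with h | h
        · exact absurd (h ▸ hw) hsR'
        · exact h
      have hc : #R = #R' + 1 := by rw [hRR, Finset.card_insert_of_notMem hsR']
      have he : Even #R' := by
        rw [hc, Nat.odd_add_one, Nat.not_odd_iff_even] at hoR
        exact hoR
      rw [hRR, ein_insert (ctr_symm hs s) (ctr_diag hd s) hsR', ctr_ein hsR', ctr_dgs_s hsR',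
        Finset.card_insert_of_notMem hsR']
      have hd2 : Disjoint S R' := Finset.disjoint_of_subset_right hR'T hdis
      have h1 := hG.odd (S ∪ R') (Finset.union_subset hS (hR'T.trans Finset.sdiff_subset))
        (by rw [Finset.card_union_of_disjoint hd2]; exact ho.add_even he)
      rw [ein_union hs hd2, Finset.card_union_of_disjoint hd2, ex_comm hs S R'] at h1
      have e1 : k * (#S + #R') = k * #S + k * #R' := by ring
      have e2 : k * (#R' + 1) = k * #R' + k := by ring
      rw [e1] at h1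
      rw [e2]
      omega
    · have hRU : R ⊆ U := by
        intro w hw
        rcases Finset.mem_insert.1 (hR hw) with h | h
        · exact absurd (h ▸ hw) hsR
        · exact (Finset.mem_sdiff.1 h).1
      rw [ctr_ein hsR]
      exact hG.odd R hRU hoR

/-- Merging two colourings along a tight cut. -/
theorem merge (hs : ∀ x y, μ x y = μ y x) {s t : V}
    (hsS : s ∈ S) (ht : t ∈ U \ S) {φ₁ φ₂ : V → V → Finset ℕ}
    (h1 : Col (insert s (U \ S)) (ctr μ S s) k φ₁)
    (h2 : Col (insert t S) (ctr μ (U \ S) t) k φ₂) : ∃ φ, Col U μ k φ := by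
  have hsT : s ∉ U \ S := fun h => (Finset.mem_sdiff.1 h).2 hsS
  have htS : t ∉ S := (Finset.mem_sdiff.1 ht).2
  have hsI := Finset.mem_insert_self s (U \ S)
  have htI := Finset.mem_insert_self t S
  have hne1 : ∀ y ∈ U \ S, y ≠ s := fun y hy h => hsT (h ▸ hy)
  have hne2 : ∀ x ∈ S, x ≠ t := fun x hx h => htS (h ▸ hx)
  -- splitting the colour sets at `s` and at `t`
  have e1 : ∀ y ∈ U \ S, #(φ₁ s y) = ∑ x ∈ S, μ y x := by
    intro y hy
    rw [h1.card s hsI y (Finset.mem_insert_of_mem hy), ctr_s (hne1 y hy)]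
    rfl
  have e2 : ∀ x ∈ S, #(φ₂ t x) = ∑ y ∈ U \ S, μ x y := by
    intro x hx
    rw [h2.card t htI x (Finset.mem_insert_of_mem hx), ctr_s (hne2 x hx)]
    rfl
  have hP : ∀ y, ∃ P : V → Finset ℕ, y ∈ U \ S → (∀ x ∈ S, P x ⊆ φ₁ s y ∧ #(P x) = μ y x) ∧
      ∀ x ∈ S, ∀ x' ∈ S, x ≠ x' → Disjoint (P x) (P x') := by
    intro y
    by_cases hy : y ∈ U \ S
    · obtain ⟨P, h3, h4⟩ := split S (fun x => μ y x) (φ₁ s y) (e1 y hy).ge
      exact ⟨P, fun _ => ⟨h3, h4⟩⟩
    · exact ⟨fun _ => ∅, fun h => absurd h hy⟩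
  have hQ : ∀ x, ∃ Q : V → Finset ℕ, x ∈ S → (∀ y ∈ U \ S, Q y ⊆ φ₂ t x ∧ #(Q y) = μ x y) ∧
      ∀ y ∈ U \ S, ∀ y' ∈ U \ S, y ≠ y' → Disjoint (Q y) (Q y') := by
    intro x
    by_cases hx : x ∈ S
    · obtain ⟨Q, h3, h4⟩ := split (U \ S) (fun y => μ x y) (φ₂ t x) (e2 x hx).ge
      exact ⟨Q, fun _ => ⟨h3, h4⟩⟩
    · exact ⟨fun _ => ∅, fun h => absurd h hx⟩
  choose P hP using hP
  choose Q hQ using hQ
  obtain ⟨π, hπ, hπk⟩ := permFam (k := k) (fun i : V × V => P i.2 i.1) (fun i => Q i.1 i.2)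
    (S ×ˢ (U \ S))
    (by
      rintro ⟨x, y⟩ hi
      obtain ⟨hx, hy⟩ := Finset.mem_product.1 hi
      exact ((hP y hy).1 x hx).1.trans (h1.sub s hsI y (Finset.mem_insert_of_mem hy)))
    (by
      rintro ⟨x, y⟩ hi
      obtain ⟨hx, hy⟩ := Finset.mem_product.1 hi
      exact ((hQ x hx).1 y hy).1.trans (h2.sub t htI x (Finset.mem_insert_of_mem hx)))
    (by
      rintro ⟨x, y⟩ hi
      obtain ⟨hx, hy⟩ := Finset.mem_product.1 hi
      show #(P y x) = #(Q x y)
      rw [((hP y hy).1 x hx).2, ((hQ x hx).1 y hy).2, hs])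
    (by
      rintro ⟨x, y⟩ hi ⟨x', y'⟩ hi' hne
      obtain ⟨hx, hy⟩ := Finset.mem_product.1 hi
      obtain ⟨hx', hy'⟩ := Finset.mem_product.1 hi'
      show Disjoint (P y x) (P y' x')
      by_cases hyy : y = y'
      · have hxx : x ≠ x' := fun h => hne (by rw [h, hyy])
        rw [← hyy]
        exact (hP y hy).2 x hx x' hx' hxx
      · exact Disjoint.mono ((hP y hy).1 x hx).1 ((hP y' hy').1 x' hx').1
          (h1.disj s hsI y (Finset.mem_insert_of_mem hy) y' (Finset.mem_insert_of_mem hy') hyy))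
    (by
      rintro ⟨x, y⟩ hi ⟨x', y'⟩ hi' hne
      obtain ⟨hx, hy⟩ := Finset.mem_product.1 hi
      obtain ⟨hx', hy'⟩ := Finset.mem_product.1 hi'
      show Disjoint (Q x y) (Q x' y')
      by_cases hxx : x = x'
      · have hyy : y ≠ y' := fun h => hne (by rw [h, hxx])
        rw [← hxx]
        exact (hQ x hx).2 y hy y' hy' hyy
      · exact Disjoint.mono ((hQ x hx).1 y hy).1 ((hQ x' hx').1 y' hy').1
          (h2.disj t htI x (Finset.mem_insert_of_mem hx) x' (Finset.mem_insert_of_mem hx') hxx))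
  have hπ' : ∀ x ∈ S, ∀ y ∈ U \ S, P y x ⊆ (φ₂ t x).image π := by
    intro x hx y hy
    have h3 := hπ (x, y) (Finset.mem_product.2 ⟨hx, hy⟩)
    have h4 : (Q x y).image π = P y x := h3
    rw [← h4]
    exact Finset.image_subset_image ((hQ x hx).1 y hy).1
  have hπr : ∀ A : Finset ℕ, A ⊆ range k → A.image π ⊆ range k := by
    intro A hA z hz
    obtain ⟨w, hw, rfl⟩ := Finset.mem_image.1 hz
    by_contra h
    have h3 := hπk _ h
    exact h ((π.injective h3).symm ▸ hA hw)
  obtain ⟨φ, hφ⟩ : ∃ φ : V → V → Finset ℕ, φ = fun a b => if a ∈ S then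
      (if b ∈ S then (φ₂ a b).image π else P b a) else (if b ∈ S then P a b else φ₁ a b) :=
    ⟨_, rfl⟩
  have f1 : ∀ a ∈ S, ∀ b ∈ S, φ a b = (φ₂ a b).image π := fun a ha b hb => by
    rw [hφ]; simp only [ha, hb, if_true]
  have f2 : ∀ a ∈ S, ∀ b, b ∉ S → φ a b = P b a := fun a ha b hb => by
    rw [hφ]; simp only [ha, hb, if_true, if_false]
  have f3 : ∀ a, a ∉ S → ∀ b ∈ S, φ a b = P a b := fun a ha b hb => by
    rw [hφ]; simp only [ha, hb, if_true, if_false]
  have f4 : ∀ a, a ∉ S → ∀ b, b ∉ S → φ a b = φ₁ a b := fun a ha b hb => by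
    rw [hφ]; simp only [ha, hb, if_false]
  have hm : ∀ a ∈ U, a ∉ S → a ∈ U \ S := fun a h h' => Finset.mem_sdiff.2 ⟨h, h'⟩
  refine ⟨φ, ?_, ?_, ?_, ?_⟩
  · intro a b
    by_cases ha : a ∈ S <;> by_cases hb : b ∈ S
    · rw [f1 a ha b hb, f1 b hb a ha, h2.symm]
    · rw [f2 a ha b hb, f3 b hb a ha]
    · rw [f3 a ha b hb, f2 b hb a ha]
    · rw [f4 a ha b hb, f4 b hb a ha, h1.symm]
  · intro a haU b hbU
    by_cases ha : a ∈ S <;> by_cases hb : b ∈ S
    · rw [f1 a ha b hb, Finset.card_image_of_injective _ π.injective,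
        h2.card a (Finset.mem_insert_of_mem ha) b (Finset.mem_insert_of_mem hb),
        ctr_o (hne2 a ha) (hne2 b hb)]
    · rw [f2 a ha b hb, ((hP b (hm b hbU hb)).1 a ha).2, hs]
    · rw [f3 a ha b hb, ((hP a (hm a haU ha)).1 b hb).2]
    · rw [f4 a ha b hb, h1.card a (Finset.mem_insert_of_mem (hm a haU ha)) b
        (Finset.mem_insert_of_mem (hm b hbU hb)),
        ctr_o (hne1 a (hm a haU ha)) (hne1 b (hm b hbU hb))]
  · intro a haU b hbU
    by_cases ha : a ∈ S <;> by_cases hb : b ∈ S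
    · rw [f1 a ha b hb]
      exact hπr _ (h2.sub a (Finset.mem_insert_of_mem ha) b (Finset.mem_insert_of_mem hb))
    · rw [f2 a ha b hb]
      exact ((hP b (hm b hbU hb)).1 a ha).1.trans (h1.sub s hsI b
        (Finset.mem_insert_of_mem (hm b hbU hb)))
    · rw [f3 a ha b hb]
      exact ((hP a (hm a haU ha)).1 b hb).1.trans (h1.sub s hsI a
        (Finset.mem_insert_of_mem (hm a haU ha)))
    · rw [f4 a ha b hb]
      exact h1.sub a (Finset.mem_insert_of_mem (hm a haU ha)) b
        (Finset.mem_insert_of_mem (hm b hbU hb))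
  · -- disjointness at `a`
    have dj1 : ∀ a ∈ S, ∀ b ∈ S, ∀ c ∈ U, c ∉ S → Disjoint (φ a b) (φ a c) := by
      intro a ha b hb c hcU hc
      rw [f1 a ha b hb, f2 a ha c hc]
      refine Finset.disjoint_of_subset_right (hπ' a ha c (hm c hcU hc)) ?_
      rw [Finset.disjoint_image π.injective, h2.symm t a]
      exact h2.disj a (Finset.mem_insert_of_mem ha) b (Finset.mem_insert_of_mem hb) t htI
        (hne2 b hb)
    have dj2 : ∀ a ∈ U, a ∉ S → ∀ b ∈ U, b ∉ S → ∀ c ∈ S, Disjoint (φ a b) (φ a c) := by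
      intro a haU ha b hbU hb c hc
      rw [f4 a ha b hb, f3 a ha c hc]
      refine Finset.disjoint_of_subset_right ((hP a (hm a haU ha)).1 c hc).1 ?_
      rw [h1.symm s a]
      exact h1.disj a (Finset.mem_insert_of_mem (hm a haU ha)) b
        (Finset.mem_insert_of_mem (hm b hbU hb)) s hsI (hne1 b (hm b hbU hb))
    intro a haU b hbU c hcU hbc
    by_cases ha : a ∈ S
    · by_cases hb : b ∈ S <;> by_cases hc : c ∈ S
      · rw [f1 a ha b hb, f1 a ha c hc, Finset.disjoint_image π.injective]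
        exact h2.disj a (Finset.mem_insert_of_mem ha) b (Finset.mem_insert_of_mem hb) c
          (Finset.mem_insert_of_mem hc) hbc
      · exact dj1 a ha b hb c hcU hc
      · exact (dj1 a ha c hc b hbU hb).symm
      · rw [f2 a ha b hb, f2 a ha c hc]
        exact Disjoint.mono ((hP b (hm b hbU hb)).1 a ha).1 ((hP c (hm c hcU hc)).1 a ha).1
          (h1.disj s hsI b (Finset.mem_insert_of_mem (hm b hbU hb)) c
            (Finset.mem_insert_of_mem (hm c hcU hc)) hbc)
    · by_cases hb : b ∈ S <;> by_cases hc : c ∈ S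
      · rw [f3 a ha b hb, f3 a ha c hc]
        exact (hP a (hm a haU ha)).2 b hb c hc hbc
      · exact (dj2 a haU ha c hcU hc b hb).symm
      · exact dj2 a haU ha b hbU hb c hc
      · rw [f4 a ha b hb, f4 a ha c hc]
        exact h1.disj a (Finset.mem_insert_of_mem (hm a haU ha)) b
          (Finset.mem_insert_of_mem (hm b hbU hb)) c (Finset.mem_insert_of_mem (hm c hcU hc)) hbc

end Pool.Agent.MP27a405.SP
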