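import Mathlib

/-!
# MP_27a405_co: cover index of multigraphs (Gupta's co-density parameters)

Definitions.  A multigraph is given by a finite vertex type `V`, a finite edge type `E` and the
map `ends : E → Sym2 V`; loops are excluded, parallel edges are allowed.
-/

namespace Pool.Agent.MP27a405

open Finset

/-- A multigraph without loops; parallel edges are allowed. -/
structure Mg (V E : Type) where
  /-- the two ends of an edge -/
  ends : E → Sym2 V
  noloop : ∀ e, ¬ (ends e).IsDiag

namespace Mg

variable {V E : Type} [Fintype V] [DecidableEq V] [Fintype E] [DecidableEq E] (G : Mg V E)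

/-- The number of edges of `F` at the vertex `v`. -/
def deg (F : Finset E) (v : V) : ℕ := #{e ∈ F | v ∈ G.ends e}

/-- The edges of `F` with both ends in `S`. -/
def ins (F : Finset E) (S : Finset V) : Finset E := {e ∈ F | ∀ v ∈ G.ends e, v ∈ S}

/-- `E'(S)`: the edges of `G` with at least one end in `S`. -/
def touch (S : Finset V) : Finset E := {e | ∃ v ∈ G.ends e, v ∈ S}

/-- The edges of `G` can be coloured with `k` colours such that every vertex meets every
colour (that is, the edge set is the disjoint union of `k` covers). -/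
def Covers (k : ℕ) : Prop := ∃ σ : E → Fin k, ∀ (v : V) (i : Fin k), ∃ e, v ∈ G.ends e ∧ σ e = i

/-- The cover index (`0` if there is no admissible `k`). -/
noncomputable def kappa : ℕ := sSup {k | G.Covers k}

/-- The minimum degree. -/
noncomputable def minDeg : ℕ := ⨅ v, G.deg univ v

/-- `t^*(G)`, the minimum over `r ≥ 1` and `|S| = 2 r + 1` of `⌊|E'(S)| / (r + 1)⌋`
(`⊤` if there is no such `S`). -/
noncomputable def tstar : ℕ∞ :=
  ⨅ (r : ℕ) (S : Finset V) (_ : 1 ≤ r) (_ : #S = 2 * r + 1),
    ((#(G.touch S) / (r + 1) : ℕ) : ℕ∞)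

/-- The edges of `F` have a proper edge colouring with the colours `0, …, k - 1`. -/
def EdgeCol (F : Finset E) (k : ℕ) : Prop :=
  ∃ c : E → ℕ, (∀ e ∈ F, c e < k) ∧
    ∀ e ∈ F, ∀ f ∈ F, ∀ v, v ∈ G.ends e → v ∈ G.ends f → c e = c f → e = f

/-- The two obvious necessary conditions for a proper edge colouring of `F` with `k` colours:
all degrees are at most `k`, and every odd set `S` spans at most `k (|S| - 1) / 2` edges. -/
def Good (F : Finset E) (k : ℕ) : Prop :=
  (∀ v, G.deg F v ≤ k) ∧ ∀ S : Finset V, Odd #S → 2 * #(G.ins F S) ≤ k * (#S - 1)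

/-- `G` is nearly bipartite: `G - x` is bipartite for some vertex `x`. -/
def NearlyBipartite : Prop :=
  ∃ (x : V) (p : V → Bool), ∀ e, x ∉ G.ends e → ∀ u ∈ G.ends e, ∀ v ∈ G.ends e, u ≠ v → p u ≠ p v

end Mg

end Pool.Agent.MP27a405
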