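import Pool.Agent.MP27a405.SPD
import Pool.Agent.MP27a405.Def

/-!
# MP_27a405_co: series-parallel multigraphs, part E: from multiplicities to edges
-/

namespace Pool.Agent.MP27a405.SP

open Finset

set_option linter.unusedSectionVars false

variable {V E : Type} [Fintype V] [DecidableEq V] [Fintype E] [DecidableEq E]

/-- The multiplicities of the edges in `F`. -/
def mult (G : Mg V E) (F : Finset E) (x y : V) : ℕ := #{e ∈ F | G.ends e = s(x, y)}

variable {G : Mg V E} {F : Finset E}

theorem ex_ends (G : Mg V E) (e : E) : ∃ a b : V, a ≠ b ∧ G.ends e = s(a, b) := by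
  obtain ⟨a, b, h⟩ : ∃ a b, G.ends e = s(a, b) :=
    ⟨(G.ends e).out.1, (G.ends e).out.2, by rw [Sym2.mk, Prod.mk.eta, Quot.out_eq]⟩
  refine ⟨a, b, ?_, h⟩
  rintro rfl
  exact G.noloop e (by rw [h]; exact rfl)

theorem mult_symm (x y : V) : mult G F x y = mult G F y x := by
  unfold mult
  rw [Sym2.eq_swap]

theorem mult_diag (x : V) : mult G F x x = 0 := by
  unfold mult
  rw [Finset.card_eq_zero, Finset.filter_eq_empty_iff]
  intro e _ h
  exact G.noloop e (by rw [h]; exact rfl)

theorem mult_sum (x y : V) : mult G F x y = ∑ e ∈ F, if G.ends e = s(x, y) then 1 else 0 := by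
  unfold mult
  rw [Finset.card_filter]

theorem sum_one {a b : V} (hab : a ≠ b) (S : Finset V) (v : V) :
    (∑ y ∈ S, if s(a, b) = s(v, y) then 1 else 0) =
      (if v = a then (if b ∈ S then 1 else 0) else 0) +
        (if v = b then (if a ∈ S then 1 else 0) else 0) := by
  have h : ∀ y ∈ S, (if s(a, b) = s(v, y) then 1 else 0) =
      (if v = a then (if y = b then 1 else 0) else 0) +
        (if v = b then (if y = a then 1 else 0) else 0) := by
    intro y _
    simp only [Sym2.eq_iff]
    by_cases h1 : v = a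
    · have h2 : ¬ v = b := fun h => hab (h1.symm.trans h)
      by_cases h3 : y = b
      · simp [h1, h3, hab]
      · have h4 : ¬ b = y := fun h => h3 h.symm
        have h5 : ¬ b = v := fun h => h2 h.symm
        simp [h1, h3, h4, hab, hab.symm]
    · by_cases h2 : v = b
      · by_cases h3 : y = a
        · simp [h2, h3, hab.symm]
        · have h4 : ¬ a = y := fun h => h3 h.symm
          simp [h2, h3, h4, hab, hab.symm]
      · have h4 : ¬ a = v := fun h => h1 h.symm
        have h5 : ¬ b = v := fun h => h2 h.symm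
        simp [h1, h2, h4, h5]
  rw [Finset.sum_congr rfl h, Finset.sum_add_distrib]
  congr 1
  · by_cases h1 : v = a
    · simp [h1]
    · simp [h1]
  · by_cases h1 : v = b
    · simp [h1]
    · simp [h1]

theorem dgs_mult (S : Finset V) (v : V) : dgs (mult G F) S v =
    ∑ e ∈ F, ∑ y ∈ S, if G.ends e = s(v, y) then 1 else 0 := by
  unfold dgs
  simp only [mult_sum]
  rw [Finset.sum_comm]

theorem dgs_univ (v : V) : dgs (mult G F) univ v = G.deg F v := by
  rw [dgs_mult]
  unfold Mg.deg
  rw [Finset.card_filter]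
  refine Finset.sum_congr rfl fun e _ => ?_
  obtain ⟨a, b, hab, h⟩ := ex_ends G e
  rw [h, sum_one hab]
  simp only [Sym2.mem_iff]
  by_cases h1 : v = a
  · have h2 : ¬ v = b := fun h => hab (h1.symm.trans h)
    simp [h1, hab]
  · by_cases h2 : v = b
    · simp [h2, hab.symm]
    · simp [h1, h2]

theorem ein_mult (S : Finset V) : ein (mult G F) S = 2 * #(G.ins F S) := by
  unfold ein
  have : ∀ x ∈ S, dgs (mult G F) S x = ∑ e ∈ F, ∑ y ∈ S, if G.ends e = s(x, y) then 1 else 0 :=
    fun x _ => dgs_mult S x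
  rw [Finset.sum_congr rfl this, Finset.sum_comm]
  unfold Mg.ins
  rw [Finset.card_filter, Finset.mul_sum]
  refine Finset.sum_congr rfl fun e _ => ?_
  obtain ⟨a, b, hab, h⟩ := ex_ends G e
  rw [h]
  simp only [sum_one hab, Sym2.mem_iff]
  rw [Finset.sum_add_distrib, Finset.sum_ite_eq', Finset.sum_ite_eq']
  by_cases h1 : a ∈ S <;> by_cases h2 : b ∈ S <;> simp [h1, h2]

theorem good_mult {k : ℕ} (hg : G.Good F k) : GoodOn univ (mult G F) k := by
  refine ⟨fun v _ => ?_, fun S _ ho => ?_⟩
  · rw [dgs_univ]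
    exact hg.1 v
  · have h1 := hg.2 S ho
    rw [ein_mult]
    have h2 : 1 ≤ #S := ho.pos
    obtain ⟨n, hn⟩ : ∃ n, #S = n + 1 := ⟨#S - 1, by omega⟩
    rw [hn] at h1 ⊢
    rw [Nat.add_sub_cancel] at h1
    have : k * (n + 1) = k * n + k := by ring
    omega

theorem col_mult {k : ℕ} {φ : V → V → Finset ℕ} (h : Col univ (mult G F) k φ) :
    G.EdgeCol F k := by
  classical
  -- a bijection for every pair of vertices
  have h1 : ∀ s : Sym2 V, ∃ g : E → ℕ, (∀ e ∈ F, G.ends e = s → ∀ x y, s = s(x, y) →
      g e ∈ φ x y) ∧ ∀ e ∈ F, ∀ f ∈ F, G.ends e = s → G.ends f = s → g e = g f → e = f := by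
    intro s
    induction s using Sym2.ind with
    | _ x y =>
      have hc : #{e ∈ F | G.ends e = s(x, y)} = #(φ x y) :=
        (h.card x (mem_univ x) y (mem_univ y)).symm
      let eq := Finset.equivOfCardEq hc
      refine ⟨fun e => if he : e ∈ ({e ∈ F | G.ends e = s(x, y)} : Finset E) then
        (eq ⟨e, he⟩ : ℕ) else 0, ?_, ?_⟩
      · intro e he hee x' y' hs
        have he' : e ∈ ({e ∈ F | G.ends e = s(x, y)} : Finset E) := Finset.mem_filter.2 ⟨he, hee⟩
        simp only [dif_pos he']
        have h2 : ((eq ⟨e, he'⟩ : _) : ℕ) ∈ φ x y := (eq ⟨e, he'⟩).2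
        rcases Sym2.eq_iff.1 hs with ⟨h3, h4⟩ | ⟨h3, h4⟩
        · rw [← h3, ← h4]; exact h2
        · rw [← h3, ← h4, h.symm]; exact h2
      · intro e he f hf hee hff hef
        have he' : e ∈ ({e ∈ F | G.ends e = s(x, y)} : Finset E) := Finset.mem_filter.2 ⟨he, hee⟩
        have hf' : f ∈ ({e ∈ F | G.ends e = s(x, y)} : Finset E) := Finset.mem_filter.2 ⟨hf, hff⟩
        simp only [dif_pos he', dif_pos hf'] at hef
        have h3 := eq.injective (Subtype.ext hef)
        exact congrArg Subtype.val h3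
  choose g hg1 hg2 using h1
  refine ⟨fun e => g (G.ends e) e, ?_, ?_⟩
  · intro e he
    obtain ⟨a, b, -, hab⟩ := ex_ends G e
    have h2 := hg1 (G.ends e) e he rfl a b hab
    exact Finset.mem_range.1 (h.sub a (mem_univ a) b (mem_univ b) h2)
  · intro e he f hf v hve hvf hef
    have h3 : G.ends e = s(v, Sym2.Mem.other hve) := (Sym2.other_spec hve).symm
    have h4 : G.ends f = s(v, Sym2.Mem.other hvf) := (Sym2.other_spec hvf).symm
    have h5 := hg1 (G.ends e) e he rfl _ _ h3
    have h6 := hg1 (G.ends f) f hf rfl _ _ h4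
    by_cases h7 : Sym2.Mem.other hve = Sym2.Mem.other hvf
    · have h8 : G.ends f = G.ends e := by rw [h4, ← h7, ← h3]
      refine hg2 (G.ends e) e he f hf rfl h8 ?_
      have h9 : g (G.ends e) e = g (G.ends f) f := hef
      rw [h9, h8]
    · exfalso
      have h8 := h.disj v (mem_univ v) _ (mem_univ _) _ (mem_univ _) h7
      refine Finset.disjoint_left.1 h8 h5 ?_
      have h9 : g (G.ends e) e = g (G.ends f) f := hef
      rw [h9]
      exact h6

/-- The necessary conditions suffice for every set of edges whose underlying graph lies in a graph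
with an elimination order of width two. -/
theorem sp_col_on (G : Mg V E) (F : Finset E) {r : V → ℕ} {H : V → V → Prop} (hT : TT r H)
    (hF : ∀ e ∈ F, ∀ x y, G.ends e = s(x, y) → H x y) (k : ℕ) (hg : G.Good F k) :
    G.EdgeCol F k := by
  obtain ⟨φ, hφ⟩ := sp_col hT #(univ : Finset V) univ (mult G F) rfl mult_symm mult_diag
    (by
      intro x _ y _ h
      unfold mult at h
      rw [Finset.card_ne_zero] at h
      obtain ⟨e, he⟩ := h
      obtain ⟨h1, h2⟩ := Finset.mem_filter.1 he
      exact hF e h1 x y h2) (good_mult hg)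
  exact col_mult hφ

end Pool.Agent.MP27a405.SP
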