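import Pool.Agent.MP27a405.OB
import Pool.Agent.MP27a405.OC
import Pool.Agent.MP27a405.SPE

/-!
# MP_27a405_co: multigraphs of order at most 8, part D: the induction
-/

namespace Pool.Agent.MP27a405.SP

open Finset

set_option linter.unusedSectionVars false

variable {V : Type} [DecidableEq V] {U S T : Finset V} {μ ν : V → V → ℕ} {k : ℕ}

theorem col_le {φ : V → V → Finset ℕ} (hs : ∀ x y, μ x y = μ y x) (hle : ∀ x y, μ x y ≤ ν x y)
    (h : Col U ν k φ) : ∃ φ, Col U μ k φ := by
  have h1 : ∀ s : Sym2 V, ∃ A : Finset ℕ, ∀ x y, s = s(x, y) → x ∈ U → y ∈ U →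
      A ⊆ φ x y ∧ #A = μ x y := by
    intro s
    induction s using Sym2.ind with
    | _ x y =>
      by_cases hxy : x ∈ U ∧ y ∈ U
      · obtain ⟨A, hA, hAc⟩ := exSub (A := φ x y) (n := μ x y) (by
          rw [h.card x hxy.1 y hxy.2]; exact hle x y)
        refine ⟨A, fun x' y' hs' _ _ => ?_⟩
        rcases Sym2.eq_iff.1 hs' with ⟨h3, h4⟩ | ⟨h3, h4⟩
        · rw [← h3, ← h4]; exact ⟨hA, hAc⟩
        · rw [← h3, ← h4, h.symm, hs]; exact ⟨hA, hAc⟩
      · refine ⟨∅, fun x' y' hs' hx' hy' => ?_⟩
        exfalso
        rcases Sym2.eq_iff.1 hs' with ⟨h3, h4⟩ | ⟨h3, h4⟩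
        · exact hxy ⟨h3 ▸ hx', h4 ▸ hy'⟩
        · exact hxy ⟨h3 ▸ hy', h4 ▸ hx'⟩
  choose A hA using h1
  refine ⟨fun x y => A s(x, y), ?_, ?_, ?_, ?_⟩
  · intro x y
    show A s(x, y) = A s(y, x)
    rw [Sym2.eq_swap]
  · intro x hx y hy
    exact (hA _ x y rfl hx hy).2
  · intro x hx y hy
    exact (hA _ x y rfl hx hy).1.trans (h.sub x hx y hy)
  · intro x hx y hy z hz hyz
    exact Disjoint.mono (hA _ x y rfl hx hy).1 (hA _ x z rfl hx hz).1 (h.disj x hx y hy z hz hyz)

/-- The number of vertices of `S` whose partner is outside `S`. -/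
theorem out_le {m : V → V} (hm : ∀ x ∈ U, m x ∈ U ∧ m (m x) = x) (hS : S ⊆ U) :
    #(S.filter fun x => m x ∉ S) ≤ #(U \ S) := by
  refine Finset.card_le_card_of_injOn m ?_ ?_
  · intro x hx
    obtain ⟨h1, h2⟩ := Finset.mem_filter.1 (Finset.mem_coe.1 hx)
    exact Finset.mem_coe.2 (Finset.mem_sdiff.2 ⟨(hm x (hS h1)).1, h2⟩)
  · intro x hx y hy hxy
    have h1 := (hm x (hS (Finset.mem_filter.1 (Finset.mem_coe.1 hx)).1)).2
    have h2 := (hm y (hS (Finset.mem_filter.1 (Finset.mem_coe.1 hy)).1)).2
    rw [← h1, ← h2, hxy]

/-- Removing a perfect matching. -/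
def rm (ν : V → V → ℕ) (U : Finset V) (m : V → V) (x y : V) : ℕ :=
  ν x y - (if x ∈ U ∧ y = m x then 1 else 0)

theorem rm_symm (hs : ∀ x y, ν x y = ν y x) {m : V → V}
    (hm : ∀ x ∈ U, m x ∈ U ∧ m (m x) = x) (x y : V) : rm ν U m x y = rm ν U m y x := by
  unfold rm
  have h : (x ∈ U ∧ y = m x) ↔ (y ∈ U ∧ x = m y) := by
    constructor
    · rintro ⟨h1, h2⟩
      rw [h2]
      exact ⟨(hm x h1).1, (hm x h1).2.symm⟩
    · rintro ⟨h1, h2⟩
      rw [h2]
      exact ⟨(hm y h1).1, (hm y h1).2.symm⟩
  rw [hs x y, if_congr h rfl rfl]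

theorem rm_add {m : V → V} (hm0 : ∀ x ∈ U, ν x (m x) ≠ 0) (x y : V) :
    rm ν U m x y + (if x ∈ U ∧ y = m x then 1 else 0) = ν x y := by
  unfold rm
  by_cases h : x ∈ U ∧ y = m x
  · rw [if_pos h]
    have h1 := hm0 x h.1
    rw [← h.2] at h1
    omega
  · rw [if_neg h]
    omega

theorem rm_dgs {m : V → V} (hm0 : ∀ x ∈ U, ν x (m x) ≠ 0) {x : V} (hx : x ∈ U) (T : Finset V) :
    dgs (rm ν U m) T x + (if m x ∈ T then 1 else 0) = dgs ν T x := by
  unfold dgs
  have h : ∀ y ∈ T, ν x y = rm ν U m x y + (if y = m x then 1 else 0) := by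
    intro y _
    rw [← rm_add hm0 x y]
    simp [hx]
  rw [Finset.sum_congr rfl h, Finset.sum_add_distrib, Finset.sum_ite_eq']

theorem rm_ein {m : V → V} (hm0 : ∀ x ∈ U, ν x (m x) ≠ 0) (hS : S ⊆ U) :
    ein (rm ν U m) S + #(S.filter fun x => m x ∈ S) = ein ν S := by
  unfold ein
  rw [Finset.card_filter, ← Finset.sum_add_distrib]
  exact Finset.sum_congr rfl fun x hx => rm_dgs hm0 (hS hx) S

/-- Colouring after removing a perfect matching. -/
theorem col_rm {m : V → V} (hm : ∀ x ∈ U, m x ∈ U ∧ m (m x) = x) (hm0 : ∀ x ∈ U, ν x (m x) ≠ 0)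
    {φ : V → V → Finset ℕ} (h : Col U (rm ν U m) k φ) : ∃ φ, Col U ν (k + 1) φ := by
  have hk : ∀ x ∈ U, ∀ y ∈ U, k ∉ φ x y := fun x hx y hy h' =>
    absurd (h.sub x hx y hy h') Finset.notMem_range_self
  have hiff : ∀ x y, (x ∈ U ∧ y = m x) ↔ (y ∈ U ∧ x = m y) := by
    intro x y
    constructor
    · rintro ⟨h1, h2⟩
      rw [h2]
      exact ⟨(hm x h1).1, (hm x h1).2.symm⟩
    · rintro ⟨h1, h2⟩
      rw [h2]
      exact ⟨(hm y h1).1, (hm y h1).2.symm⟩
  refine ⟨fun x y => if x ∈ U ∧ y = m x then insert k (φ x y) else φ x y, ?_, ?_, ?_, ?_⟩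
  · intro x y
    by_cases h1 : x ∈ U ∧ y = m x
    · simp only [if_pos h1, if_pos ((hiff x y).1 h1)]
      rw [h.symm]
    · simp only [if_neg h1, if_neg (fun h' => h1 ((hiff x y).2 h'))]
      exact h.symm x y
  · intro x hx y hy
    rw [← rm_add hm0 x y]
    by_cases h1 : x ∈ U ∧ y = m x
    · simp only [if_pos h1]
      rw [Finset.card_insert_of_notMem (hk x hx y hy), h.card x hx y hy]
    · simp only [if_neg h1]
      rw [h.card x hx y hy, Nat.add_zero]
  · intro x hx y hy
    have h2 : φ x y ⊆ range (k + 1) :=
      (h.sub x hx y hy).trans (Finset.range_subset_range.2 (Nat.le_succ k))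
    by_cases h1 : x ∈ U ∧ y = m x
    · simp only [if_pos h1]
      exact Finset.insert_subset (Finset.self_mem_range_succ k) h2
    · simp only [if_neg h1]
      exact h2
  · intro x hx y hy z hz hyz
    have h0 := h.disj x hx y hy z hz hyz
    by_cases h1 : x ∈ U ∧ y = m x
    · have h2 : ¬(x ∈ U ∧ z = m x) := fun h' => hyz (h1.2.trans h'.2.symm)
      simp only [if_pos h1, if_neg h2]
      rw [Finset.disjoint_insert_left]
      exact ⟨hk x hx z hz, h0⟩
    · by_cases h2 : x ∈ U ∧ z = m x
      · simp only [if_neg h1, if_pos h2]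
        rw [Finset.disjoint_insert_right]
        exact ⟨hk x hx y hy, h0⟩
      · simp only [if_neg h1, if_neg h2]
        exact h0

/-- All multigraphs of even order at most 8. -/
theorem ord8_even : ∀ (n : ℕ), n ≤ 8 → Even n → ∀ (k : ℕ) (U : Finset V) (μ : V → V → ℕ),
    #U = n → (∀ x y, μ x y = μ y x) → (∀ x, μ x x = 0) → GoodOn U μ k → ∃ φ, Col U μ k φ := by
  intro n
  induction n using Nat.strong_induction_on with
  | _ n ih =>
    intro hn8 hne k
    induction k with
    | zero =>
      intro U μ _ _ _ hG
      refine ⟨fun _ _ => ∅, fun _ _ => rfl, ?_, ?_, ?_⟩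
      · intro x hx y hy
        have h1 := hG.deg x hx
        have h2 : μ x y ≤ dgs μ U x := by
          unfold dgs
          exact Finset.single_le_sum (f := μ x) (fun _ _ => Nat.zero_le _) hy
        rw [Finset.card_empty]
        omega
      · intro x _ y _
        exact Finset.empty_subset _
      · intro x _ y _ z _ _
        exact Finset.disjoint_empty_left _
    | succ k ihk =>
      intro U μ hUn hs0 hd0 hG0
      have hUe : Even #U := by rw [hUn]; exact hne
      obtain ⟨ν, hs, hd, hle, hG, hreg⟩ := regularise (k := k + 1) hUe _ μ rfl hs0 hd0 hG0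
      suffices h : ∃ φ, Col U ν (k + 1) φ by
        obtain ⟨φ, hφ⟩ := h
        exact col_le hs0 hle hφ
      by_cases htight : ∃ S ⊆ U, Odd #S ∧ 3 ≤ #S ∧ 3 ≤ #(U \ S) ∧
          ein ν S + (k + 1) = (k + 1) * #S
      · -- decomposition along a tight cut
        obtain ⟨S, hS, ho, h3, h3', ht⟩ := htight
        have hcU : #S + #(U \ S) = #U := by
          rw [add_comm]
          exact Finset.card_sdiff_add_card_eq_card hS
        have hoc : Odd #(U \ S) := by
          rw [← hcU, Nat.even_add'] at hUe
          exact hUe.1 ho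
        obtain ⟨s, hs'⟩ : S.Nonempty := by rw [← Finset.card_pos]; omega
        obtain ⟨t, ht'⟩ : (U \ S).Nonempty := by rw [← Finset.card_pos]; omega
        have hdis : Disjoint S (U \ S) := Finset.disjoint_sdiff
        have hUS : U = S ∪ (U \ S) := (Finset.union_sdiff_of_subset hS).symm
        -- the complement is tight
        have hT : ein ν (U \ S) + (k + 1) = (k + 1) * #(U \ S) := by
          have h4 : ex ν S U = (k + 1) * #S := by
            unfold ex
            rw [Finset.sum_congr rfl (fun x hx => hreg x (hS hx)), Finset.sum_const,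
              smul_eq_mul, mul_comm]
          have h5 : ex ν (U \ S) U = (k + 1) * #(U \ S) := by
            unfold ex
            rw [Finset.sum_congr rfl (fun x hx => hreg x (Finset.mem_sdiff.1 hx).1),
              Finset.sum_const, smul_eq_mul, mul_comm]
          have h6 := ex_union_right (μ := ν) hdis S
          have h7 := ex_union_right (μ := ν) hdis (U \ S)
          rw [← hUS] at h6 h7
          rw [← ein_eq] at h6
          rw [← ein_eq (μ := ν) (U \ S)] at h7
          have h8 := ex_comm (μ := ν) hs S (U \ S)
          omega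
        have hsT : s ∉ U \ S := fun h => (Finset.mem_sdiff.1 h).2 hs'
        have htS : t ∉ S := (Finset.mem_sdiff.1 ht').2
        have hUU : U \ (U \ S) = S := by
          rw [Finset.sdiff_sdiff_eq_self hS]
        obtain ⟨φ₁, c1⟩ := ih (#(U \ S) + 1) (by omega) (by omega) hoc.add_one (k + 1)
          (insert s (U \ S)) (ctr ν S s) (Finset.card_insert_of_notMem hsT) (ctr_symm hs s)
          (ctr_diag hd s) (good_ctr hs hd hG hreg hS ho ht hs')
        have hg2 := good_ctr hs hd hG hreg Finset.sdiff_subset hoc hT ht'
        rw [hUU] at hg2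
        obtain ⟨φ₂, c2⟩ := ih (#S + 1) (by omega) (by omega) ho.add_one (k + 1)
          (insert t S) (ctr ν (U \ S) t) (Finset.card_insert_of_notMem htS) (ctr_symm hs t)
          (ctr_diag hd t) hg2
        exact merge hs hs' ht' c1 c2
      · -- removing a perfect matching
        push Not at htight
        obtain ⟨m, hm3⟩ := perfect hs hd (Nat.succ_pos k) hG hreg
        have hm : ∀ x ∈ U, m x ∈ U ∧ m (m x) = x := fun x hx => ⟨(hm3 x hx).1, (hm3 x hx).2.1⟩
        have hm0 : ∀ x ∈ U, ν x (m x) ≠ 0 := fun x hx => (hm3 x hx).2.2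
        have hmx : ∀ x ∈ U, m x ≠ x := fun x hx h => hm0 x hx (by rw [h]; exact hd x)
        have hG' : GoodOn U (rm ν U m) k := by
          refine ⟨fun x hx => ?_, fun S hS ho => ?_⟩
          · have h1 := rm_dgs hm0 hx U
            rw [if_pos (hm x hx).1, hreg x hx] at h1
            omega
          · have h1 := rm_ein hm0 hS
            have h2 : #(S.filter fun x => m x ∈ S) + #(S.filter fun x => m x ∉ S) = #S :=
              Finset.card_filter_add_card_filter_not (s := S) (fun x => m x ∈ S)
            have h3 := out_le hm hS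
            have hcU : #S + #(U \ S) = #U := by
              rw [add_comm]
              exact Finset.card_sdiff_add_card_eq_card hS
            have hoc : Odd #(U \ S) := by
              rw [← hcU, Nat.even_add'] at hUe
              exact hUe.1 ho
            have h4 := hG.odd S hS ho
            have e1 : (k + 1) * #S = k * #S + #S := by ring
            rw [e1] at h4
            by_cases h5 : #S = 1
            · obtain ⟨x, hx⟩ := Finset.card_eq_one.1 h5
              have h6 : ein ν S = 0 := by
                rw [hx]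
                unfold ein dgs
                simp [hd]
              rw [h5]
              omega
            · have h6 : 3 ≤ #S := by
                obtain ⟨a, ha⟩ := ho
                omega
              by_cases h7 : #(U \ S) = 1
              · omega
              · have h8 : 3 ≤ #(U \ S) := by
                  obtain ⟨a, ha⟩ := hoc
                  omega
                have h9 := htight S hS ho h6 h8
                rw [e1] at h9
                -- parity
                have hev := ein_even hs hd S
                have hev2 : Even (k * #S + #S + (k + 1)) := by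
                  have : k * #S + #S + (k + 1) = (k + 1) * (#S + 1) := by ring
                  rw [this]
                  exact (ho.add_one).mul_left (k + 1)
                have h10 : ein ν S + (k + 1) + 2 ≤ k * #S + #S := by
                  obtain ⟨p, hp⟩ := hev
                  obtain ⟨q, hq⟩ := hev2
                  omega
                have h11 : #(S.filter fun x => m x ∉ S) ≤ 3 := by
                  have h12 : #(S.filter fun x => m x ∉ S) ≤ #S := Finset.card_filter_le _ _
                  obtain ⟨a, ha⟩ := ho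
                  omega
                omega
        obtain ⟨φ, hφ⟩ := ihk U (rm ν U m) hUn (rm_symm hs hm)
          (fun x => by
            unfold rm
            rw [hd x]
            omega) hG'
        exact col_rm hm hm0 hφ

/-- All multigraphs of order at most 8. -/
theorem ord8 (hs : ∀ x y, μ x y = μ y x) (hd : ∀ x, μ x x = 0) (hU : #U ≤ 8)
    (hG : GoodOn U μ k) : ∃ φ, Col U μ k φ := by
  rcases Nat.even_or_odd #U with he | ho
  · exact ord8_even #U hU he k U μ rfl hs hd hG
  · obtain ⟨μ', hμ'⟩ : ∃ μ' : Option V → Option V → ℕ, μ' = fun a b =>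
        a.elim 0 (fun x => b.elim 0 (fun y => μ x y)) := ⟨_, rfl⟩
    have m1 : ∀ x y, μ' (some x) (some y) = μ x y := fun x y => by rw [hμ']; rfl
    have m2 : ∀ a, μ' none a = 0 := fun a => by rw [hμ']; rfl
    have m3 : ∀ a, μ' a none = 0 := fun a => by
      rw [hμ']
      cases a with
      | none => rfl
      | some x => rfl
    have hs' : ∀ a b, μ' a b = μ' b a := by
      intro a b
      cases a with
      | none => rw [m2, m3]
      | some x =>
        cases b with
        | none => rw [m2, m3]
        | some y => rw [m1, m1, hs]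
    have hd' : ∀ a, μ' a a = 0 := by
      intro a
      cases a with
      | none => exact m2 _
      | some x => rw [m1, hd]
    have hdg : ∀ (T : Finset V) (x : V), dgs μ' (T.map Function.Embedding.some) (some x) =
        dgs μ T x := by
      intro T x
      unfold dgs
      rw [Finset.sum_map]
      exact Finset.sum_congr rfl fun y _ => m1 x y
    have hei : ∀ T : Finset V, ein μ' (T.map Function.Embedding.some) = ein μ T := by
      intro T
      unfold ein
      rw [Finset.sum_map]
      exact Finset.sum_congr rfl fun x _ => hdg T x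
    have hsub : ∀ R : Finset (Option V), R ⊆ U.map Function.Embedding.some →
        ∃ T ⊆ U, R = T.map Function.Embedding.some := by
      intro R hR
      refine ⟨U.filter fun x => some x ∈ R, Finset.filter_subset _ _, ?_⟩
      ext a
      constructor
      · intro ha
        obtain ⟨x, hx, hxa⟩ := Finset.mem_map.1 (hR ha)
        have hxa' : some x = a := hxa
        refine Finset.mem_map.2 ⟨x, Finset.mem_filter.2 ⟨hx, ?_⟩, hxa⟩
        rw [hxa']
        exact ha
      · intro ha
        obtain ⟨x, hx, hxa⟩ := Finset.mem_map.1 ha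
        have hxa' : some x = a := hxa
        rw [← hxa']
        exact (Finset.mem_filter.1 hx).2
    have hG1 : GoodOn (U.map Function.Embedding.some) μ' k := by
      refine ⟨?_, ?_⟩
      · intro a ha
        obtain ⟨x, hx, hxa⟩ := Finset.mem_map.1 ha
        have hxa' : some x = a := hxa
        rw [← hxa', hdg]
        exact hG.deg x hx
      · intro R hR hoR
        obtain ⟨T, hT, rfl⟩ := hsub R hR
        rw [Finset.card_map] at hoR ⊢
        rw [hei]
        exact hG.odd T hT hoR
    have hnone : none ∉ U.map Function.Embedding.some := by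
      intro h
      obtain ⟨x, -, hx⟩ := Finset.mem_map.1 h
      exact Option.some_ne_none x hx
    have hz : ∀ T : Finset (Option V), dgs μ' T none = 0 := by
      intro T
      unfold dgs
      exact Finset.sum_eq_zero fun a _ => m2 a
    have hG2 : GoodOn (insert none (U.map Function.Embedding.some)) μ' k := by
      refine ⟨?_, ?_⟩
      · intro a ha
        rcases Finset.mem_insert.1 ha with h | h
        · rw [h, hz]
          exact Nat.zero_le _
        · rw [dgs_insert hnone, m3, Nat.zero_add]
          exact hG1.deg a h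
      · intro R hR hoR
        by_cases hn : none ∈ R
        · obtain ⟨R', hR'⟩ : ∃ R', R' = R.erase none := ⟨_, rfl⟩
          have hnR' : none ∉ R' := by rw [hR']; exact Finset.notMem_erase _ R
          have hRR : R = insert none R' := by rw [hR', Finset.insert_erase hn]
          have hR'U : R' ⊆ U.map Function.Embedding.some := by
            intro w hw
            have hw' : w ∈ R := by rw [hRR]; exact Finset.mem_insert_of_mem hw
            rcases Finset.mem_insert.1 (hR hw') with h | h
            · exact absurd (h ▸ hw) hnR'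
            · exact h
          have hc : #R = #R' + 1 := by rw [hRR, Finset.card_insert_of_notMem hnR']
          have he' : Even #R' := by
            rw [hc, Nat.odd_add_one, Nat.not_odd_iff_even] at hoR
            exact hoR
          have h1 := even_bd0 hs' hd' hG1 hR'U he'
          rw [hRR, ein_insert hs' hd' hnR', hz, Finset.card_insert_of_notMem hnR']
          have e : k * (#R' + 1) = k * #R' + k := by ring
          rw [e]
          omega
        · refine hG1.odd R ?_ hoR
          intro w hw
          rcases Finset.mem_insert.1 (hR hw) with h | h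
          · exact absurd (h ▸ hw) hn
          · exact h
    have hc : #(insert none (U.map Function.Embedding.some)) = #U + 1 := by
      rw [Finset.card_insert_of_notMem hnone, Finset.card_map]
    have h8 : #U + 1 ≤ 8 := by
      obtain ⟨a, ha⟩ := ho
      omega
    obtain ⟨φ, hφ⟩ := ord8_even (#U + 1) h8 ho.add_one k _ μ' hc hs' hd' hG2
    have hin : ∀ x ∈ U, some x ∈ insert none (U.map Function.Embedding.some) := fun x hx =>
      Finset.mem_insert_of_mem (Finset.mem_map.2 ⟨x, hx, rfl⟩)
    refine ⟨fun x y => φ (some x) (some y), fun x y => hφ.symm _ _, ?_, ?_, ?_⟩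
    · intro x hx y hy
      show #(φ (some x) (some y)) = μ x y
      rw [hφ.card _ (hin x hx) _ (hin y hy), m1]
    · intro x hx y hy
      exact hφ.sub _ (hin x hx) _ (hin y hy)
    · intro x hx y hy z hz' hyz
      exact hφ.disj _ (hin x hx) _ (hin y hy) _ (hin z hz') (fun h => hyz (Option.some.inj h))

section edges

variable {W E : Type} [Fintype W] [DecidableEq W] [Fintype E] [DecidableEq E]

/-- The necessary conditions suffice for every set of edges with at most 8 ends. -/
theorem ord8_on (G : Mg W E) (F : Finset E)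
    (hF : #(univ.filter fun v => ∃ e ∈ F, v ∈ G.ends e) ≤ 8) (k : ℕ) (hg : G.Good F k) :
    G.EdgeCol F k := by
  obtain ⟨X, hX⟩ : ∃ X : Finset W, X = univ.filter fun v => ∃ e ∈ F, v ∈ G.ends e := ⟨_, rfl⟩
  rw [← hX] at hF
  have hXm : ∀ v, v ∉ X → ∀ y, mult G F v y = 0 := by
    intro v hv y
    unfold mult
    rw [Finset.card_eq_zero, Finset.filter_eq_empty_iff]
    intro e he h
    apply hv
    rw [hX, Finset.mem_filter]
    exact ⟨Finset.mem_univ _, e, he, by rw [h]; exact Sym2.mem_mk_left v y⟩
  obtain ⟨φ, hφ⟩ := ord8 (μ := mult G F) mult_symm mult_diag hF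
    ((good_mult hg).mono (Finset.subset_univ X))
  refine col_mult (φ := fun x y => if x ∈ X ∧ y ∈ X then φ x y else ∅) ⟨?_, ?_, ?_, ?_⟩
  · intro x y
    by_cases h : x ∈ X ∧ y ∈ X
    · simp only [if_pos h, if_pos h.symm]
      exact hφ.symm x y
    · simp only [if_neg h, if_neg (fun h' : y ∈ X ∧ x ∈ X => h h'.symm)]
  · intro x _ y _
    by_cases h : x ∈ X ∧ y ∈ X
    · simp only [if_pos h]
      exact hφ.card x h.1 y h.2
    · simp only [if_neg h]
      rw [Finset.card_empty]
      rcases not_and_or.1 h with h' | h'
      · exact (hXm x h' y).symm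
      · rw [mult_symm]
        exact (hXm y h' x).symm
  · intro x _ y _
    by_cases h : x ∈ X ∧ y ∈ X
    · simp only [if_pos h]
      exact hφ.sub x h.1 y h.2
    · simp only [if_neg h]
      exact Finset.empty_subset _
  · intro x _ y _ z _ hyz
    by_cases h : x ∈ X ∧ y ∈ X
    · by_cases h' : x ∈ X ∧ z ∈ X
      · simp only [if_pos h, if_pos h']
        exact hφ.disj x h.1 y h.2 z h'.2 hyz
      · simp only [if_neg h']
        exact Finset.disjoint_empty_right _
    · simp only [if_neg h]
      exact Finset.disjoint_empty_left _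

end edges

end Pool.Agent.MP27a405.SP
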