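import Pool.Agent.MP27a405.Kap
import Pool.Agent.MP27a405.NB
import Pool.Agent.MP27a405.Glue
import Pool.Agent.MP27a405.SPE
import Pool.Agent.MP27a405.OD

/-!
# MP_27a405_co: the classes of multigraphs
-/

namespace Pool.Agent.MP27a405

open Finset

namespace Mg

variable {V E : Type} [Fintype V] [DecidableEq V] [Fintype E] [DecidableEq E]

/-- The multigraph `(V, F)` is nearly bipartite: for some vertex `x` all edges of `F` which are not
at `x` join the two classes of a bipartition of `V`. -/
def NearlyBipartiteOn (G : Mg V E) (F : Finset E) : Prop :=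
  ∃ (x : V) (p : V → Bool), ∀ e ∈ F, x ∉ G.ends e → ∀ u ∈ G.ends e, ∀ v ∈ G.ends e,
    u ≠ v → p u ≠ p v

/-- The multigraph `(V, F)` is series-parallel (a subgraph of a `2`-tree): its edges lie in a graph `H`
with an elimination order `r` such that the later neighbours of every vertex are adjacent to each
other, and there are at most two of them. -/
def SeriesParallelOn (G : Mg V E) (F : Finset E) : Prop :=
  ∃ (r : V → ℕ) (H : V → V → Prop), Function.Injective r ∧ (∀ x y, H x y → H y x) ∧
    (∀ v x y, r v < r x → r v < r y → x ≠ y → H v x → H v y → H x y) ∧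
    (∀ v x y z, r v < r x → r v < r y → r v < r z → H v x → H v y → H v z →
      x = y ∨ x = z ∨ y = z) ∧
    ∀ e ∈ F, ∀ x y, G.ends e = s(x, y) → H x y

/-- Repeated gluing at single vertices of parts with at most 8 vertices, of nearly bipartite parts
and of series-parallel parts. -/
inductive GluedOn (G : Mg V E) : Finset E → Prop
  | small {F : Finset E} : #(univ.filter fun v => ∃ e ∈ F, v ∈ G.ends e) ≤ 8 → GluedOn G F
  | near {F : Finset E} : G.NearlyBipartiteOn F → GluedOn G F
  | sp {F : Finset E} : G.SeriesParallelOn F → GluedOn G F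
  | glue {F₁ F₂ : Finset E} (v : V) : GluedOn G F₁ → GluedOn G F₂ →
      (∀ e ∈ F₁, ∀ f ∈ F₂, ∀ w, w ∈ G.ends e → w ∈ G.ends f → w = v) → GluedOn G (F₁ ∪ F₂)

theorem glued_col (G : Mg V E) {F : Finset E} (h : G.GluedOn F) :
    ∀ (k : ℕ) (H : Finset E), H ⊆ F → G.Good H k → G.EdgeCol H k := by
  induction h with
  | small h =>
    intro k H hH hg
    refine SP.ord8_on G H (le_trans (Finset.card_le_card ?_) h) k hg
    intro v hv
    obtain ⟨e, he, hve⟩ := (Finset.mem_filter.1 hv).2
    exact Finset.mem_filter.2 ⟨Finset.mem_univ _, e, hH he, hve⟩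
  | near h =>
    intro k H hH hg
    obtain ⟨x, p, hp⟩ := h
    exact nb_col_on G H x p (fun e he => hp e (hH he)) k hg
  | sp h =>
    intro k H hH hg
    obtain ⟨r, A, h1, h2, h3, h4, h5⟩ := h
    exact SP.sp_col_on G H ⟨h1, h2, h3, h4⟩ (fun e he => h5 e (hH he)) k hg
  | @glue F₁ F₂ v _ _ hv ih1 ih2 =>
    intro k H hH hg
    have hU : H = (H ∩ F₁) ∪ (H ∩ F₂) := by
      rw [← Finset.inter_union_distrib_left, Finset.inter_eq_left.2 hH]
    have e1 := ih1 k (H ∩ F₁) Finset.inter_subset_right
      (G.good_mono Finset.inter_subset_left hg)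
    have e2 := ih2 k (H ∩ F₂) Finset.inter_subset_right
      (G.good_mono Finset.inter_subset_left hg)
    rw [hU]
    refine G.glue v (fun e he f hf => hv e (Finset.mem_inter.1 he).2 f (Finset.mem_inter.1 hf).2)
      ?_ e1 e2
    rw [← hU]
    exact hg.1 v

end Mg

end Pool.Agent.MP27a405
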