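import Pool.Agent.MP27a405.Transfer

/-!
# MP_27a405_co: the exact formula `κ = min (δ, t^*)` for a class with the exact formula for the
chromatic index
-/

namespace Pool.Agent.MP27a405

open Finset

namespace Mg

set_option linter.unusedSectionVars false

variable {V E : Type} [Fintype V] [DecidableEq V] [Fintype E] [DecidableEq E] (G : Mg V E)

theorem covers_le_deg {k : ℕ} (h : G.Covers k) (v : V) : k ≤ G.deg univ v := by
  obtain ⟨σ, hσ⟩ := h
  choose f hf using hσ v
  have hinj : Function.Injective f := by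
    intro i j hij
    rw [← (hf i).2, ← (hf j).2, hij]
  have h1 : #(univ.image f : Finset E) = k := by
    rw [Finset.card_image_of_injective _ hinj, Finset.card_univ, Fintype.card_fin]
  rw [← h1]
  refine Finset.card_le_card ?_
  intro e he
  obtain ⟨i, _, rfl⟩ := Finset.mem_image.1 he
  simp [(hf i).1]

theorem covers_le_touch {k : ℕ} (h : G.Covers k) {r : ℕ} {S : Finset V} (hS : #S = 2 * r + 1) :
    k * (r + 1) ≤ #(G.touch S) := by
  classical
  obtain ⟨σ, hσ⟩ := h
  have h1 : #(G.touch S) = ∑ i : Fin k, #{e ∈ G.touch S | σ e = i} :=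
    Finset.card_eq_sum_card_fiberwise fun e _ => Finset.mem_univ _
  have h2 : ∀ i : Fin k, r + 1 ≤ #{e ∈ G.touch S | σ e = i} := by
    intro i
    have h3 : S ⊆ ({e ∈ G.touch S | σ e = i} : Finset E).biUnion
        (fun e => {w ∈ S | w ∈ G.ends e}) := by
      intro v hv
      obtain ⟨e, he, hei⟩ := hσ v i
      simp only [touch, mem_biUnion, mem_filter, mem_univ, true_and]
      exact ⟨e, ⟨⟨v, he, hv⟩, hei⟩, hv, he⟩
    have h4 := Finset.card_le_card h3
    have h5 : #(({e ∈ G.touch S | σ e = i} : Finset E).biUnion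
        (fun e => {w ∈ S | w ∈ G.ends e})) ≤ #{e ∈ G.touch S | σ e = i} * 2 := by
      refine Finset.card_biUnion_le_card_mul _ _ _ fun e _ => ?_
      obtain ⟨a, b, hab, h⟩ := G.ex_ends e
      rw [G.card_ends e hab h]
      split_ifs <;> omega
    omega
  rw [h1]
  calc k * (r + 1) = ∑ _i : Fin k, (r + 1) := by simp
    _ ≤ _ := Finset.sum_le_sum fun i _ => h2 i

theorem minDeg_le (v : V) : G.minDeg ≤ G.deg univ v :=
  ciInf_le ⟨0, by rintro _ ⟨w, rfl⟩; exact Nat.zero_le _⟩ v

theorem covers_le_minDeg [Nonempty V] {k : ℕ} (h : G.Covers k) : k ≤ G.minDeg :=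
  le_ciInf fun v => G.covers_le_deg h v

theorem le_tstar_iff (k : ℕ) : (k : ℕ∞) ≤ G.tstar ↔
    ∀ r ≥ 1, ∀ S : Finset V, #S = 2 * r + 1 → k * (r + 1) ≤ #(G.touch S) := by
  unfold tstar
  simp only [le_iInf_iff, Nat.cast_le]
  constructor
  · intro h r hr S hS
    exact (Nat.le_div_iff_mul_le (Nat.succ_pos r)).1 (h r S hr hS)
  · intro h r S hr hS
    exact (Nat.le_div_iff_mul_le (Nat.succ_pos r)).2 (h r hr S hS)

theorem covers_bdd [Nonempty V] : BddAbove {k | G.Covers k} :=
  ⟨G.minDeg, fun _ hk => G.covers_le_minDeg hk⟩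

theorem kappa_spec [Nonempty V] : G.kappa = 0 ∨ G.Covers G.kappa := by
  by_cases h : {k | G.Covers k}.Nonempty
  · exact Or.inr (Nat.sSup_mem h G.covers_bdd)
  · left
    unfold kappa
    rw [Set.not_nonempty_iff_eq_empty.1 h]
    simp

theorem kappa_le [Nonempty V] : (G.kappa : ℕ∞) ≤ min (G.minDeg : ℕ∞) G.tstar := by
  rcases G.kappa_spec with h | h
  · rw [h]
    simp
  · refine le_min ?_ ?_
    · exact_mod_cast G.covers_le_minDeg h
    · rw [le_tstar_iff]
      intro r _ S hS
      exact G.covers_le_touch h hS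

/-- **The transfer theorem, exact form.**  If the exact formula for the chromatic index holds for
all submultigraphs of `G`, then `κ(G) = min (δ(G), t^*(G))`. -/
theorem kappa_eq [Nonempty V]
    (hcol : ∀ (k : ℕ) (F : Finset E), G.Good F k → G.EdgeCol F k) :
    (G.kappa : ℕ∞) = min (G.minDeg : ℕ∞) G.tstar := by
  refine le_antisymm G.kappa_le ?_
  obtain ⟨m, hm⟩ : ∃ m : ℕ, min (G.minDeg : ℕ∞) G.tstar = m := by
    have : min (G.minDeg : ℕ∞) G.tstar ≠ ⊤ := by
      intro h
      have h1 := min_le_left (G.minDeg : ℕ∞) G.tstar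
      rw [h, top_le_iff] at h1
      exact ENat.natCast_ne_top _ h1
    exact ⟨_, (ENat.natCast_toNat this).symm⟩
  rw [hm]
  have h1 : m ≤ G.minDeg := by
    have := min_le_left (G.minDeg : ℕ∞) G.tstar
    rw [hm] at this
    exact_mod_cast this
  have h2 : (m : ℕ∞) ≤ G.tstar := by
    rw [← hm]
    exact min_le_right _ _
  rcases Nat.eq_zero_or_pos m with h0 | hpos
  · rw [h0]
    simp
  · have h3 := G.transfer hpos (fun v => h1.trans (G.minDeg_le v)) ((G.le_tstar_iff m).1 h2)
      (hcol m)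
    have h4 : m ≤ G.kappa := le_csSup G.covers_bdd h3
    exact_mod_cast h4

end Mg

end Pool.Agent.MP27a405
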