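import Pool.Agent.MP27a405.SPC

/-!
# MP_27a405_co: multigraphs of order at most 8, part A: uncrossing and regularisation
-/

namespace Pool.Agent.MP27a405.SP

open Finset

set_option linter.unusedSectionVars false

variable {V : Type} [DecidableEq V]

variable {U S T : Finset V} {μ : V → V → ℕ} {k : ℕ}

/-- The number of edges between `S` and `T` (for disjoint `S`, `T`). -/
def ex (μ : V → V → ℕ) (S T : Finset V) : ℕ := ∑ x ∈ S, dgs μ T x

theorem ein_eq (S : Finset V) : ein μ S = ex μ S S := rfl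

theorem dgs_union {A B : Finset V} (h : Disjoint A B) (x : V) :
    dgs μ (A ∪ B) x = dgs μ A x + dgs μ B x := by
  unfold dgs
  rw [Finset.sum_union h]

theorem ex_union_left {A B : Finset V} (h : Disjoint A B) (T : Finset V) :
    ex μ (A ∪ B) T = ex μ A T + ex μ B T := by
  unfold ex
  rw [Finset.sum_union h]

theorem ex_union_right {A B : Finset V} (h : Disjoint A B) (T : Finset V) :
    ex μ T (A ∪ B) = ex μ T A + ex μ T B := by
  unfold ex
  rw [← Finset.sum_add_distrib]
  exact Finset.sum_congr rfl fun x _ => dgs_union h x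

theorem ex_comm (hs : ∀ x y, μ x y = μ y x) (S T : Finset V) : ex μ S T = ex μ T S := by
  unfold ex dgs
  rw [Finset.sum_comm]
  exact Finset.sum_congr rfl fun x _ => Finset.sum_congr rfl fun y _ => hs _ _

theorem ex_mono_right {A B : Finset V} (h : A ⊆ B) (T : Finset V) : ex μ T A ≤ ex μ T B :=
  Finset.sum_le_sum fun x _ => dgs_mono h x

theorem ein_union (hs : ∀ x y, μ x y = μ y x) {A B : Finset V} (h : Disjoint A B) :
    ein μ (A ∪ B) = ein μ A + ein μ B + 2 * ex μ A B := by
  rw [ein_eq, ein_eq, ein_eq, ex_union_left h, ex_union_right h, ex_union_right h,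
    ex_comm hs B A]
  ring

theorem ein_even (hs : ∀ x y, μ x y = μ y x) (hd : ∀ x, μ x x = 0) (S : Finset V) :
    Even (ein μ S) := by
  induction S using Finset.induction_on with
  | empty => simp [ein]
  | insert v S hv ih =>
    rw [ein_insert hs hd hv]
    exact ih.add (even_two_mul _)

/-- The three parts of two sets. -/
theorem parts (S S' : Finset V) : Disjoint (S \ S') (S' \ S) ∧ Disjoint (S \ S') (S ∩ S') ∧
    Disjoint (S' \ S) (S ∩ S') ∧ S = (S \ S') ∪ (S ∩ S') ∧ S' = (S' \ S) ∪ (S ∩ S') ∧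
    S ∪ S' = ((S \ S') ∪ (S' \ S)) ∪ (S ∩ S') := by
  refine ⟨?_, ?_, ?_, ?_, ?_, ?_⟩
  · rw [Finset.disjoint_left]
    intro x h1 h2
    exact (Finset.mem_sdiff.1 h2).2 (Finset.mem_sdiff.1 h1).1
  · rw [Finset.disjoint_left]
    intro x h1 h2
    exact (Finset.mem_sdiff.1 h1).2 (Finset.mem_inter.1 h2).2
  · rw [Finset.disjoint_left]
    intro x h1 h2
    exact (Finset.mem_sdiff.1 h1).2 (Finset.mem_inter.1 h2).1
  · rw [Finset.sdiff_union_inter]
  · rw [Finset.inter_comm, Finset.sdiff_union_inter]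
  · ext x
    simp only [Finset.mem_union, Finset.mem_sdiff, Finset.mem_inter]
    tauto

theorem super (hs : ∀ x y, μ x y = μ y x) (S S' : Finset V) :
    ein μ S + ein μ S' ≤ ein μ (S ∪ S') + ein μ (S ∩ S') := by
  obtain ⟨h1, h2, h3, h4, h5, h6⟩ := parts S S'
  have e1 : ein μ S = ein μ (S \ S') + ein μ (S ∩ S') + 2 * ex μ (S \ S') (S ∩ S') := by
    conv_lhs => rw [h4]
    exact ein_union hs h2
  have e2 : ein μ S' = ein μ (S' \ S) + ein μ (S ∩ S') + 2 * ex μ (S' \ S) (S ∩ S') := by
    conv_lhs => rw [h5]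
    exact ein_union hs h3
  have e3 : ein μ (S ∪ S') = ein μ (S \ S') + ein μ (S' \ S) + 2 * ex μ (S \ S') (S' \ S) +
      ein μ (S ∩ S') + 2 * (ex μ (S \ S') (S ∩ S') + ex μ (S' \ S) (S ∩ S')) := by
    conv_lhs => rw [h6]
    rw [ein_union hs (Finset.disjoint_union_left.2 ⟨h2, h3⟩), ein_union hs h1,
      ex_union_left h1]
  omega

theorem sub2 (hs : ∀ x y, μ x y = μ y x) {S S' : Finset V} (hS : S ⊆ U) (hS' : S' ⊆ U) :
    ein μ S + ein μ S' ≤ ein μ (S \ S') + ein μ (S' \ S) + 2 * ex μ (S ∩ S') U := by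
  obtain ⟨h1, h2, h3, h4, h5, h6⟩ := parts S S'
  have e1 : ein μ S = ein μ (S \ S') + ein μ (S ∩ S') + 2 * ex μ (S \ S') (S ∩ S') := by
    conv_lhs => rw [h4]
    exact ein_union hs h2
  have e2 : ein μ S' = ein μ (S' \ S) + ein μ (S ∩ S') + 2 * ex μ (S' \ S) (S ∩ S') := by
    conv_lhs => rw [h5]
    exact ein_union hs h3
  have e3 : ex μ (S ∩ S') (S ∪ S') = ex μ (S ∩ S') (S \ S') + ex μ (S ∩ S') (S' \ S) +
      ein μ (S ∩ S') := by
    conv_lhs => rw [h6]
    rw [ex_union_right (Finset.disjoint_union_left.2 ⟨h2, h3⟩), ex_union_right h1, ein_eq]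
  have e4 := ex_mono_right (μ := μ) (Finset.union_subset hS hS') (S ∩ S')
  rw [ex_comm hs (S \ S')] at e1
  rw [ex_comm hs (S' \ S)] at e2
  omega

/-- Tight sets through a deficient vertex are closed under unions. -/
theorem uncross (hs : ∀ x y, μ x y = μ y x) (hG : GoodOn U μ k) {S S' : Finset V} (hS : S ⊆ U)
    (hS' : S' ⊆ U) (ho : Odd #S) (ho' : Odd #S') (ht : ein μ S + k = k * #S)
    (ht' : ein μ S' + k = k * #S') {v : V} (hv : v ∈ S) (hv' : v ∈ S') (hd : dgs μ U v < k) :
    Odd #(S ∪ S') ∧ ein μ (S ∪ S') + k = k * #(S ∪ S') := by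
  have hc : #(S ∪ S') + #(S ∩ S') = #S + #S' := Finset.card_union_add_card_inter S S'
  rcases Nat.even_or_odd #(S ∩ S') with he | hod
  · exfalso
    have c1 : #(S \ S') + #(S ∩ S') = #S := Finset.card_sdiff_add_card_inter S S'
    have c2 : #(S' \ S) + #(S ∩ S') = #S' := by
      rw [Finset.inter_comm]
      exact Finset.card_sdiff_add_card_inter S' S
    have o1 : Odd #(S \ S') := by
      rw [← c1, Nat.odd_add] at ho
      exact ho.2 he
    have o2 : Odd #(S' \ S) := by
      rw [← c2, Nat.odd_add] at ho'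
      exact ho'.2 he
    have g1 := hG.odd _ (Finset.sdiff_subset.trans hS) o1
    have g2 := hG.odd _ (Finset.sdiff_subset.trans hS') o2
    have g3 := sub2 (μ := μ) hs hS hS'
    have g4 : ex μ (S ∩ S') U + 1 ≤ k * #(S ∩ S') := by
      have hvi : v ∈ S ∩ S' := Finset.mem_inter.2 ⟨hv, hv'⟩
      unfold ex
      have h1 : ∑ x ∈ S ∩ S', dgs μ U x < ∑ _x ∈ S ∩ S', k := by
        refine Finset.sum_lt_sum (fun x hx => hG.deg x (hS (Finset.mem_inter.1 hx).1))
          ⟨v, hvi, hd⟩
      rw [Finset.sum_const, smul_eq_mul] at h1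
      rw [mul_comm k]
      omega
    have e1 : k * #S = k * #(S \ S') + k * #(S ∩ S') := by rw [← c1]; ring
    have e2 : k * #S' = k * #(S' \ S) + k * #(S ∩ S') := by rw [← c2]; ring
    omega
  · have o3 : Odd #(S ∪ S') := by
      have : Even (#(S ∪ S') + #(S ∩ S')) := by rw [hc]; exact ho.add_odd ho'
      rw [Nat.even_add'] at this
      exact this.2 hod
    refine ⟨o3, ?_⟩
    have g1 := hG.odd _ (Finset.union_subset hS hS') o3
    have g2 := hG.odd _ (Finset.inter_subset_left.trans hS) hod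
    have g3 := super (μ := μ) hs S S'
    have e1 : k * #(S ∪ S') + k * #(S ∩ S') = k * #S + k * #S' := by
      rw [← mul_add, hc, mul_add]
    omega

/-- An edge can be added at every deficient vertex. -/
theorem ex_add (hs : ∀ x y, μ x y = μ y x) (hdg : ∀ x, μ x x = 0) (hG : GoodOn U μ k)
    (hU : Even #U) {v : V} (hv : v ∈ U) (hd : dgs μ U v < k) :
    ∃ w ∈ U, w ≠ v ∧ dgs μ U w < k ∧
      ∀ S ⊆ U, Odd #S → v ∈ S → w ∈ S → ein μ S + k + 2 ≤ k * #S := by
  by_contra hcon
  push Not at hcon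
  -- a tight set with all deficient vertices
  have key : ∀ D : Finset V, D ⊆ U → (∀ w ∈ D, dgs μ U w < k) →
      ∃ T ⊆ U, v ∈ T ∧ D ⊆ T ∧ Odd #T ∧ ein μ T + k = k * #T := by
    intro D
    induction D using Finset.induction_on with
    | empty =>
      intro _ _
      refine ⟨{v}, Finset.singleton_subset_iff.2 hv, Finset.mem_singleton_self v,
        Finset.empty_subset _, by simp, ?_⟩
      have : ein μ {v} = 0 := by
        unfold ein dgs
        simp [hdg]
      rw [this]
      simp
    | insert w D _ ih =>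
      intro hDU hDd
      obtain ⟨T, hT, hvT, hDT, hoT, htT⟩ := ih ((Finset.subset_insert w D).trans hDU)
        (fun x hx => hDd x (Finset.mem_insert_of_mem hx))
      by_cases hwv : w = v
      · exact ⟨T, hT, hvT, Finset.insert_subset (hwv ▸ hvT) hDT, hoT, htT⟩
      · obtain ⟨S, hS, ho, hvS, hwS, hlt⟩ := hcon w (hDU (Finset.mem_insert_self w D)) hwv
          (hDd w (Finset.mem_insert_self w D))
        have hle := hG.odd S hS ho
        have hev := ein_even hs hdg S
        have hev2 : Even (k * #S + k) := by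
          have : k * #S + k = k * (#S + 1) := by ring
          rw [this]
          exact (ho.add_one).mul_left k
        have htS : ein μ S + k = k * #S := by
          obtain ⟨p, hp⟩ := hev
          obtain ⟨q, hq⟩ := hev2
          omega
        obtain ⟨o, t⟩ := uncross hs hG hT hS hoT ho htT htS hvT hvS hd
        exact ⟨T ∪ S, Finset.union_subset hT hS, Finset.mem_union_left _ hvT,
          Finset.insert_subset (Finset.mem_union_right _ hwS)
            (hDT.trans Finset.subset_union_left), o, t⟩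
  obtain ⟨T, hT, hvT, hDT, hoT, htT⟩ := key (U.filter fun w => dgs μ U w < k)
    (Finset.filter_subset _ _) (fun w hw => (Finset.mem_filter.1 hw).2)
  -- counting
  have hUT : U = T ∪ (U \ T) := (Finset.union_sdiff_of_subset hT).symm
  have hdis : Disjoint T (U \ T) := Finset.disjoint_sdiff
  have hcU : #T + #(U \ T) = #U := by
    rw [add_comm]
    exact Finset.card_sdiff_add_card_eq_card hT
  have hoc : Odd #(U \ T) := by
    rw [← hcU, Nat.even_add'] at hU
    exact hU.1 hoT
  have hreg : ∀ x ∈ U \ T, dgs μ U x = k := by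
    intro x hx
    obtain ⟨h1, h2⟩ := Finset.mem_sdiff.1 hx
    refine le_antisymm (hG.deg x h1) (not_lt.1 fun h => h2 (hDT ?_))
    exact Finset.mem_filter.2 ⟨h1, h⟩
  have e1 : ex μ (U \ T) U = k * #(U \ T) := by
    unfold ex
    rw [Finset.sum_congr rfl hreg, Finset.sum_const, smul_eq_mul, mul_comm]
  have e2 : ex μ (U \ T) U = ex μ (U \ T) T + ein μ (U \ T) := by
    have h := ex_union_right (μ := μ) hdis (U \ T)
    rwa [← hUT] at h
  have e3 := hG.odd _ Finset.sdiff_subset hoc
  have e4 : ex μ T U = ein μ T + ex μ T (U \ T) := by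
    have h := ex_union_right (μ := μ) hdis T
    rwa [← hUT] at h
  have e5 : ex μ T U + 1 ≤ k * #T := by
    unfold ex
    have h1 : ∑ x ∈ T, dgs μ U x < ∑ _x ∈ T, k :=
      Finset.sum_lt_sum (fun x hx => hG.deg x (hT hx)) ⟨v, hvT, hd⟩
    rw [Finset.sum_const, smul_eq_mul] at h1
    rw [mul_comm k]
    omega
  have e6 := ex_comm (μ := μ) hs T (U \ T)
  omega

/-- The multigraph with one more edge `v w`. -/
def addE (μ : V → V → ℕ) (v w x y : V) : ℕ :=
  μ x y + ((if x = v then (if y = w then 1 else 0) else 0) +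
    (if x = w then (if y = v then 1 else 0) else 0))

theorem addE_symm (hs : ∀ x y, μ x y = μ y x) (v w x y : V) :
    addE μ v w x y = addE μ v w y x := by
  unfold addE
  rw [hs x y]
  congr 1
  split_ifs <;> rfl

theorem addE_diag (hd : ∀ x, μ x x = 0) {v w : V} (hvw : v ≠ w) (x : V) :
    addE μ v w x x = 0 := by
  unfold addE
  rw [hd x]
  by_cases h1 : x = v
  · have h2 : x ≠ w := fun h => hvw (h1.symm.trans h)
    simp [h2]
  · simp [h1]

theorem le_addE (v w x y : V) : μ x y ≤ addE μ v w x y := Nat.le_add_right _ _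

theorem addE_dgs (v w : V) (S : Finset V) (x : V) : dgs (addE μ v w) S x = dgs μ S x +
    ((if x = v then (if w ∈ S then 1 else 0) else 0) +
      (if x = w then (if v ∈ S then 1 else 0) else 0)) := by
  unfold dgs addE
  rw [Finset.sum_add_distrib, Finset.sum_add_distrib]
  congr 2
  · by_cases h : x = v
    · simp [h]
    · simp [h]
  · by_cases h : x = w
    · simp [h]
    · simp [h]

theorem addE_ein (v w : V) (S : Finset V) : ein (addE μ v w) S = ein μ S +
    (if v ∈ S ∧ w ∈ S then 2 else 0) := by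
  unfold ein
  simp only [addE_dgs]
  rw [Finset.sum_add_distrib, Finset.sum_add_distrib, Finset.sum_ite_eq', Finset.sum_ite_eq']
  congr 1
  by_cases h1 : v ∈ S <;> by_cases h2 : w ∈ S <;> simp [h1, h2]

/-- Regularisation. -/
theorem regularise (hU : Even #U) : ∀ (n : ℕ) (μ : V → V → ℕ),
    (∑ v ∈ U, (k - dgs μ U v)) = n → (∀ x y, μ x y = μ y x) → (∀ x, μ x x = 0) →
    GoodOn U μ k → ∃ ν : V → V → ℕ, (∀ x y, ν x y = ν y x) ∧ (∀ x, ν x x = 0) ∧
      (∀ x y, μ x y ≤ ν x y) ∧ GoodOn U ν k ∧ ∀ v ∈ U, dgs ν U v = k := by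
  intro n
  induction n using Nat.strong_induction_on with
  | _ n ih =>
    intro μ hn hs hd hG
    by_cases hreg : ∀ v ∈ U, dgs μ U v = k
    · exact ⟨μ, hs, hd, fun _ _ => le_rfl, hG, hreg⟩
    · push Not at hreg
      obtain ⟨v, hv, hne⟩ := hreg
      have hvd : dgs μ U v < k := lt_of_le_of_ne (hG.deg v hv) hne
      obtain ⟨w, hw, hwv, hwd, hS⟩ := ex_add hs hd hG hU hv hvd
      have hG' : GoodOn U (addE μ v w) k := by
        refine ⟨fun x hx => ?_, fun S hSU ho => ?_⟩
        · rw [addE_dgs, if_pos hv, if_pos hw]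
          have h0 := hG.deg x hx
          by_cases h1 : x = v
          · have h2 : x ≠ w := fun h => hwv (h.symm.trans h1)
            rw [if_pos h1, if_neg h2, h1]
            omega
          · by_cases h2 : x = w
            · rw [if_neg h1, if_pos h2, h2]
              omega
            · rw [if_neg h1, if_neg h2]
              omega
        · rw [addE_ein]
          by_cases h1 : v ∈ S ∧ w ∈ S
          · rw [if_pos h1]
            have := hS S hSU ho h1.1 h1.2
            omega
          · rw [if_neg h1]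
            exact hG.odd S hSU ho
      have hlt : (∑ x ∈ U, (k - dgs (addE μ v w) U x)) < n := by
        rw [← hn]
        refine Finset.sum_lt_sum (fun x _ => ?_) ⟨v, hv, ?_⟩
        · rw [addE_dgs]
          omega
        · rw [addE_dgs, if_pos rfl, if_pos hw, if_neg hwv.symm]
          omega
      obtain ⟨ν, h1, h2, h3, h4, h5⟩ := ih _ hlt (addE μ v w) rfl (addE_symm hs v w)
        (addE_diag hd hwv.symm) hG'
      exact ⟨ν, h1, h2, fun x y => (le_addE v w x y).trans (h3 x y), h4, h5⟩

end Pool.Agent.MP27a405.SP
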