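import Pool.Agent.MP27a405.OA

/-!
# MP_27a405_co: multigraphs of order at most 8, part B: perfect matchings (Tutte)
-/

namespace Pool.Agent.MP27a405.SP

open Finset

set_option linter.unusedSectionVars false

/-- A regular multigraph with large odd cuts has a perfect matching. -/
theorem pm_exists {W : Type} [Fintype W] [DecidableEq W] {ν : W → W → ℕ} {k : ℕ}
    (hs : ∀ x y, ν x y = ν y x) (hd : ∀ x, ν x x = 0) (hk : 0 < k) (hreg : ∀ x, ∑ y, ν x y = k)
    (hcut : ∀ S : Finset W, Odd #S → k ≤ ∑ x ∈ S, ∑ y ∈ Sᶜ, ν x y) :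
    ∃ m : W → W, ∀ x, m (m x) = x ∧ ν x (m x) ≠ 0 := by
  classical
  let G : SimpleGraph W :=
    { Adj := fun x y => ν x y ≠ 0
      symm := ⟨fun x y h => by rw [hs]; exact h⟩
      loopless := ⟨fun x h => h (hd x)⟩ }
  have hGa : ∀ x y, G.Adj x y ↔ ν x y ≠ 0 := fun _ _ => Iff.rfl
  have hT : ∃ M : G.Subgraph, M.IsPerfectMatching := by
    rw [SimpleGraph.tutte]
    intro u hu
    unfold SimpleGraph.IsTutteViolator at hu
    obtain ⟨D, hD⟩ : ∃ D, D = (⊤ : G.Subgraph).deleteVerts u := ⟨_, rfl⟩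
    rw [← hD] at hu
    have hDv : ∀ x, x ∈ D.verts ↔ x ∉ u := by
      intro x
      rw [hD]
      simp
    have hDa : ∀ x y, D.Adj x y ↔ x ∉ u ∧ y ∉ u ∧ ν x y ≠ 0 := by
      intro x y
      rw [hD, SimpleGraph.Subgraph.deleteVerts_adj]
      simp [hGa]
    -- the vertex sets of the components
    obtain ⟨Sc, hSc⟩ : ∃ Sc : D.coe.ConnectedComponent → Finset W, Sc = fun c =>
        univ.filter fun x => ∃ h : x ∈ D.verts, (⟨x, h⟩ : D.verts) ∈ c.supp := ⟨_, rfl⟩
    have hScm : ∀ c x, x ∈ Sc c ↔ ∃ h : x ∈ D.verts, (⟨x, h⟩ : D.verts) ∈ c.supp := by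
      intro c x
      rw [hSc, Finset.mem_filter]
      simp
    have hcard : ∀ c, #(Sc c) = c.supp.ncard := by
      intro c
      rw [← Set.ncard_coe_finset, ← Set.ncard_image_of_injective c.supp Subtype.val_injective]
      congr 1
      ext x
      rw [Finset.mem_coe, hScm, Set.mem_image]
      constructor
      · rintro ⟨h1, h2⟩
        exact ⟨⟨x, h1⟩, h2, rfl⟩
      · rintro ⟨⟨y, h1⟩, h2, rfl⟩
        exact ⟨h1, h2⟩
    have hdisj : ∀ c c', c ≠ c' → Disjoint (Sc c) (Sc c') := by
      intro c c' hcc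
      rw [Finset.disjoint_left]
      intro x h1 h2
      rw [hScm] at h1 h2
      obtain ⟨a1, a2⟩ := h1
      obtain ⟨b1, b2⟩ := h2
      exact hcc (SimpleGraph.ConnectedComponent.eq_of_common_vertex a2 b2)
    -- the boundary
    have hbd : ∀ c, ∑ x ∈ Sc c, ∑ y ∈ (Sc c)ᶜ, ν x y ≤
        ∑ x ∈ Sc c, ∑ y ∈ univ.filter (fun y => y ∈ u), ν x y := by
      intro c
      refine Finset.sum_le_sum fun x hx => ?_
      rw [← Finset.sum_filter_add_sum_filter_not (Sc c)ᶜ (fun y => y ∈ u)]
      have h0 : ∑ y ∈ (Sc c)ᶜ.filter (fun y => y ∉ u), ν x y = 0 := by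
        refine Finset.sum_eq_zero fun y hy => ?_
        obtain ⟨h1, h2⟩ := Finset.mem_filter.1 hy
        rw [Finset.mem_compl] at h1
        by_contra h3
        apply h1
        rw [hScm] at hx ⊢
        obtain ⟨a1, a2⟩ := hx
        refine ⟨(hDv y).2 h2, ?_⟩
        have hadj : D.coe.Adj ⟨x, a1⟩ ⟨y, (hDv y).2 h2⟩ := by
          rw [SimpleGraph.Subgraph.coe_adj, hDa]
          exact ⟨(hDv x).1 a1, h2, h3⟩
        exact (SimpleGraph.ConnectedComponent.mem_supp_congr_adj c hadj).1 a2
      rw [h0, Nat.add_zero]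
      refine Finset.sum_le_sum_of_subset ?_
      intro y hy
      exact Finset.mem_filter.2 ⟨Finset.mem_univ _, (Finset.mem_filter.1 hy).2⟩
    have : Fintype D.coe.ConnectedComponent := Fintype.ofFinite _
    obtain ⟨O, hO⟩ : ∃ O : Finset D.coe.ConnectedComponent,
        O = univ.filter fun c => Odd c.supp.ncard := ⟨_, rfl⟩
    have hOc : D.coe.oddComponents.ncard = #O := by
      rw [← Set.ncard_coe_finset]
      congr 1
      ext c
      rw [hO]
      simp
    have h1 : #O * k ≤ ∑ c ∈ O, ∑ x ∈ Sc c, ∑ y ∈ univ.filter (fun y => y ∈ u), ν x y := by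
      rw [← smul_eq_mul]
      refine Finset.card_nsmul_le_sum _ _ _ fun c hc => ?_
      rw [hO, Finset.mem_filter] at hc
      exact (hcut (Sc c) (by rw [hcard]; exact hc.2)).trans (hbd c)
    have h2 : ∑ c ∈ O, ∑ x ∈ Sc c, ∑ y ∈ univ.filter (fun y => y ∈ u), ν x y ≤
        ∑ x, ∑ y ∈ univ.filter (fun y => y ∈ u), ν x y := by
      rw [← Finset.sum_biUnion (fun c _ c' _ h => hdisj c c' h)]
      exact Finset.sum_le_sum_of_subset (Finset.subset_univ _)
    have h3 : ∑ x, ∑ y ∈ univ.filter (fun y => y ∈ u), ν x y = u.ncard * k := by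
      rw [Finset.sum_comm]
      have : ∀ y ∈ univ.filter (fun y => y ∈ u), ∑ x, ν x y = k := by
        intro y _
        rw [← hreg y]
        exact Finset.sum_congr rfl fun x _ => hs x y
      rw [Finset.sum_congr rfl this, Finset.sum_const, smul_eq_mul]
      congr 1
      rw [← Set.ncard_coe_finset]
      congr 1
      ext x
      simp
    have h4 : #O * k ≤ u.ncard * k := by
      rw [← h3]
      exact h1.trans h2
    have h5 : #O ≤ u.ncard := Nat.le_of_mul_le_mul_right h4 hk
    omega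
  obtain ⟨M, hM⟩ := hT
  rw [SimpleGraph.Subgraph.isPerfectMatching_iff] at hM
  choose m hm hm' using hM
  refine ⟨m, fun x => ⟨?_, ?_⟩⟩
  · exact (hm' (m x) x (hm x).symm).symm
  · exact (hGa _ _).1 (M.adj_sub (hm x))

variable {V : Type} [DecidableEq V] {U : Finset V} {μ : V → V → ℕ} {k : ℕ}

/-- The perfect matching of a regular multigraph on `U`. -/
theorem perfect (hs : ∀ x y, μ x y = μ y x) (hd : ∀ x, μ x x = 0) (hk : 0 < k)
    (hG : GoodOn U μ k) (hreg : ∀ v ∈ U, dgs μ U v = k) :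
    ∃ m : V → V, ∀ x ∈ U, m x ∈ U ∧ m (m x) = x ∧ μ x (m x) ≠ 0 := by
  classical
  have key := pm_exists (W := {x // x ∈ U}) (ν := fun x y => μ x y) (k := k)
    (fun x y => hs x y) (fun x => hd x) hk
    (by
      intro x
      rw [← hreg x x.2]
      unfold dgs
      exact Finset.sum_coe_sort U (fun y => μ x y))
    (by
      intro S ho
      obtain ⟨T, hT⟩ : ∃ T : Finset V, T = S.map (Function.Embedding.subtype _) := ⟨_, rfl⟩
      have hTU : T ⊆ U := by
        intro x hx
        rw [hT, Finset.mem_map] at hx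
        obtain ⟨y, -, rfl⟩ := hx
        exact y.2
      have hTo : Odd #T := by rw [hT, Finset.card_map]; exact ho
      have h1 := hG.odd T hTU hTo
      have hdis : Disjoint T (U \ T) := Finset.disjoint_sdiff
      have hUT : U = T ∪ (U \ T) := (Finset.union_sdiff_of_subset hTU).symm
      have h2 : ex μ T U = ein μ T + ex μ T (U \ T) := by
        have h := ex_union_right (μ := μ) hdis T
        rwa [← hUT] at h
      have h3 : ex μ T U = k * #T := by
        unfold ex
        rw [Finset.sum_congr rfl (fun x hx => hreg x (hTU hx)), Finset.sum_const, smul_eq_mul,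
          mul_comm]
      have h4 : ∑ x ∈ S, ∑ y ∈ Sᶜ, μ x y = ex μ T (U \ T) := by
        unfold ex dgs
        rw [hT, Finset.sum_map]
        refine Finset.sum_congr rfl fun x _ => ?_
        have h5 : U \ S.map (Function.Embedding.subtype _) =
            Sᶜ.map (Function.Embedding.subtype _) := by
          ext y
          simp only [Finset.mem_sdiff, Finset.mem_map, Finset.mem_compl,
            Function.Embedding.subtype_apply, Subtype.exists, exists_and_right, exists_eq_right]
          constructor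
          · rintro ⟨h6, h7⟩
            exact ⟨h6, fun h8 => h7 ⟨h6, h8⟩⟩
          · rintro ⟨h6, h7⟩
            exact ⟨h6, fun ⟨_, h8⟩ => h7 h8⟩
        rw [h5, Finset.sum_map]
        rfl
      rw [h4]
      omega)
  obtain ⟨m, hm⟩ := key
  refine ⟨fun x => if h : x ∈ U then (m ⟨x, h⟩ : V) else x, fun x hx => ?_⟩
  have h1 := hm ⟨x, hx⟩
  simp only [dif_pos hx]
  refine ⟨(m ⟨x, hx⟩).2, ?_, h1.2⟩
  rw [dif_pos (m ⟨x, hx⟩).2]
  exact congrArg Subtype.val h1.1

end Pool.Agent.MP27a405.SP
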