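import Mathlib

/-!
# MP_27a405_co: series-parallel multigraphs, part A: colour sets

A multigraph is given by its multiplicities `μ : V → V → ℕ`, a proper edge colouring by the colour
sets `φ : V → V → Finset ℕ`.
-/

namespace Pool.Agent.MP27a405.SP

open Finset

set_option linter.unusedSectionVars false

variable {V : Type} [DecidableEq V]

/-! ### Lemmas on finite sets -/

theorem exSub {A : Finset ℕ} {n : ℕ} (h : n ≤ #A) : ∃ B ⊆ A, #B = n := by
  obtain ⟨B, hB, hc⟩ := Finset.exists_subset_card_eq h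
  exact ⟨B, hB, hc⟩

/-- Hall's theorem for two sets. -/
theorem twoHall {A B : Finset ℕ} {f₁ f₂ : ℕ} (h1 : f₁ ≤ #A) (h2 : f₂ ≤ #B)
    (h : f₁ + f₂ ≤ #(A ∪ B)) : ∃ F₁ ⊆ A, ∃ F₂ ⊆ B, #F₁ = f₁ ∧ #F₂ = f₂ ∧ Disjoint F₁ F₂ := by
  rcases le_total f₁ #(A \ B) with h3 | h3
  · obtain ⟨F₁, hF₁, hc⟩ := exSub h3
    obtain ⟨F₂, hF₂, hc₂⟩ := exSub h2
    refine ⟨F₁, hF₁.trans Finset.sdiff_subset, F₂, hF₂, hc, hc₂, ?_⟩
    exact (Finset.disjoint_of_subset_left hF₁ Finset.sdiff_disjoint).mono_right hF₂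
  · have h4 : f₁ - #(A \ B) ≤ #(A ∩ B) := by
      have := Finset.card_sdiff_add_card_inter A B
      omega
    obtain ⟨J, hJ, hJc⟩ := exSub h4
    have hdis : Disjoint (A \ B) J :=
      Finset.disjoint_of_subset_right (hJ.trans Finset.inter_subset_right) Finset.sdiff_disjoint
    have hc : #((A \ B) ∪ J) = f₁ := by
      rw [Finset.card_union_of_disjoint hdis]
      omega
    have h5 : f₂ ≤ #(B \ J) := by
      have e1 : #(A ∪ B) = #(A \ B) + #B := by
        rw [← Finset.sdiff_union_self_eq_union, Finset.card_union_of_disjoint Finset.sdiff_disjoint]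
      have e2 : #(B \ J) = #B - #J :=
        Finset.card_sdiff_of_subset (hJ.trans Finset.inter_subset_right)
      omega
    obtain ⟨F₂, hF₂, hc₂⟩ := exSub h5
    refine ⟨(A \ B) ∪ J, ?_, F₂, hF₂.trans Finset.sdiff_subset, hc, hc₂, ?_⟩
    · exact Finset.union_subset Finset.sdiff_subset (hJ.trans Finset.inter_subset_left)
    · rw [Finset.disjoint_union_left]
      refine ⟨?_, ?_⟩
      · exact Finset.disjoint_of_subset_right (hF₂.trans Finset.sdiff_subset)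
          Finset.sdiff_disjoint
      · exact Finset.disjoint_of_subset_right hF₂ Finset.disjoint_sdiff

/-- The choice of two numbers. -/
theorem exTwo {L₁ L₂ e₁ e₂ M t : ℕ} (h1 : L₁ ≤ e₁) (h2 : L₂ ≤ e₂) (h3 : L₁ + L₂ ≤ t)
    (h4 : M ≤ e₁ + e₂) (h5 : M ≤ t) :
    ∃ x₁ x₂, L₁ ≤ x₁ ∧ x₁ ≤ e₁ ∧ L₂ ≤ x₂ ∧ x₂ ≤ e₂ ∧ M ≤ x₁ + x₂ ∧ x₁ + x₂ ≤ t := by
  by_cases h6 : M ≤ L₁ + L₂
  · exact ⟨L₁, L₂, by omega, by omega, by omega, by omega, by omega, by omega⟩
  · by_cases h7 : M ≤ e₁ + L₂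
    · exact ⟨M - L₂, L₂, by omega, by omega, by omega, by omega, by omega, by omega⟩
    · exact ⟨e₁, M - e₁, by omega, by omega, by omega, by omega, by omega, by omega⟩

/-- The choice of the numbers `x₁`, `x₂` for a vertex with two ears. -/
theorem exNum {k e₁ e₂ f₁ f₂ g₁ g₂ t m₁ m₂ : ℕ} (hW : e₁ + e₂ + f₁ + f₂ ≤ k)
    (t1 : e₁ + f₁ + g₁ ≤ k) (t2 : e₂ + f₂ + g₂ ≤ k)
    (hm₁ : m₁ = f₂ + e₁ + e₂ + g₂ - k) (hm₂ : m₂ = f₁ + e₁ + e₂ + g₁ - k)
    (hlo : m₁ + m₂ ≤ t) (hhi : t ≤ g₁ + g₂) (hhi' : t + f₁ + f₂ ≤ k)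
    (htX : t ≤ e₁ + g₁) (htY : t ≤ e₂ + g₂) :
    ∃ x₁ x₂, t ≤ x₁ + g₁ ∧ f₂ + e₁ + e₂ + g₂ ≤ k + x₁ ∧ x₁ ≤ e₁ ∧ t ≤ x₂ + g₂ ∧
      f₁ + e₁ + e₂ + g₁ ≤ k + x₂ ∧ x₂ ≤ e₂ ∧ e₁ + e₂ + f₁ + f₂ + t ≤ k + x₁ + x₂ ∧
      x₁ + x₂ ≤ t := by
  have a1 : m₁ ≤ e₁ := by omega
  have a2 : m₂ ≤ e₂ := by omega
  have a3 : m₁ ≤ g₂ := by omega
  have a4 : m₂ ≤ g₁ := by omega
  have a5 : f₂ + e₁ + e₂ + g₂ ≤ k + m₁ := by omega
  have a6 : f₁ + e₁ + e₂ + g₁ ≤ k + m₂ := by omega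
  clear hm₁ hm₂
  obtain ⟨L₁, b1, b2, b3⟩ : ∃ L₁, t ≤ L₁ + g₁ ∧ m₁ ≤ L₁ ∧ (L₁ = m₁ ∨ L₁ + g₁ = t) := by
    by_cases h : t ≤ m₁ + g₁
    · exact ⟨m₁, h, le_rfl, Or.inl rfl⟩
    · exact ⟨t - g₁, by omega, by omega, Or.inr (by omega)⟩
  obtain ⟨L₂, c1, c2, c3⟩ : ∃ L₂, t ≤ L₂ + g₂ ∧ m₂ ≤ L₂ ∧ (L₂ = m₂ ∨ L₂ + g₂ = t) := by
    by_cases h : t ≤ m₂ + g₂
    · exact ⟨m₂, h, le_rfl, Or.inl rfl⟩
    · exact ⟨t - g₂, by omega, by omega, Or.inr (by omega)⟩
  have d1 : L₁ ≤ e₁ := by omega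
  have d2 : L₂ ≤ e₂ := by omega
  have d3 : L₁ + L₂ ≤ t := by
    rcases b3 with b3 | b3 <;> rcases c3 with c3 | c3 <;> omega
  obtain ⟨M, hM1, hM2, hM3⟩ : ∃ M, e₁ + e₂ + f₁ + f₂ + t ≤ k + M ∧ M ≤ e₁ + e₂ ∧ M ≤ t :=
    ⟨e₁ + e₂ + f₁ + f₂ + t - k, by omega, by omega, by omega⟩
  obtain ⟨x₁, x₂, y1, y2, y3, y4, y5, y6⟩ := exTwo d1 d2 d3 hM2 hM3
  exact ⟨x₁, x₂, by omega, by omega, by omega, by omega, by omega, by omega, by omega, by omega⟩

/-- The inner lemma for a vertex with two ears. -/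
theorem innerD {k e₁ e₂ f₁ f₂ g₁ g₂ : ℕ} {X Y : Finset ℕ} (hX : X ⊆ range k) (hY : Y ⊆ range k)
    (hXc : #X = e₁ + g₁) (hYc : #Y = e₂ + g₂) (hW : e₁ + e₂ + f₁ + f₂ ≤ k)
    (t1 : e₁ + f₁ + g₁ ≤ k) (t2 : e₂ + f₂ + g₂ ≤ k)
    (hlo : (f₂ + e₁ + e₂ + g₂ - k) + (f₁ + e₁ + e₂ + g₁ - k) ≤ #(X ∩ Y))
    (hhi : #(X ∩ Y) ≤ g₁ + g₂) (hhi' : #(X ∩ Y) + f₁ + f₂ ≤ k) :
    ∃ E₁ ⊆ X, ∃ E₂ ⊆ Y, ∃ F₁ ⊆ range k, ∃ F₂ ⊆ range k, #E₁ = e₁ ∧ #E₂ = e₂ ∧ #F₁ = f₁ ∧
      #F₂ = f₂ ∧ Disjoint E₁ E₂ ∧ Disjoint F₁ (X ∪ E₂) ∧ Disjoint F₂ (Y ∪ E₁) ∧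
      Disjoint F₁ F₂ := by
  obtain ⟨t, ht⟩ : ∃ t, t = #(X ∩ Y) := ⟨_, rfl⟩
  rw [← ht] at hlo hhi hhi'
  have htX : t ≤ e₁ + g₁ := by
    rw [ht, ← hXc]
    exact Finset.card_le_card Finset.inter_subset_left
  have htY : t ≤ e₂ + g₂ := by
    rw [ht, ← hYc]
    exact Finset.card_le_card Finset.inter_subset_right
  obtain ⟨x₁, x₂, a1, a2, a3, a4, a5, a6, a7, a8⟩ := exNum hW t1 t2 rfl rfl hlo hhi hhi' htX htY
  clear hlo hhi hhi' htX htY hW t1 t2
  obtain ⟨y₁, hy₁⟩ : ∃ y₁, x₁ + y₁ = e₁ := ⟨e₁ - x₁, by omega⟩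
  obtain ⟨y₂, hy₂⟩ : ∃ y₂, x₂ + y₂ = e₂ := ⟨e₂ - x₂, by omega⟩
  obtain ⟨T₁, hT₁, hT₁c⟩ := exSub (A := X ∩ Y) (n := x₁) (by omega)
  have h1 : #((X ∩ Y) \ T₁) + x₁ = t := by
    rw [ht, ← hT₁c]
    exact Finset.card_sdiff_add_card_eq_card hT₁
  obtain ⟨T₂, hT₂, hT₂c⟩ := exSub (A := (X ∩ Y) \ T₁) (n := x₂) (by omega)
  have h2 : #(X \ Y) + t = e₁ + g₁ := by
    have := Finset.card_sdiff_add_card_inter X Y
    omega
  have h3 : #(Y \ X) + t = e₂ + g₂ := by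
    have := Finset.card_sdiff_add_card_inter Y X
    rw [Finset.inter_comm] at this
    omega
  obtain ⟨E₁', hE₁, hE₁c⟩ := exSub (A := X \ Y) (n := y₁) (by omega)
  obtain ⟨E₂', hE₂, hE₂c⟩ := exSub (A := Y \ X) (n := y₂) (by omega)
  clear h1 h2 h3
  have d1 : Disjoint T₁ T₂ := (Finset.disjoint_of_subset_right hT₂ Finset.disjoint_sdiff)
  have hT₂' : T₂ ⊆ X ∩ Y := hT₂.trans Finset.sdiff_subset
  have d2 : Disjoint T₁ E₁' := by
    rw [Finset.disjoint_left]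
    intro i h4 h5
    exact (Finset.mem_sdiff.1 (hE₁ h5)).2 (Finset.mem_inter.1 (hT₁ h4)).2
  have d3 : Disjoint T₂ E₂' := by
    rw [Finset.disjoint_left]
    intro i h4 h5
    exact (Finset.mem_sdiff.1 (hE₂ h5)).2 (Finset.mem_inter.1 (hT₂' h4)).1
  have hE₁s : T₁ ∪ E₁' ⊆ X :=
    Finset.union_subset (hT₁.trans Finset.inter_subset_left) (hE₁.trans Finset.sdiff_subset)
  have hE₂s : T₂ ∪ E₂' ⊆ Y :=
    Finset.union_subset (hT₂'.trans Finset.inter_subset_right) (hE₂.trans Finset.sdiff_subset)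
  have c1 : #(T₁ ∪ E₁') = e₁ := by
    rw [Finset.card_union_of_disjoint d2, hT₁c, hE₁c, hy₁]
  have c2 : #(T₂ ∪ E₂') = e₂ := by
    rw [Finset.card_union_of_disjoint d3, hT₂c, hE₂c, hy₂]
  have dE : Disjoint (T₁ ∪ E₁') (T₂ ∪ E₂') := by
    rw [Finset.disjoint_left]
    intro i h4 h5
    rcases Finset.mem_union.1 h4 with h4 | h4 <;> rcases Finset.mem_union.1 h5 with h5 | h5
    · exact Finset.disjoint_left.1 d1 h4 h5
    · exact (Finset.mem_sdiff.1 (hE₂ h5)).2 (Finset.mem_inter.1 (hT₁ h4)).1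
    · exact (Finset.mem_sdiff.1 (hE₁ h4)).2 (Finset.mem_inter.1 (hT₂' h5)).2
    · exact (Finset.mem_sdiff.1 (hE₂ h5)).2 (Finset.mem_sdiff.1 (hE₁ h4)).1
  -- the sets of admissible colours
  have cA' : #(X ∪ (T₂ ∪ E₂')) = e₁ + g₁ + y₂ := by
    have e : X ∪ (T₂ ∪ E₂') = X ∪ E₂' := by
      rw [← Finset.union_assoc, Finset.union_eq_left.2 (hT₂'.trans Finset.inter_subset_left)]
    rw [e, Finset.card_union_of_disjoint, hXc, hE₂c]
    rw [Finset.disjoint_left]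
    intro i h4 h5
    exact (Finset.mem_sdiff.1 (hE₂ h5)).2 h4
  have cB' : #(Y ∪ (T₁ ∪ E₁')) = e₂ + g₂ + y₁ := by
    have e : Y ∪ (T₁ ∪ E₁') = Y ∪ E₁' := by
      rw [← Finset.union_assoc, Finset.union_eq_left.2 (hT₁.trans Finset.inter_subset_right)]
    rw [e, Finset.card_union_of_disjoint, hYc, hE₁c]
    rw [Finset.disjoint_left]
    intro i h4 h5
    exact (Finset.mem_sdiff.1 (hE₁ h5)).2 h4
  have sE₁ : T₁ ∪ E₁' ⊆ range k := hE₁s.trans hX
  have sE₂ : T₂ ∪ E₂' ⊆ range k := hE₂s.trans hY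
  have cA : #(range k \ (X ∪ (T₂ ∪ E₂'))) + (e₁ + g₁ + y₂) = k := by
    rw [← cA', Finset.card_sdiff_add_card_eq_card (Finset.union_subset hX sE₂), Finset.card_range]
  have cB : #(range k \ (Y ∪ (T₁ ∪ E₁'))) + (e₂ + g₂ + y₁) = k := by
    rw [← cB', Finset.card_sdiff_add_card_eq_card (Finset.union_subset hY sE₁), Finset.card_range]
  have cAB : k ≤ #(range k \ (X ∪ (T₂ ∪ E₂')) ∪ range k \ (Y ∪ (T₁ ∪ E₁'))) +
      (t + y₁ + y₂) := by
    rw [← Finset.sdiff_inter_distrib_right]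
    have h4 : (X ∪ (T₂ ∪ E₂')) ∩ (Y ∪ (T₁ ∪ E₁')) ⊆ (X ∩ Y) ∪ E₁' ∪ E₂' := by
      intro i hi
      obtain ⟨h5, h6⟩ := Finset.mem_inter.1 hi
      simp only [Finset.mem_union, Finset.mem_inter] at h5 h6 ⊢
      have h7 : i ∈ T₁ → i ∈ X ∧ i ∈ Y := fun h => Finset.mem_inter.1 (hT₁ h)
      have h8 : i ∈ T₂ → i ∈ X ∧ i ∈ Y := fun h => Finset.mem_inter.1 (hT₂' h)
      tauto
    have h5 : #((X ∪ (T₂ ∪ E₂')) ∩ (Y ∪ (T₁ ∪ E₁'))) ≤ t + y₁ + y₂ := by
      refine (Finset.card_le_card h4).trans ((Finset.card_union_le _ _).trans ?_)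
      rw [hE₂c]
      refine Nat.add_le_add_right ((Finset.card_union_le _ _).trans ?_) _
      rw [hE₁c, ht]
    have h6 := Finset.card_le_card_sdiff_add_card (s := range k)
      (t := (X ∪ (T₂ ∪ E₂')) ∩ (Y ∪ (T₁ ∪ E₁')))
    rw [Finset.card_range] at h6
    exact h6.trans (Nat.add_le_add_left h5 _)
  obtain ⟨F₁, hF₁, F₂, hF₂, b1, b2, b3⟩ := twoHall
    (A := range k \ (X ∪ (T₂ ∪ E₂'))) (B := range k \ (Y ∪ (T₁ ∪ E₁'))) (f₁ := f₁) (f₂ := f₂)
    (by omega) (by omega) (by omega)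
  exact ⟨_, hE₁s, _, hE₂s, F₁, hF₁.trans Finset.sdiff_subset, F₂,
    hF₂.trans Finset.sdiff_subset, c1, c2, b1, b2, dE,
    Finset.disjoint_of_subset_left hF₁ Finset.sdiff_disjoint,
    Finset.disjoint_of_subset_left hF₂ Finset.sdiff_disjoint, b3⟩

/-- The inner lemma for twins. -/
theorem innerB {a b c d : ℕ} {X Y : Finset ℕ} (hXc : #X = a + c) (hYc : #Y = b + d)
    (hhi : #(X ∩ Y) ≤ min a d + min b c) :
    ∃ A ⊆ X, ∃ D ⊆ Y, #A = a ∧ #D = d ∧ Disjoint A (Y \ D) ∧ Disjoint (X \ A) D := by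
  obtain ⟨t, ht⟩ : ∃ t, t = #(X ∩ Y) := ⟨_, rfl⟩
  rw [← ht] at hhi
  have htX : t ≤ a + c := by
    rw [ht, ← hXc]
    exact Finset.card_le_card Finset.inter_subset_left
  have htY : t ≤ b + d := by
    rw [ht, ← hYc]
    exact Finset.card_le_card Finset.inter_subset_right
  obtain ⟨i, i1, i2, i3⟩ : ∃ i, i ≤ min a d ∧ i ≤ t ∧ t ≤ i + min b c := by
    refine ⟨min t (min a d), min_le_right _ _, min_le_left _ _, ?_⟩
    rcases le_total t (min a d) with h | h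
    · rw [min_eq_left h]
      omega
    · rw [min_eq_right h]
      exact hhi
  obtain ⟨T₁, hT₁, hT₁c⟩ := exSub (A := X ∩ Y) (n := i) (by omega)
  have h2 : #(X \ Y) = a + c - t := by
    have := Finset.card_sdiff_add_card_inter X Y
    omega
  have h3 : #(Y \ X) = b + d - t := by
    have := Finset.card_sdiff_add_card_inter Y X
    rw [Finset.inter_comm] at this
    omega
  obtain ⟨A', hA', hA'c⟩ := exSub (A := X \ Y) (n := a - i) (by omega)
  obtain ⟨D', hD', hD'c⟩ := exSub (A := Y \ X) (n := d - i) (by omega)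
  have d2 : Disjoint T₁ A' := by
    rw [Finset.disjoint_left]
    intro i h4 h5
    exact (Finset.mem_sdiff.1 (hA' h5)).2 (Finset.mem_inter.1 (hT₁ h4)).2
  have d3 : Disjoint T₁ D' := by
    rw [Finset.disjoint_left]
    intro i h4 h5
    exact (Finset.mem_sdiff.1 (hD' h5)).2 (Finset.mem_inter.1 (hT₁ h4)).1
  refine ⟨T₁ ∪ A', ?_, T₁ ∪ D', ?_, ?_, ?_, ?_, ?_⟩
  · exact Finset.union_subset (hT₁.trans Finset.inter_subset_left) (hA'.trans Finset.sdiff_subset)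
  · exact Finset.union_subset (hT₁.trans Finset.inter_subset_right)
      (hD'.trans Finset.sdiff_subset)
  · rw [Finset.card_union_of_disjoint d2]
    omega
  · rw [Finset.card_union_of_disjoint d3]
    omega
  · rw [Finset.disjoint_left]
    intro j h4 h5
    obtain ⟨h6, h7⟩ := Finset.mem_sdiff.1 h5
    rcases Finset.mem_union.1 h4 with h4 | h4
    · exact h7 (Finset.mem_union_left _ h4)
    · exact (Finset.mem_sdiff.1 (hA' h4)).2 h6
  · rw [Finset.disjoint_left]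
    intro j h4 h5
    obtain ⟨h6, h7⟩ := Finset.mem_sdiff.1 h4
    rcases Finset.mem_union.1 h5 with h5 | h5
    · exact h7 (Finset.mem_union_left _ h5)
    · exact (Finset.mem_sdiff.1 (hD' h5)).2 h6

/-! ### Colour sets -/

/-- The colour sets of a proper edge colouring. -/
structure Col (U : Finset V) (μ : V → V → ℕ) (k : ℕ) (φ : V → V → Finset ℕ) : Prop where
  symm : ∀ x y, φ x y = φ y x
  card : ∀ x ∈ U, ∀ y ∈ U, #(φ x y) = μ x y
  sub : ∀ x ∈ U, ∀ y ∈ U, φ x y ⊆ range k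
  disj : ∀ x ∈ U, ∀ y ∈ U, ∀ z ∈ U, y ≠ z → Disjoint (φ x y) (φ x z)

/-- The colours at `x`. -/
def used (φ : V → V → Finset ℕ) (U : Finset V) (x : V) : Finset ℕ := U.biUnion (φ x)

/-- The degree of `v` into `S`. -/
def dgs (μ : V → V → ℕ) (S : Finset V) (v : V) : ℕ := ∑ y ∈ S, μ v y

variable {U : Finset V} {μ : V → V → ℕ} {k : ℕ} {φ : V → V → Finset ℕ}

theorem mem_used {x : V} {i : ℕ} : i ∈ used φ U x ↔ ∃ y ∈ U, i ∈ φ x y := by
  unfold used
  rw [Finset.mem_biUnion]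

theorem card_used (h : Col U μ k φ) {x : V} (hx : x ∈ U) : #(used φ U x) = dgs μ U x := by
  unfold used dgs
  rw [Finset.card_biUnion]
  · exact Finset.sum_congr rfl fun y hy => h.card x hx y hy
  · intro y hy z hz hyz
    exact h.disj x hx y hy z hz hyz

theorem used_sub (h : Col U μ k φ) {x : V} (hx : x ∈ U) : used φ U x ⊆ range k := by
  intro i hi
  obtain ⟨y, hy, hi⟩ := mem_used.1 hi
  exact h.sub x hx y hy hi

/-- Free colours. -/
theorem avail (h : Col U μ k φ) {x : V} (hx : x ∈ U) {n : ℕ} (hn : dgs μ U x + n ≤ k) :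
    ∃ N ⊆ range k, #N = n ∧ Disjoint N (used φ U x) := by
  have h1 : #(range k \ used φ U x) = k - dgs μ U x := by
    rw [Finset.card_sdiff_of_subset (used_sub h hx), card_used h hx, Finset.card_range]
  obtain ⟨N, hN, hc⟩ := exSub (A := range k \ used φ U x) (n := n) (by omega)
  exact ⟨N, hN.trans Finset.sdiff_subset, hc,
    Finset.disjoint_of_subset_left hN Finset.sdiff_disjoint⟩

theorem Col.mono {U' : Finset V} (h : Col U μ k φ) (hU : U' ⊆ U) : Col U' μ k φ :=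
  ⟨h.symm, fun x hx y hy => h.card x (hU hx) y (hU hy), fun x hx y hy => h.sub x (hU hx) y (hU hy),
    fun x hx y hy z hz => h.disj x (hU hx) y (hU hy) z (hU hz)⟩

/-- Adding a vertex. -/
theorem extA (hφ : Col U μ k φ) {v : V} (hv : v ∉ U)
    (hs : ∀ x y, μ x y = μ y x) (hd : ∀ x, μ x x = 0) {A : V → Finset ℕ} (hAv : A v = ∅)
    (hAc : ∀ y ∈ U, #(A y) = μ v y) (hAk : ∀ y ∈ U, A y ⊆ range k)
    (hAd : ∀ y ∈ U, ∀ z ∈ U, y ≠ z → Disjoint (A y) (A z))
    (hAu : ∀ y ∈ U, Disjoint (A y) (used φ U y)) :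
    ∃ φ', Col (insert v U) μ k φ' ∧ used φ' (insert v U) v ⊆ U.biUnion A ∧
      ∀ y ∈ U, used φ' (insert v U) y ⊆ used φ U y ∪ A y := by
  obtain ⟨φ', hφ'⟩ : ∃ φ' : V → V → Finset ℕ, φ' = fun x y => if x = v then A y else
      if y = v then A x else φ x y := ⟨_, rfl⟩
  have f1 : ∀ y, φ' v y = A y := fun y => by rw [hφ']; simp
  have f2 : ∀ x, φ' x v = A x := fun x => by
    rw [hφ']
    by_cases h : x = v
    · simp [h]
    · simp [h]
  have f3 : ∀ x y, x ≠ v → y ≠ v → φ' x y = φ x y := fun x y h1 h2 => by rw [hφ']; simp [h1, h2]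
  have hne : ∀ y ∈ U, y ≠ v := fun y hy h => hv (h ▸ hy)
  have hAφ : ∀ y ∈ U, ∀ z ∈ U, Disjoint (A y) (φ y z) := by
    intro y hy z hz
    refine Finset.disjoint_of_subset_right ?_ (hAu y hy)
    intro i hi
    exact mem_used.2 ⟨z, hz, hi⟩
  refine ⟨φ', ⟨?_, ?_, ?_, ?_⟩, ?_, ?_⟩
  · intro x y
    by_cases h1 : x = v
    · rw [h1, f1, f2]
    · by_cases h2 : y = v
      · rw [h2, f1, f2]
      · rw [f3 x y h1 h2, f3 y x h2 h1, hφ.symm]
  · intro x hx y hy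
    rcases Finset.mem_insert.1 hx with hx' | hx'
    · rw [hx', f1]
      rcases Finset.mem_insert.1 hy with hy' | hy'
      · rw [hy', hAv, hd, Finset.card_empty]
      · exact hAc y hy'
    · rcases Finset.mem_insert.1 hy with hy' | hy'
      · rw [hy', f2, hs]
        exact hAc x hx'
      · rw [f3 x y (hne x hx') (hne y hy')]
        exact hφ.card x hx' y hy'
  · intro x hx y hy
    rcases Finset.mem_insert.1 hx with hx' | hx'
    · rw [hx', f1]
      rcases Finset.mem_insert.1 hy with hy' | hy'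
      · rw [hy', hAv]
        exact Finset.empty_subset _
      · exact hAk y hy'
    · rcases Finset.mem_insert.1 hy with hy' | hy'
      · rw [hy', f2]; exact hAk x hx'
      · rw [f3 x y (hne x hx') (hne y hy')]
        exact hφ.sub x hx' y hy'
  · intro x hx y hy z hz hyz
    rcases Finset.mem_insert.1 hx with hx' | hx'
    · rw [hx', f1, f1]
      rcases Finset.mem_insert.1 hy with hy' | hy'
      · rw [hy', hAv]
        exact Finset.disjoint_empty_left _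
      · rcases Finset.mem_insert.1 hz with hz' | hz'
        · rw [hz', hAv]
          exact Finset.disjoint_empty_right _
        · exact hAd y hy' z hz' hyz
    · rcases Finset.mem_insert.1 hy with hy' | hy'
      · rcases Finset.mem_insert.1 hz with hz' | hz'
        · exact absurd (hy'.trans hz'.symm) hyz
        · rw [hy', f2, f3 x z (hne x hx') (hne z hz')]
          exact hAφ x hx' z hz'
      · rcases Finset.mem_insert.1 hz with hz' | hz'
        · rw [hz', f2, f3 x y (hne x hx') (hne y hy')]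
          exact (hAφ x hx' y hy').symm
        · rw [f3 x z (hne x hx') (hne z hz'), f3 x y (hne x hx') (hne y hy')]
          exact hφ.disj x hx' y hy' z hz' hyz
  · intro i hi
    obtain ⟨y, hy, hi⟩ := mem_used.1 hi
    rw [f1] at hi
    rcases Finset.mem_insert.1 hy with hy' | hy'
    · rw [hy', hAv] at hi; exact absurd hi (Finset.notMem_empty _)
    · exact Finset.mem_biUnion.2 ⟨y, hy', hi⟩
  · intro x hx i hi
    obtain ⟨y, hy, hi⟩ := mem_used.1 hi
    rcases Finset.mem_insert.1 hy with hy' | hy'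
    · rw [hy', f2] at hi; exact Finset.mem_union_right _ hi
    · rw [f3 x y (hne x hx) (hne y hy')] at hi
      exact Finset.mem_union_left _ (mem_used.2 ⟨y, hy', hi⟩)

/-- Adding a vertex with at most two neighbours. -/
theorem ext2 (hφ : Col U μ k φ) {v p q : V} (hv : v ∉ U) (hp : p ∈ U) (hq : q ∈ U) (hpq : p ≠ q)
    (hs : ∀ x y, μ x y = μ y x) (hd : ∀ x, μ x x = 0) {P Q : Finset ℕ} (hP : #P = μ v p)
    (hQ : #Q = μ v q) (hPk : P ⊆ range k) (hQk : Q ⊆ range k) (hPQ : Disjoint P Q)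
    (hPu : Disjoint P (used φ U p)) (hQu : Disjoint Q (used φ U q))
    (h0 : ∀ y ∈ U, y ≠ p → y ≠ q → μ v y = 0) :
    ∃ φ', Col (insert v U) μ k φ' ∧ used φ' (insert v U) v ⊆ P ∪ Q ∧
      used φ' (insert v U) p ⊆ used φ U p ∪ P ∧ used φ' (insert v U) q ⊆ used φ U q ∪ Q ∧
      ∀ y ∈ U, y ≠ p → y ≠ q → used φ' (insert v U) y ⊆ used φ U y := by
  have hvp : v ≠ p := fun h => hv (h ▸ hp)
  have hvq : v ≠ q := fun h => hv (h ▸ hq)
  obtain ⟨A, hA⟩ : ∃ A : V → Finset ℕ, A = fun y => if y = p then P else if y = q then Q else ∅ :=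
    ⟨_, rfl⟩
  have hAp : A p = P := by rw [hA]; simp
  have hAq : A q = Q := by rw [hA]; simp [hpq.symm]
  have hA0 : ∀ y, y ≠ p → y ≠ q → A y = ∅ := fun y h1 h2 => by rw [hA]; simp [h1, h2]
  obtain ⟨φ', g1, g2, g3⟩ := extA hφ hv hs hd (A := A) (hA0 v hvp hvq)
    (by
      intro y hy
      by_cases h1 : y = p
      · rw [h1, hAp, hP]
      · by_cases h2 : y = q
        · rw [h2, hAq, hQ]
        · rw [hA0 y h1 h2, h0 y hy h1 h2, Finset.card_empty])
    (by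
      intro y _
      by_cases h1 : y = p
      · rw [h1, hAp]; exact hPk
      · by_cases h2 : y = q
        · rw [h2, hAq]; exact hQk
        · rw [hA0 y h1 h2]; exact Finset.empty_subset _)
    (by
      intro y _ z _ hyz
      by_cases h1 : y = p
      · by_cases h3 : z = q
        · rw [h1, h3, hAp, hAq]; exact hPQ
        · rw [hA0 z (fun h => hyz (h1.trans h.symm)) h3]; exact Finset.disjoint_empty_right _
      · by_cases h2 : y = q
        · by_cases h3 : z = p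
          · rw [h2, h3, hAp, hAq]; exact hPQ.symm
          · rw [hA0 z h3 (fun h => hyz (h2.trans h.symm))]; exact Finset.disjoint_empty_right _
        · rw [hA0 y h1 h2]; exact Finset.disjoint_empty_left _)
    (by
      intro y hy
      by_cases h1 : y = p
      · rw [h1, hAp]; exact hPu
      · by_cases h2 : y = q
        · rw [h2, hAq]; exact hQu
        · rw [hA0 y h1 h2]; exact Finset.disjoint_empty_left _)
  refine ⟨φ', g1, g2.trans ?_, ?_, ?_, ?_⟩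
  · rw [Finset.biUnion_subset]
    intro y _
    by_cases h1 : y = p
    · rw [h1, hAp]; exact Finset.subset_union_left
    · by_cases h2 : y = q
      · rw [h2, hAq]; exact Finset.subset_union_right
      · rw [hA0 y h1 h2]; exact Finset.empty_subset _
  · have := g3 p hp
    rwa [hAp] at this
  · have := g3 q hq
    rwa [hAq] at this
  · intro y hy h1 h2
    have := g3 y hy
    rwa [hA0 y h1 h2, Finset.union_empty] at this

/-- Adding a vertex with at most one neighbour. -/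
theorem ext1 (hφ : Col U μ k φ) {v p : V} (hv : v ∉ U) (hp : p ∈ U)
    (hs : ∀ x y, μ x y = μ y x) (hd : ∀ x, μ x x = 0) {P : Finset ℕ} (hP : #P = μ v p)
    (hPk : P ⊆ range k) (hPu : Disjoint P (used φ U p)) (h0 : ∀ y ∈ U, y ≠ p → μ v y = 0) :
    ∃ φ', Col (insert v U) μ k φ' ∧ used φ' (insert v U) v ⊆ P ∧
      used φ' (insert v U) p ⊆ used φ U p ∪ P := by
  have hvp : v ≠ p := fun h => hv (h ▸ hp)
  obtain ⟨A, hA⟩ : ∃ A : V → Finset ℕ, A = fun y => if y = p then P else ∅ := ⟨_, rfl⟩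
  have hAp : A p = P := by rw [hA]; simp
  have hA0 : ∀ y, y ≠ p → A y = ∅ := fun y h1 => by rw [hA]; simp [h1]
  obtain ⟨φ', g1, g2, g3⟩ := extA hφ hv hs hd (A := A) (hA0 v hvp)
    (by
      intro y hy
      by_cases h1 : y = p
      · rw [h1, hAp, hP]
      · rw [hA0 y h1, h0 y hy h1, Finset.card_empty])
    (by
      intro y _
      by_cases h1 : y = p
      · rw [h1, hAp]; exact hPk
      · rw [hA0 y h1]; exact Finset.empty_subset _)
    (by
      intro y _ z _ hyz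
      by_cases h1 : y = p
      · rw [hA0 z (fun h => hyz (h1.trans h.symm))]; exact Finset.disjoint_empty_right _
      · rw [hA0 y h1]; exact Finset.disjoint_empty_left _)
    (by
      intro y hy
      by_cases h1 : y = p
      · rw [h1, hAp]; exact hPu
      · rw [hA0 y h1]; exact Finset.disjoint_empty_left _)
  refine ⟨φ', g1, g2.trans ?_, ?_⟩
  · rw [Finset.biUnion_subset]
    intro y _
    by_cases h1 : y = p
    · rw [h1, hAp]
    · rw [hA0 y h1]; exact Finset.empty_subset _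
  · have := g3 p hp
    rwa [hAp] at this

/-- Adding an isolated vertex. -/
theorem ext0 (hφ : Col U μ k φ) {v : V} (hv : v ∉ U)
    (hs : ∀ x y, μ x y = μ y x) (hd : ∀ x, μ x x = 0) (h0 : ∀ y ∈ U, μ v y = 0) :
    ∃ φ', Col (insert v U) μ k φ' := by
  obtain ⟨φ', g1, -, -⟩ := extA hφ hv hs hd (A := fun _ => ∅) rfl
    (fun y hy => by rw [h0 y hy, Finset.card_empty]) (fun _ _ => Finset.empty_subset _)
    (fun _ _ _ _ _ => Finset.disjoint_empty_left _) (fun _ _ => Finset.disjoint_empty_left _)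
  exact ⟨φ', g1⟩

/-- Removing colours from one pair. -/
theorem shrink {μ' : V → V → ℕ} (hφ : Col U μ' k φ) {x y : V} {T : Finset ℕ} (hT : T ⊆ φ x y)
    (h1 : μ' x y = μ x y + #T) (h2 : μ' y x = μ y x + #T)
    (h : ∀ u ∈ U, ∀ v ∈ U, ¬(u = x ∧ v = y) → ¬(u = y ∧ v = x) → μ' u v = μ u v)
    (hx : x ∈ U) (hy : y ∈ U) :
    ∃ φ', Col U μ k φ' ∧ Disjoint T (used φ' U x) ∧ Disjoint T (used φ' U y) ∧
      ∀ u ∈ U, used φ' U u ⊆ used φ U u := by
  obtain ⟨φ', hφ'⟩ : ∃ φ' : V → V → Finset ℕ, φ' = fun u v =>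
      if (u = x ∧ v = y) ∨ (u = y ∧ v = x) then φ x y \ T else φ u v := ⟨_, rfl⟩
  have f1 : φ' x y = φ x y \ T := by rw [hφ']; simp
  have f2 : φ' y x = φ x y \ T := by rw [hφ']; simp
  have f3 : ∀ u v, ¬(u = x ∧ v = y) → ¬(u = y ∧ v = x) → φ' u v = φ u v := fun u v g1 g2 => by
    rw [hφ']
    simp [g1, g2]
  have f4 : ∀ u v, φ' u v ⊆ φ u v := by
    intro u v
    by_cases g1 : u = x ∧ v = y
    · rw [g1.1, g1.2, f1]; exact Finset.sdiff_subset
    · by_cases g2 : u = y ∧ v = x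
      · rw [g2.1, g2.2, f2, hφ.symm y x]; exact Finset.sdiff_subset
      · rw [f3 u v g1 g2]
  refine ⟨φ', ⟨?_, ?_, ?_, ?_⟩, ?_, ?_, ?_⟩
  · intro u v
    by_cases g1 : u = x ∧ v = y
    · rw [g1.1, g1.2, f1, f2]
    · by_cases g2 : u = y ∧ v = x
      · rw [g2.1, g2.2, f1, f2]
      · rw [f3 u v g1 g2, f3 v u (fun g => g2 ⟨g.2, g.1⟩) (fun g => g1 ⟨g.2, g.1⟩), hφ.symm]
  · intro u hu v hv
    by_cases g1 : u = x ∧ v = y
    · rw [g1.1, g1.2, f1, Finset.card_sdiff_of_subset hT, hφ.card x hx y hy, h1]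
      omega
    · by_cases g2 : u = y ∧ v = x
      · rw [g2.1, g2.2, f2, Finset.card_sdiff_of_subset hT, hφ.symm, hφ.card y hy x hx, h2]
        omega
      · rw [f3 u v g1 g2, hφ.card u hu v hv, h u hu v hv g1 g2]
  · intro u hu v hv
    exact (f4 u v).trans (hφ.sub u hu v hv)
  · intro u hu v hv w hw hvw
    exact Disjoint.mono (f4 u v) (f4 u w) (hφ.disj u hu v hv w hw hvw)
  · rw [Finset.disjoint_left]
    intro i hi hi'
    obtain ⟨v, hv, hiv⟩ := mem_used.1 hi'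
    by_cases g1 : v = y
    · rw [g1, f1] at hiv
      exact (Finset.mem_sdiff.1 hiv).2 hi
    · exact Finset.disjoint_left.1 (hφ.disj x hx v hv y hy g1) (f4 x v hiv) (hT hi)
  · rw [Finset.disjoint_left]
    intro i hi hi'
    obtain ⟨v, hv, hiv⟩ := mem_used.1 hi'
    by_cases g1 : v = x
    · rw [g1, f2] at hiv
      exact (Finset.mem_sdiff.1 hiv).2 hi
    · refine Finset.disjoint_left.1 (hφ.disj y hy v hv x hx g1) (f4 y v hiv) ?_
      rw [hφ.symm]
      exact hT hi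
  · intro u hu i hi
    obtain ⟨v, hv, hiv⟩ := mem_used.1 hi
    exact mem_used.2 ⟨v, hv, f4 u v hiv⟩

/-- The gadget: the vertex `z` with `a` edges to `x` and `b` edges to `y`, and `t` new edges `x y`.
-/
def gad (μ : V → V → ℕ) (z x y : V) (a b t : ℕ) (u v : V) : ℕ :=
  if u = z then (if v = x then a else if v = y then b else 0)
  else if v = z then (if u = x then a else if u = y then b else 0)
  else if (u = x ∧ v = y) ∨ (u = y ∧ v = x) then μ u v + t else μ u v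

theorem gad_symm (hs : ∀ x y, μ x y = μ y x) {z x y : V} {a b t : ℕ} (u v : V) :
    gad μ z x y a b t u v = gad μ z x y a b t v u := by
  unfold gad
  by_cases h1 : u = z
  · by_cases h2 : v = z
    · rw [h1, h2]
    · simp only [h1, h2, if_true, if_false]
  · by_cases h2 : v = z
    · simp only [h1, h2, if_true, if_false]
    · simp only [h1, h2, if_false]
      by_cases h3 : (u = x ∧ v = y) ∨ (u = y ∧ v = x)
      · have h4 : (v = x ∧ u = y) ∨ (v = y ∧ u = x) := by tauto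
        rw [if_pos h3, if_pos h4, hs]
      · have h4 : ¬((v = x ∧ u = y) ∨ (v = y ∧ u = x)) := by tauto
        rw [if_neg h3, if_neg h4, hs]

theorem gad_diag (hd : ∀ x, μ x x = 0) {z x y : V} {a b t : ℕ} (hzx : z ≠ x) (hzy : z ≠ y)
    (hxy : x ≠ y) (u : V) : gad μ z x y a b t u u = 0 := by
  unfold gad
  by_cases h1 : u = z
  · simp only [h1, if_true, hzx, hzy, if_false]
  · have h3 : ¬((u = x ∧ u = y) ∨ (u = y ∧ u = x)) := by
      rintro (⟨h, h'⟩ | ⟨h, h'⟩)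
      · exact hxy (h.symm.trans h')
      · exact hxy (h'.symm.trans h)
    simp only [h1, if_false, h3, hd]

theorem gad_out {z x y : V} {a b t : ℕ} {u v : V} (hu : u ≠ z) (hv : v ≠ z)
    (h1 : ¬(u = x ∧ v = y)) (h2 : ¬(u = y ∧ v = x)) : gad μ z x y a b t u v = μ u v := by
  unfold gad
  have h3 : ¬((u = x ∧ v = y) ∨ (u = y ∧ v = x)) := by tauto
  simp only [hu, hv, if_false, h3]

/-- The colouring part of the gadget. -/
theorem gad_col {U₀ : Finset V} {z x y : V} (hz : z ∉ U₀) (hx : x ∈ U₀) (hy : y ∈ U₀)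
    (hxy : x ≠ y) (hs : ∀ x y, μ x y = μ y x) {s₁ s₂ lo h : ℕ} (h1 : lo ≤ h) (h2 : h ≤ s₁)
    (h3 : h ≤ s₂) (hdx : dgs μ U₀ x + s₁ ≤ k)
    (hφ : Col (insert z U₀) (gad μ z x y (s₁ - h) (s₂ - lo) lo) k φ) :
    ∃ φ₀ X Y, Col U₀ μ k φ₀ ∧ X ⊆ range k ∧ Y ⊆ range k ∧ #X = s₁ ∧ #Y = s₂ ∧
      Disjoint X (used φ₀ U₀ x) ∧ Disjoint Y (used φ₀ U₀ y) ∧ lo ≤ #(X ∩ Y) ∧ #(X ∩ Y) ≤ h := by
  have hzx : z ≠ x := fun h => hz (h ▸ hx)
  have hzy : z ≠ y := fun h => hz (h ▸ hy)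
  have hxU : x ∈ insert z U₀ := Finset.mem_insert_of_mem hx
  have hyU : y ∈ insert z U₀ := Finset.mem_insert_of_mem hy
  have hzU : z ∈ insert z U₀ := Finset.mem_insert_self _ _
  have gxy : gad μ z x y (s₁ - h) (s₂ - lo) lo x y = μ x y + lo := by
    unfold gad
    simp only [hzx.symm, hzy.symm, if_false, and_self, true_or, if_true]
  have gyx : gad μ z x y (s₁ - h) (s₂ - lo) lo y x = μ y x + lo := by
    rw [gad_symm hs, gxy, hs]
  have gzx : gad μ z x y (s₁ - h) (s₂ - lo) lo z x = s₁ - h := by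
    unfold gad
    simp only [if_true]
  have gzy : gad μ z x y (s₁ - h) (s₂ - lo) lo z y = s₂ - lo := by
    unfold gad
    simp only [if_true, hxy.symm, if_false]
  obtain ⟨T, hT, hTc⟩ := exSub (A := φ x y) (n := lo) (by
    rw [hφ.card x hxU y hyU, gxy]
    omega)
  have hPc : #(φ x z) = s₁ - h := by rw [hφ.symm, hφ.card z hzU x hxU, gzx]
  have hQc : #(φ y z) = s₂ - lo := by rw [hφ.symm, hφ.card z hzU y hyU, gzy]
  -- the degree of `x` in the gadget
  have hdeg : dgs (gad μ z x y (s₁ - h) (s₂ - lo) lo) (insert z U₀) x =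
      (s₁ - h) + (dgs μ U₀ x + lo) := by
    unfold dgs
    rw [Finset.sum_insert hz, gad_symm hs, gzx]
    congr 1
    rw [← Finset.add_sum_erase U₀ _ hy, ← Finset.add_sum_erase U₀ (μ x) hy, gxy]
    have : ∑ v ∈ U₀.erase y, gad μ z x y (s₁ - h) (s₂ - lo) lo x v = ∑ v ∈ U₀.erase y, μ x v := by
      refine Finset.sum_congr rfl fun v hv => ?_
      obtain ⟨hv1, hv2⟩ := Finset.mem_erase.1 hv
      exact gad_out hzx.symm (fun h => hz (h ▸ hv2)) (fun h => hv1 h.2) (fun h => hxy h.1)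
    rw [this]
    ring
  obtain ⟨I, hI, hIc, hId⟩ := avail hφ hxU (n := h - lo) (by rw [hdeg]; omega)
  obtain ⟨φ₀, c0, c1, c2, c3⟩ := shrink (μ := μ) (hφ.mono (Finset.subset_insert z U₀)) hT
    (by rw [gxy, hTc]) (by rw [gyx, hTc])
    (fun u hu v hv g1 g2 => gad_out (fun h => hz (h ▸ hu)) (fun h => hz (h ▸ hv)) g1 g2) hx hy
  have hu1 : ∀ u ∈ U₀, used φ U₀ u ⊆ used φ (insert z U₀) u := fun u _ =>
    Finset.biUnion_subset_biUnion_of_subset_left _ (Finset.subset_insert z U₀)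
  have dP : Disjoint (φ x z) (used φ U₀ x) := by
    rw [Finset.disjoint_left]
    intro i hi hi'
    obtain ⟨v, hv, hiv⟩ := mem_used.1 hi'
    exact Finset.disjoint_left.1 (hφ.disj x hxU z hzU v (Finset.mem_insert_of_mem hv)
      (fun h => hz (h ▸ hv))) hi hiv
  have dQ : Disjoint (φ y z) (used φ U₀ y) := by
    rw [Finset.disjoint_left]
    intro i hi hi'
    obtain ⟨v, hv, hiv⟩ := mem_used.1 hi'
    exact Finset.disjoint_left.1 (hφ.disj y hyU z hzU v (Finset.mem_insert_of_mem hv)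
      (fun h => hz (h ▸ hv))) hi hiv
  have dTP : Disjoint T (φ x z) := by
    rw [Finset.disjoint_left]
    intro i hi hi'
    exact Finset.disjoint_left.1 (hφ.disj x hxU z hzU y hyU hzy) hi' (hT hi)
  have dTQ : Disjoint T (φ y z) := by
    rw [Finset.disjoint_left]
    intro i hi hi'
    refine Finset.disjoint_left.1 (hφ.disj y hyU z hzU x hxU hzx) hi' ?_
    rw [hφ.symm]
    exact hT hi
  have dPQ : Disjoint (φ x z) (φ y z) := by
    rw [hφ.symm x z, hφ.symm y z]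
    exact hφ.disj z hzU x hxU y hyU hxy
  have dIT : Disjoint I T := by
    rw [Finset.disjoint_left]
    intro i hi hi'
    exact Finset.disjoint_left.1 hId hi (mem_used.2 ⟨y, hyU, hT hi'⟩)
  have dIP : Disjoint I (φ x z) := by
    rw [Finset.disjoint_left]
    intro i hi hi'
    exact Finset.disjoint_left.1 hId hi (mem_used.2 ⟨z, hzU, hi'⟩)
  refine ⟨φ₀, T ∪ φ x z ∪ I, T ∪ φ y z, c0, ?_, ?_, ?_, ?_, ?_, ?_, ?_, ?_⟩
  · exact Finset.union_subset (Finset.union_subset (hT.trans (hφ.sub x hxU y hyU))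
      (hφ.sub x hxU z hzU)) hI
  · exact Finset.union_subset (hT.trans (hφ.sub x hxU y hyU)) (hφ.sub y hyU z hzU)
  · rw [Finset.card_union_of_disjoint, Finset.card_union_of_disjoint dTP, hTc, hPc, hIc]
    · omega
    · rw [Finset.disjoint_union_left]
      exact ⟨dIT.symm, dIP.symm⟩
  · rw [Finset.card_union_of_disjoint dTQ, hTc, hQc]
    omega
  · rw [Finset.disjoint_union_left, Finset.disjoint_union_left]
    exact ⟨⟨c1, Finset.disjoint_of_subset_right (c3 x hx) dP⟩,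
      Finset.disjoint_of_subset_right ((c3 x hx).trans (hu1 x hx)) hId⟩
  · rw [Finset.disjoint_union_left]
    exact ⟨c2, Finset.disjoint_of_subset_right (c3 y hy) dQ⟩
  · rw [← hTc]
    refine Finset.card_le_card fun i hi => Finset.mem_inter.2 ⟨?_, ?_⟩
    · exact Finset.mem_union_left _ (Finset.mem_union_left _ hi)
    · exact Finset.mem_union_left _ hi
  · have h4 : (T ∪ φ x z ∪ I) ∩ (T ∪ φ y z) ⊆ T ∪ I := by
      intro i hi
      obtain ⟨h5, h6⟩ := Finset.mem_inter.1 hi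
      simp only [Finset.mem_union] at h5 h6 ⊢
      rcases h5 with (h5 | h5) | h5
      · exact Or.inl h5
      · rcases h6 with h6 | h6
        · exact Or.inl h6
        · exact absurd h6 (Finset.disjoint_left.1 dPQ h5)
      · exact Or.inr h5
    refine (Finset.card_le_card h4).trans ?_
    refine (Finset.card_union_le _ _).trans ?_
    omega

end Pool.Agent.MP27a405.SP
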