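import Pool.Agent.MP27a405.SPA

/-!
# MP_27a405_co: series-parallel multigraphs, part B: the reductions
-/

namespace Pool.Agent.MP27a405.SP

open Finset

set_option linter.unusedSectionVars false

variable {V : Type} [DecidableEq V]

/-- Twice the number of edges inside `S`. -/
def ein (μ : V → V → ℕ) (S : Finset V) : ℕ := ∑ x ∈ S, dgs μ S x

/-- The two necessary conditions for a proper edge colouring with `k` colours. -/
structure GoodOn (U : Finset V) (μ : V → V → ℕ) (k : ℕ) : Prop where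
  deg : ∀ v ∈ U, dgs μ U v ≤ k
  odd : ∀ S ⊆ U, Odd #S → ein μ S + k ≤ k * #S

variable {U U₀ S : Finset V} {μ : V → V → ℕ} {k : ℕ}

theorem dgs_insert {v : V} (h : v ∉ S) (x : V) : dgs μ (insert v S) x = μ x v + dgs μ S x := by
  unfold dgs
  rw [Finset.sum_insert h]

theorem dgs_mono {S T : Finset V} (h : S ⊆ T) (x : V) : dgs μ S x ≤ dgs μ T x := by
  unfold dgs
  exact Finset.sum_le_sum_of_subset h

theorem ein_insert (hs : ∀ x y, μ x y = μ y x) (hd : ∀ x, μ x x = 0) {v : V} (h : v ∉ S) :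
    ein μ (insert v S) = ein μ S + 2 * dgs μ S v := by
  unfold ein
  rw [Finset.sum_insert h, dgs_insert h, hd]
  have : ∑ x ∈ S, dgs μ (insert v S) x = ∑ x ∈ S, (μ v x + dgs μ S x) := by
    refine Finset.sum_congr rfl fun x _ => ?_
    rw [dgs_insert h, hs]
  rw [this, Finset.sum_add_distrib]
  unfold dgs
  ring

theorem dgs_two {v p q : V} (hpq : p ≠ q) (h0 : ∀ y ∈ S, y ≠ p → y ≠ q → μ v y = 0) :
    dgs μ S v = (if p ∈ S then μ v p else 0) + (if q ∈ S then μ v q else 0) := by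
  unfold dgs
  have : ∑ y ∈ S, μ v y = ∑ y ∈ S, ((if y = p then μ v p else 0) + (if y = q then μ v q else 0)) := by
    refine Finset.sum_congr rfl fun y hy => ?_
    by_cases h1 : y = p
    · have h2 : y ≠ q := fun h => hpq (h1.symm.trans h)
      simp [h1, hpq]
    · by_cases h2 : y = q
      · simp [h2, hpq.symm]
      · simp [h1, h2, h0 y hy h1 h2]
  rw [this, Finset.sum_add_distrib, Finset.sum_ite_eq', Finset.sum_ite_eq']

theorem GoodOn.mono (h : GoodOn U μ k) (hU : U₀ ⊆ U) : GoodOn U₀ μ k :=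
  ⟨fun v hv => (dgs_mono hU v).trans (h.deg v (hU hv)), fun S hS => h.odd S (hS.trans hU)⟩

theorem even_bd (hs : ∀ x y, μ x y = μ y x) (hd : ∀ x, μ x x = 0) (hG : GoodOn U μ k)
    (hS : S ⊆ U) (he : Even #S) {x : V} (hx : x ∈ S) {s : ℕ} (hdx : dgs μ U x + s ≤ k) :
    ein μ S + 2 * s ≤ k * #S := by
  have h1 := ein_insert hs hd (Finset.notMem_erase x S)
  rw [Finset.insert_erase hx] at h1
  have h2 : #(S.erase x) + 1 = #S := Finset.card_erase_add_one hx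
  have h3 : Odd #(S.erase x) := by
    rw [← h2, Nat.even_add_one, Nat.not_even_iff_odd] at he
    exact he
  have h4 := hG.odd (S.erase x) ((Finset.erase_subset x S).trans hS) h3
  have h5 := dgs_mono (μ := μ) ((Finset.erase_subset x S).trans hS) x
  have h6 : k * #S = k * #(S.erase x) + k := by rw [← h2]; ring
  omega

theorem even_bd0 (hs : ∀ x y, μ x y = μ y x) (hd : ∀ x, μ x x = 0) (hG : GoodOn U μ k)
    (hS : S ⊆ U) (he : Even #S) : ein μ S ≤ k * #S := by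
  rcases Finset.eq_empty_or_nonempty S with h | ⟨x, hx⟩
  · rw [h]
    simp [ein]
  · have := even_bd hs hd hG hS he hx (s := 0) (by simpa using hG.deg x (hS hx))
    simpa using this

theorem odd_bd2 (hs : ∀ x y, μ x y = μ y x) (hd : ∀ x, μ x x = 0) (hG : GoodOn U μ k)
    (hS : S ⊆ U) (ho : Odd #S) {x y : V} (hx : x ∈ S) (hy : y ∈ S) (hxy : x ≠ y) {s₁ s₂ : ℕ}
    (hdx : dgs μ U x + s₁ ≤ k) (hdy : dgs μ U y + s₂ ≤ k) :
    ein μ S + 2 * (s₁ + s₂) ≤ k * #S + k := by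
  have h1 := ein_insert hs hd (Finset.notMem_erase x S)
  rw [Finset.insert_erase hx] at h1
  have h2 : #(S.erase x) + 1 = #S := Finset.card_erase_add_one hx
  have h3 : Even #(S.erase x) := by
    rw [← h2, Nat.odd_add_one, Nat.not_odd_iff_even] at ho
    exact ho
  have h4 := even_bd hs hd hG ((Finset.erase_subset x S).trans hS) h3
    (Finset.mem_erase.2 ⟨hxy.symm, hy⟩) hdy
  have h5 := dgs_mono (μ := μ) ((Finset.erase_subset x S).trans hS) x
  have h6 : k * #S = k * #(S.erase x) + k := by rw [← h2]; ring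
  omega

/-! ### The gadget -/

theorem gad_in {z x y : V} {a b t : ℕ} (hxy : x ≠ y) {u v : V} (hu : u ≠ z) (hv : v ≠ z) :
    gad μ z x y a b t u v = μ u v + ((if u = x then (if v = y then t else 0) else 0) +
      (if u = y then (if v = x then t else 0) else 0)) := by
  unfold gad
  simp only [hu, hv, if_false]
  by_cases h1 : u = x
  · have h2 : ¬ u = y := fun h => hxy (h1.symm.trans h)
    by_cases h3 : v = y
    · simp [h1, h3, hxy]
    · simp [h1, h3, hxy]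
  · by_cases h2 : u = y
    · by_cases h3 : v = x
      · simp [h2, h3, hxy.symm]
      · simp [h2, h3, hxy.symm]
    · simp [h1, h2]

theorem gad_dgs {z x y : V} {a b t : ℕ} (hxy : x ≠ y) (hz : z ∉ S) {u : V} (hu : u ≠ z) :
    dgs (gad μ z x y a b t) S u = dgs μ S u +
      ((if u = x then (if y ∈ S then t else 0) else 0) +
        (if u = y then (if x ∈ S then t else 0) else 0)) := by
  unfold dgs
  have : ∑ v ∈ S, gad μ z x y a b t u v = ∑ v ∈ S, (μ u v +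
      ((if u = x then (if v = y then t else 0) else 0) +
      (if u = y then (if v = x then t else 0) else 0))) :=
    Finset.sum_congr rfl fun v hv => gad_in hxy hu (fun h => hz (h ▸ hv))
  rw [this, Finset.sum_add_distrib, Finset.sum_add_distrib]
  congr 2
  · by_cases h : u = x
    · simp [h]
    · simp [h]
  · by_cases h : u = y
    · simp [h]
    · simp [h]

theorem gad_ein {z x y : V} {a b t : ℕ} (hxy : x ≠ y) (hz : z ∉ S) :
    ein (gad μ z x y a b t) S = ein μ S + (if x ∈ S ∧ y ∈ S then 2 * t else 0) := by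
  unfold ein
  have : ∑ u ∈ S, dgs (gad μ z x y a b t) S u = ∑ u ∈ S, (dgs μ S u +
      ((if u = x then (if y ∈ S then t else 0) else 0) +
        (if u = y then (if x ∈ S then t else 0) else 0))) :=
    Finset.sum_congr rfl fun u hu => gad_dgs hxy hz (fun h => hz (h ▸ hu))
  rw [this, Finset.sum_add_distrib, Finset.sum_add_distrib, Finset.sum_ite_eq',
    Finset.sum_ite_eq']
  congr 1
  by_cases h1 : x ∈ S <;> by_cases h2 : y ∈ S <;> simp [h1, h2]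
  ring

theorem gad_z {z x y : V} {a b t : ℕ} (hxy : x ≠ y) :
    dgs (gad μ z x y a b t) S z = (if x ∈ S then a else 0) + (if y ∈ S then b else 0) := by
  have h1 : gad μ z x y a b t z x = a := by
    unfold gad
    simp
  have h2 : gad μ z x y a b t z y = b := by
    unfold gad
    simp [hxy.symm]
  rw [dgs_two hxy, h1, h2]
  intro v _ h3 h4
  unfold gad
  simp [h3, h4]

/-- The gadget satisfies the necessary conditions. -/
theorem good_gad {z x y : V} (hz : z ∉ U₀) (hx : x ∈ U₀) (hy : y ∈ U₀) (hxy : x ≠ y)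
    (hs : ∀ x y, μ x y = μ y x) (hd : ∀ x, μ x x = 0) (hG : GoodOn U₀ μ k) {s₁ s₂ lo hi : ℕ}
    (h12 : lo ≤ hi) (h1 : lo ≤ s₁) (h2 : lo ≤ s₂) (hdx : dgs μ U₀ x + s₁ ≤ k)
    (hdy : dgs μ U₀ y + s₂ ≤ k)
    (h3 : ∀ S ⊆ U₀, x ∈ S → y ∈ S → Odd #S → ein μ S + 2 * lo + k ≤ k * #S)
    (h4 : ∀ S ⊆ U₀, x ∈ S → y ∈ S → Even #S → ein μ S + 2 * (s₁ + s₂) ≤ k * #S + 2 * hi)
    (h5 : s₁ + s₂ ≤ k + hi + lo) :
    ∃ h, lo ≤ h ∧ h ≤ s₁ ∧ h ≤ s₂ ∧ h ≤ hi ∧
      GoodOn (insert z U₀) (gad μ z x y (s₁ - h) (s₂ - lo) lo) k := by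
  obtain ⟨h, a1, a2, a3, a4, a5⟩ : ∃ h, lo ≤ h ∧ h ≤ s₁ ∧ h ≤ s₂ ∧ h ≤ hi ∧
      (h = hi ∨ h = s₁ ∨ h = s₂) := by
    refine ⟨min hi (min s₁ s₂), by omega, by omega, by omega, by omega, by omega⟩
  refine ⟨h, a1, a2, a3, a4, ?_, ?_⟩
  · intro v hv
    have hz' : ∀ w ∈ U₀, w ≠ z := fun w hw h => hz (h ▸ hw)
    rcases Finset.mem_insert.1 hv with rfl | hv'
    · rw [dgs_insert hz, gad_diag hd (hz' x hx).symm (hz' y hy).symm hxy, gad_z hxy, if_pos hx,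
        if_pos hy]
      rcases a5 with a5 | a5 | a5 <;> omega
    · rw [dgs_insert hz, gad_dgs hxy hz (hz' v hv'), if_pos hx, if_pos hy]
      by_cases hvx : v = x
      · have hvy : ¬ v = y := fun h => hxy (hvx.symm.trans h)
        rw [if_pos hvx, if_neg hvy]
        have e : gad μ z x y (s₁ - h) (s₂ - lo) lo v z = s₁ - h := by
          rw [hvx]
          unfold gad
          simp [hz' x hx]
        rw [e, hvx]
        omega
      · by_cases hvy : v = y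
        · rw [if_neg hvx, if_pos hvy]
          have e : gad μ z x y (s₁ - h) (s₂ - lo) lo v z = s₂ - lo := by
            rw [hvy]
            unfold gad
            simp [hz' y hy, hxy.symm]
          rw [e, hvy]
          omega
        · rw [if_neg hvx, if_neg hvy]
          have e : gad μ z x y (s₁ - h) (s₂ - lo) lo v z = 0 := by
            unfold gad
            simp [hz' v hv', hvx, hvy]
          have := hG.deg v hv'
          rw [e]
          omega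
  · intro S hS ho
    by_cases hzS : z ∈ S
    · -- `S = insert z T`
      obtain ⟨T, hT⟩ : ∃ T, T = S.erase z := ⟨_, rfl⟩
      have hzT : z ∉ T := by rw [hT]; exact Finset.notMem_erase z S
      have hST : S = insert z T := by rw [hT, Finset.insert_erase hzS]
      have hTU : T ⊆ U₀ := by
        intro w hw
        have hw' : w ∈ S := by rw [hST]; exact Finset.mem_insert_of_mem hw
        rcases Finset.mem_insert.1 (hS hw') with h | h
        · exact absurd (h ▸ hw) hzT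
        · exact h
      have hc : #S = #T + 1 := by rw [hST, Finset.card_insert_of_notMem hzT]
      have hTe : Even #T := by
        rw [hc, Nat.odd_add_one, Nat.not_odd_iff_even] at ho
        exact ho
      have hz' : ∀ w ∈ U₀, w ≠ z := fun w hw h => hz (h ▸ hw)
      rw [hST, ein_insert (gad_symm hs)
        (gad_diag hd (hz' x hx).symm (hz' y hy).symm hxy) hzT, gad_ein hxy hzT, gad_z hxy,
        Finset.card_insert_of_notMem hzT]
      have e : k * (#T + 1) = k * #T + k := by ring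
      rw [e]
      by_cases hxT : x ∈ T <;> by_cases hyT : y ∈ T
      · rw [if_pos ⟨hxT, hyT⟩, if_pos hxT, if_pos hyT]
        have b1 := h4 T hTU hxT hyT hTe
        have b2 := even_bd hs hd hG hTU hTe hxT hdx
        have b3 := even_bd hs hd hG hTU hTe hyT hdy
        rcases a5 with a5 | a5 | a5 <;> omega
      · rw [if_neg (fun h => hyT h.2), if_pos hxT, if_neg hyT]
        have b2 := even_bd hs hd hG hTU hTe hxT hdx
        omega
      · rw [if_neg (fun h => hxT h.1), if_neg hxT, if_pos hyT]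
        have b3 := even_bd hs hd hG hTU hTe hyT hdy
        omega
      · rw [if_neg (fun h => hxT h.1), if_neg hxT, if_neg hyT]
        have b4 := even_bd0 hs hd hG hTU hTe
        omega
    · have hSU : S ⊆ U₀ := by
        intro w hw
        rcases Finset.mem_insert.1 (hS hw) with h | h
        · exact absurd (h ▸ hw) hzS
        · exact h
      rw [gad_ein hxy hzS]
      by_cases h6 : x ∈ S ∧ y ∈ S
      · rw [if_pos h6]
        exact h3 S hSU h6.1 h6.2 ho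
      · rw [if_neg h6]
        exact hG.odd S hSU ho

/-- The numerical part of the reduction of a vertex with two ears. -/
theorem numD {k e₁ e₂ f₁ f₂ g₁ g₂ m₁ m₂ : ℕ} (hW : e₁ + e₂ + f₁ + f₂ ≤ k) (d1 : f₁ + g₁ ≤ k)
    (d2 : f₂ + g₂ ≤ k) (t1 : e₁ + f₁ + g₁ ≤ k) (t2 : e₂ + f₂ + g₂ ≤ k)
    (hm₁ : m₁ = f₂ + e₁ + e₂ + g₂ - k) (hm₂ : m₂ = f₁ + e₁ + e₂ + g₁ - k) :
    m₁ + m₂ ≤ g₁ + g₂ ∧ m₁ + m₂ + (f₁ + f₂) ≤ k ∧ m₁ + m₂ ≤ e₁ + g₁ ∧ m₁ + m₂ ≤ e₂ + g₂ ∧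
      (m₁ + m₂ = 0 ∨ m₁ + m₂ + k = f₂ + e₁ + e₂ + g₂ ∨ m₁ + m₂ + k = f₁ + e₁ + e₂ + g₁ ∨
        m₁ + m₂ + k ≤ e₁ + g₁ + (e₂ + g₂)) := by
  refine ⟨?_, ?_, ?_, ?_, ?_⟩ <;> omega

/-- The colour sets for a vertex with two ears. -/
theorem coreD {w x y : V} (hw : w ∉ U₀) (hx : x ∈ U₀) (hy : y ∈ U₀) (hxy : x ≠ y)
    (hs : ∀ x y, μ x y = μ y x) (hd : ∀ x, μ x x = 0) (hG : GoodOn U₀ μ k)
    {e₁ e₂ f₁ f₂ g₁ g₂ : ℕ} (hW : e₁ + e₂ + f₁ + f₂ ≤ k) (d1 : f₁ + g₁ ≤ k)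
    (d2 : f₂ + g₂ ≤ k) (t1 : e₁ + f₁ + g₁ ≤ k) (t2 : e₂ + f₂ + g₂ ≤ k)
    (hdx : dgs μ U₀ x + (e₁ + g₁) ≤ k) (hdy : dgs μ U₀ y + (e₂ + g₂) ≤ k)
    (A1 : ∀ S ⊆ U₀, x ∈ S → y ∈ S → Odd #S →
      ein μ S + 2 * (f₁ + e₁ + e₂ + g₁) ≤ k * #S + k)
    (A2 : ∀ S ⊆ U₀, x ∈ S → y ∈ S → Odd #S →
      ein μ S + 2 * (f₂ + e₁ + e₂ + g₂) ≤ k * #S + k)
    (B1 : ∀ S ⊆ U₀, x ∈ S → y ∈ S → Even #S → ein μ S + 2 * (e₁ + e₂) ≤ k * #S)
    (B2 : ∀ S ⊆ U₀, x ∈ S → y ∈ S → Even #S →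
      ein μ S + 2 * (e₁ + g₁ + (e₂ + g₂) + (f₁ + f₂)) ≤ k * #S + 2 * k)
    (IH : ∀ a b t, GoodOn (insert w U₀) (gad μ w x y a b t) k →
      ∃ φ, Col (insert w U₀) (gad μ w x y a b t) k φ) :
    ∃ φ₀ E₁ E₂ F₁ F₂ G₁ G₂, Col U₀ μ k φ₀ ∧ (E₁ ⊆ range k ∧ E₂ ⊆ range k ∧ F₁ ⊆ range k ∧
      F₂ ⊆ range k ∧ G₁ ⊆ range k ∧ G₂ ⊆ range k) ∧ (#E₁ = e₁ ∧ #E₂ = e₂ ∧ #F₁ = f₁ ∧
      #F₂ = f₂ ∧ #G₁ = g₁ ∧ #G₂ = g₂) ∧ (Disjoint E₁ E₂ ∧ Disjoint E₁ G₁ ∧ Disjoint E₂ G₂) ∧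
      (Disjoint F₁ E₁ ∧ Disjoint F₁ E₂ ∧ Disjoint F₁ G₁) ∧
      (Disjoint F₂ E₁ ∧ Disjoint F₂ E₂ ∧ Disjoint F₂ G₂) ∧ Disjoint F₁ F₂ ∧
      (Disjoint E₁ (used φ₀ U₀ x) ∧ Disjoint G₁ (used φ₀ U₀ x)) ∧
      (Disjoint E₂ (used φ₀ U₀ y) ∧ Disjoint G₂ (used φ₀ U₀ y)) := by
  obtain ⟨m₁, hm₁⟩ : ∃ m₁, m₁ = f₂ + e₁ + e₂ + g₂ - k := ⟨_, rfl⟩
  obtain ⟨m₂, hm₂⟩ : ∃ m₂, m₂ = f₁ + e₁ + e₂ + g₁ - k := ⟨_, rfl⟩
  obtain ⟨n1, n2, n3, n4, n5⟩ := numD hW d1 d2 t1 t2 hm₁ hm₂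
  obtain ⟨hi, hhi1, hhi2, hhi3⟩ : ∃ hi, hi ≤ g₁ + g₂ ∧ hi + (f₁ + f₂) ≤ k ∧
      (hi = g₁ + g₂ ∨ hi + (f₁ + f₂) = k) := by
    by_cases h : g₁ + g₂ + (f₁ + f₂) ≤ k
    · exact ⟨g₁ + g₂, le_rfl, h, Or.inl rfl⟩
    · exact ⟨k - (f₁ + f₂), by omega, by omega, Or.inr (by omega)⟩
  have hlohi : m₁ + m₂ ≤ hi := by
    rcases hhi3 with h | h <;> omega
  obtain ⟨h, a1, a2, a3, a4, hGg⟩ := good_gad hw hx hy hxy hs hd hG (s₁ := e₁ + g₁)
    (s₂ := e₂ + g₂) (lo := m₁ + m₂) (hi := hi) hlohi n3 n4 hdx hdy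
    (by
      intro S hS hxS hyS ho
      have b0 := hG.odd S hS ho
      have b1 := A1 S hS hxS hyS ho
      have b2 := A2 S hS hxS hyS ho
      have b3 := odd_bd2 hs hd hG hS ho hxS hyS hxy hdx hdy
      rcases n5 with n5 | n5 | n5 | n5 <;> omega)
    (by
      intro S hS hxS hyS he
      have b1 := B1 S hS hxS hyS he
      have b2 := B2 S hS hxS hyS he
      rcases hhi3 with h | h <;> omega)
    (by rcases hhi3 with h | h <;> omega)
  obtain ⟨φ, hφ⟩ := IH _ _ _ hGg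
  obtain ⟨φ₀, X, Y, c0, c1, c2, c3, c4, c5, c6, c7, c8⟩ := gad_col hw hx hy hxy hs a1 a2 a3 hdx hφ
  obtain ⟨E₁, hE₁, E₂, hE₂, F₁, hF₁, F₂, hF₂, q1, q2, q3, q4, q5, q6, q7, q8⟩ :=
    innerD c1 c2 c3 c4 hW t1 t2 (by rw [← hm₁, ← hm₂]; exact c7) (c8.trans (a4.trans hhi1))
      (by omega)
  refine ⟨φ₀, E₁, E₂, F₁, F₂, X \ E₁, Y \ E₂, c0,
    ⟨hE₁.trans c1, hE₂.trans c2, hF₁, hF₂, Finset.sdiff_subset.trans c1,
      Finset.sdiff_subset.trans c2⟩, ⟨q1, q2, q3, q4, ?_, ?_⟩,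
    ⟨q5, Finset.disjoint_sdiff, Finset.disjoint_sdiff⟩, ⟨?_, ?_, ?_⟩, ⟨?_, ?_, ?_⟩, q8,
    ⟨?_, ?_⟩, ⟨?_, ?_⟩⟩
  · rw [Finset.card_sdiff_of_subset hE₁, c3, q1]
    omega
  · rw [Finset.card_sdiff_of_subset hE₂, c4, q2]
    omega
  · exact Finset.disjoint_of_subset_right (hE₁.trans Finset.subset_union_left) q6
  · exact Finset.disjoint_of_subset_right Finset.subset_union_right q6
  · exact Finset.disjoint_of_subset_right (Finset.sdiff_subset.trans Finset.subset_union_left) q6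
  · exact Finset.disjoint_of_subset_right Finset.subset_union_right q7
  · exact Finset.disjoint_of_subset_right (hE₂.trans Finset.subset_union_left) q7
  · exact Finset.disjoint_of_subset_right (Finset.sdiff_subset.trans Finset.subset_union_left) q7
  · exact Finset.disjoint_of_subset_left hE₁ c5
  · exact Finset.disjoint_of_subset_left Finset.sdiff_subset c5
  · exact Finset.disjoint_of_subset_left hE₂ c6
  · exact Finset.disjoint_of_subset_left Finset.sdiff_subset c6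

end Pool.Agent.MP27a405.SP
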