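import Pool.Agent.MP27a405.SPB

/-!
# MP_27a405_co: series-parallel multigraphs, part C: extension of colourings
-/

namespace Pool.Agent.MP27a405.SP

open Finset

set_option linter.unusedSectionVars false

variable {V : Type} [DecidableEq V]

variable {U U₀ S : Finset V} {μ : V → V → ℕ} {k : ℕ}

theorem dgs_one {v p : V} (h0 : ∀ y ∈ S, y ≠ p → μ v y = 0) :
    dgs μ S v = if p ∈ S then μ v p else 0 := by
  unfold dgs
  have : ∑ y ∈ S, μ v y = ∑ y ∈ S, (if y = p then μ v p else 0) := by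
    refine Finset.sum_congr rfl fun y hy => ?_
    by_cases h1 : y = p
    · simp [h1]
    · simp [h1, h0 y hy h1]
  rw [this, Finset.sum_ite_eq']

/-- An isolated vertex. -/
theorem red0 {v : V} (hv : v ∉ U₀) (hs : ∀ x y, μ x y = μ y x) (hd : ∀ x, μ x x = 0)
    (h0 : ∀ y ∈ U₀, μ v y = 0) (IH : ∃ φ, Col U₀ μ k φ) : ∃ φ, Col (insert v U₀) μ k φ := by
  obtain ⟨φ, hφ⟩ := IH
  exact ext0 hφ hv hs hd h0

/-- A pendant vertex. -/
theorem red1 {v p : V} (hv : v ∉ U₀) (hp : p ∈ U₀) (hs : ∀ x y, μ x y = μ y x)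
    (hd : ∀ x, μ x x = 0) (hG : GoodOn (insert v U₀) μ k)
    (h0 : ∀ y ∈ U₀, y ≠ p → μ v y = 0) (IH : ∃ φ, Col U₀ μ k φ) :
    ∃ φ, Col (insert v U₀) μ k φ := by
  obtain ⟨φ, hφ⟩ := IH
  have h1 := hG.deg p (Finset.mem_insert_of_mem hp)
  rw [dgs_insert hv, hs] at h1
  obtain ⟨P, hP, hPc, hPd⟩ := avail hφ hp (n := μ v p) (by omega)
  obtain ⟨φ', h2, -, -⟩ := ext1 hφ hv hp hs hd hPc hP hPd h0
  exact ⟨φ', h2⟩

/-- A triangle at a cut vertex. -/
theorem redT {v w x : V} (hw : w ∉ U₀) (hv : v ∉ insert w U₀) (hx : x ∈ U₀)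
    (hs : ∀ x y, μ x y = μ y x) (hd : ∀ x, μ x x = 0) (hG : GoodOn (insert v (insert w U₀)) μ k)
    (hv0 : ∀ y ∈ U₀, y ≠ x → μ v y = 0) (hw0 : ∀ y ∈ U₀, y ≠ x → μ w y = 0)
    (IH : ∃ φ, Col U₀ μ k φ) : ∃ φ, Col (insert v (insert w U₀)) μ k φ := by
  obtain ⟨φ, hφ⟩ := IH
  have hwx : w ≠ x := fun h => hw (h ▸ hx)
  have hvw : v ≠ w := fun h => hv (h ▸ Finset.mem_insert_self _ _)
  have hvx : v ≠ x := fun h => hv (h ▸ Finset.mem_insert_of_mem hx)
  have h1 := hG.deg x (Finset.mem_insert_of_mem (Finset.mem_insert_of_mem hx))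
  rw [dgs_insert hv, dgs_insert hw, hs x v, hs x w] at h1
  -- the triangle
  have hwS : w ∉ ({x} : Finset V) := by
    rw [Finset.mem_singleton]; exact hwx
  have hvS : v ∉ insert w ({x} : Finset V) := by
    rw [Finset.mem_insert, Finset.mem_singleton]
    rintro (h | h)
    · exact hvw h
    · exact hvx h
  have hc : #(insert v (insert w ({x} : Finset V))) = 3 := by
    rw [Finset.card_insert_of_notMem hvS, Finset.card_insert_of_notMem hwS,
      Finset.card_singleton]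
  have h2 := hG.odd (insert v (insert w {x})) (by
    apply Finset.insert_subset_insert
    apply Finset.insert_subset_insert
    exact Finset.singleton_subset_iff.2 hx) (by rw [hc]; decide)
  rw [ein_insert hs hd hvS, ein_insert hs hd hwS, dgs_insert hwS, hc] at h2
  have h3 : ein μ {x} = 0 := by
    unfold ein dgs
    simp [hd]
  have h4 : dgs μ {x} w = μ w x := by
    unfold dgs
    simp
  have h5 : dgs μ {x} v = μ v x := by
    unfold dgs
    simp
  rw [h3, h4, h5] at h2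
  obtain ⟨N, hN, hNc, hNd⟩ := avail hφ hx (n := μ w x + μ v x) (by omega)
  obtain ⟨D, hD, hDc⟩ := exSub (A := N) (n := μ w x) (by omega)
  have hAc : #(N \ D) = μ v x := by
    rw [Finset.card_sdiff_of_subset hD, hNc, hDc]
    omega
  have hBa : μ v w ≤ #(range k \ N) := by
    rw [Finset.card_sdiff_of_subset hN, hNc, Finset.card_range]
    omega
  obtain ⟨B, hB, hBc⟩ := exSub hBa
  obtain ⟨φ₁, c1, c2, c3⟩ := ext1 hφ hw hx hs hd hDc (hD.trans hN)
    (Finset.disjoint_of_subset_left hD hNd) hw0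
  have hBN : Disjoint B N := Finset.disjoint_of_subset_left hB Finset.sdiff_disjoint
  obtain ⟨φ₂, c4, -⟩ := ext2 c1 hv (Finset.mem_insert_self w U₀) (Finset.mem_insert_of_mem hx) hwx
    hs hd hBc hAc (hB.trans Finset.sdiff_subset) (Finset.sdiff_subset.trans hN)
    (Finset.disjoint_of_subset_right Finset.sdiff_subset hBN)
    (Finset.disjoint_of_subset_right (c2.trans hD) hBN)
    (by
      refine Finset.disjoint_of_subset_right c3 ?_
      rw [Finset.disjoint_union_right]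
      exact ⟨Finset.disjoint_of_subset_left Finset.sdiff_subset hNd, Finset.sdiff_disjoint⟩)
    (by
      intro y hy h6 h7
      rcases Finset.mem_insert.1 hy with h | h
      · exact absurd h h6
      · exact hv0 y h h7)
  exact ⟨φ₂, c4⟩

/-- Twins: two vertices with neighbours in `{x, y}`. -/
theorem redB {u v x y : V} (hv : v ∉ U₀) (hu : u ∉ insert v U₀) (hx : x ∈ U₀) (hy : y ∈ U₀)
    (hxy : x ≠ y) (hs : ∀ x y, μ x y = μ y x) (hd : ∀ x, μ x x = 0)
    (hG : GoodOn (insert u (insert v U₀)) μ k) (huv : μ u v = 0)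
    (hu0 : ∀ z ∈ U₀, z ≠ x → z ≠ y → μ u z = 0) (hv0 : ∀ z ∈ U₀, z ≠ x → z ≠ y → μ v z = 0)
    (IH : ∀ a b, GoodOn (insert u U₀) (gad μ u x y a b 0) k →
      ∃ φ, Col (insert u U₀) (gad μ u x y a b 0) k φ) :
    ∃ φ, Col (insert u (insert v U₀)) μ k φ := by
  have hu' : u ∉ U₀ := fun h => hu (Finset.mem_insert_of_mem h)
  have hG0 : GoodOn U₀ μ k :=
    hG.mono ((Finset.subset_insert v U₀).trans (Finset.subset_insert u _))
  obtain ⟨a, ha⟩ : ∃ a, a = μ u x := ⟨_, rfl⟩
  obtain ⟨b, hb⟩ : ∃ b, b = μ u y := ⟨_, rfl⟩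
  obtain ⟨c, hc⟩ : ∃ c, c = μ v x := ⟨_, rfl⟩
  obtain ⟨d, hd'⟩ : ∃ d, d = μ v y := ⟨_, rfl⟩
  have hdx := hG.deg x (Finset.mem_insert_of_mem (Finset.mem_insert_of_mem hx))
  rw [dgs_insert hu, dgs_insert hv, hs x u, hs x v, ← ha, ← hc] at hdx
  have hdy := hG.deg y (Finset.mem_insert_of_mem (Finset.mem_insert_of_mem hy))
  rw [dgs_insert hu, dgs_insert hv, hs y u, hs y v, ← hb, ← hd'] at hdy
  have du : ∀ S ⊆ U₀, x ∈ S → y ∈ S → dgs μ S u = a + b := by
    intro S hS hxS hyS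
    rw [dgs_two hxy (fun z hz => hu0 z (hS hz)), if_pos hxS, if_pos hyS, ha, hb]
  have dv : ∀ S ⊆ U₀, x ∈ S → y ∈ S → dgs μ S v = c + d := by
    intro S hS hxS hyS
    rw [dgs_two hxy (fun z hz => hv0 z (hS hz)), if_pos hxS, if_pos hyS, hc, hd']
  have hdu := hG.deg u (Finset.mem_insert_self _ _)
  rw [dgs_insert hu, dgs_insert hv, hd, huv, du U₀ subset_rfl hx hy] at hdu
  have hdv := hG.deg v (Finset.mem_insert_of_mem (Finset.mem_insert_self _ _))
  rw [dgs_insert hu, dgs_insert hv, hd, hs v u, huv, dv U₀ subset_rfl hx hy] at hdv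
  obtain ⟨h, a1, a2, a3, a4, hGg⟩ := good_gad hu' hx hy hxy hs hd hG0 (s₁ := a + c)
    (s₂ := b + d) (lo := 0) (hi := min a d + min b c) (by omega) (by omega) (by omega)
    (by omega) (by omega)
    (by
      intro S hS hxS hyS ho
      have b0 := hG0.odd S hS ho
      omega)
    (by
      intro S hS hxS hyS he
      have huS : u ∉ S := fun h => hu' (hS h)
      have hvS : v ∉ S := fun h => hv (hS h)
      have b1 := hG.odd (insert u S) (Finset.insert_subset_insert _
        (hS.trans (Finset.subset_insert _ _)))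
        (by rw [Finset.card_insert_of_notMem huS, Nat.odd_add_one, Nat.not_odd_iff_even]; exact he)
      rw [ein_insert hs hd huS, du S hS hxS hyS, Finset.card_insert_of_notMem huS] at b1
      have b2 := hG.odd (insert v S) ((Finset.insert_subset_insert _ hS).trans
        (Finset.subset_insert _ _))
        (by rw [Finset.card_insert_of_notMem hvS, Nat.odd_add_one, Nat.not_odd_iff_even]; exact he)
      rw [ein_insert hs hd hvS, dv S hS hxS hyS, Finset.card_insert_of_notMem hvS] at b2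
      have b3 := even_bd hs hd hG0 hS he hxS (s := a + c) (by omega)
      have b4 := even_bd hs hd hG0 hS he hyS (s := b + d) (by omega)
      have e : k * (#S + 1) = k * #S + k := by ring
      rw [e] at b1 b2
      rcases le_total a d with h1 | h1 <;> rcases le_total b c with h2 | h2
      · rw [min_eq_left h1, min_eq_left h2]; omega
      · rw [min_eq_left h1, min_eq_right h2]; omega
      · rw [min_eq_right h1, min_eq_left h2]; omega
      · rw [min_eq_right h1, min_eq_right h2]; omega)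
    (by
      rcases le_total a d with h1 | h1 <;> rcases le_total b c with h2 | h2
      · rw [min_eq_left h1, min_eq_left h2]; omega
      · rw [min_eq_left h1, min_eq_right h2]; omega
      · rw [min_eq_right h1, min_eq_left h2]; omega
      · rw [min_eq_right h1, min_eq_right h2]; omega)
  obtain ⟨φ, hφ⟩ := IH _ _ hGg
  obtain ⟨φ₀, X, Y, c0, c1, c2, c3, c4, c5, c6, -, c8⟩ :=
    gad_col hu' hx hy hxy hs a1 a2 a3 (by omega) hφ
  obtain ⟨A, hA, D, hD, q1, q2, q3, q4⟩ := innerB c3 c4 (c8.trans a4)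
  -- add `v`
  have hCc : #(X \ A) = c := by
    rw [Finset.card_sdiff_of_subset hA, c3, q1]
    omega
  have hBc : #(Y \ D) = b := by
    rw [Finset.card_sdiff_of_subset hD, c4, q2]
    omega
  obtain ⟨φ₁, e1, -, e3, e4, -⟩ := ext2 c0 hv hx hy hxy hs hd (hCc.trans hc) (q2.trans hd')
    (Finset.sdiff_subset.trans c1) (hD.trans c2) q4
    (Finset.disjoint_of_subset_left Finset.sdiff_subset c5)
    (Finset.disjoint_of_subset_left hD c6) hv0
  obtain ⟨φ₂, e5, -⟩ := ext2 e1 hu (Finset.mem_insert_of_mem hx) (Finset.mem_insert_of_mem hy) hxy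
    hs hd (q1.trans ha) (hBc.trans hb) (hA.trans c1) (Finset.sdiff_subset.trans c2) q3
    (by
      refine Finset.disjoint_of_subset_right e3 ?_
      rw [Finset.disjoint_union_right]
      exact ⟨Finset.disjoint_of_subset_left hA c5, Finset.disjoint_sdiff⟩)
    (by
      refine Finset.disjoint_of_subset_right e4 ?_
      rw [Finset.disjoint_union_right]
      exact ⟨Finset.disjoint_of_subset_left Finset.sdiff_subset c6, Finset.sdiff_disjoint⟩)
    (by
      intro z hz h1 h2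
      rcases Finset.mem_insert.1 hz with h3 | h3
      · rw [h3]; exact huv
      · exact hu0 z h3 h1 h2)
  exact ⟨φ₂, e5⟩

/-- One ear at a vertex with two further neighbours. -/
theorem redC {v w x y : V} (hw : w ∉ U₀) (hv : v ∉ insert w U₀) (hx : x ∈ U₀) (hy : y ∈ U₀)
    (hxy : x ≠ y) (hs : ∀ x y, μ x y = μ y x) (hd : ∀ x, μ x x = 0)
    (hG : GoodOn (insert v (insert w U₀)) μ k)
    (hv0 : ∀ z ∈ U₀, z ≠ x → μ v z = 0) (hw0 : ∀ z ∈ U₀, z ≠ x → z ≠ y → μ w z = 0)
    (IH : ∀ a b t, GoodOn (insert w U₀) (gad μ w x y a b t) k →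
      ∃ φ, Col (insert w U₀) (gad μ w x y a b t) k φ) :
    ∃ φ, Col (insert v (insert w U₀)) μ k φ := by
  have hwx : w ≠ x := fun h => hw (h ▸ hx)
  have hwy : w ≠ y := fun h => hw (h ▸ hy)
  have hvU : v ∉ U₀ := fun h => hv (Finset.mem_insert_of_mem h)
  have hG1 : GoodOn (insert w U₀) μ k := hG.mono (Finset.subset_insert v _)
  have hG0 : GoodOn U₀ μ k := hG1.mono (Finset.subset_insert w _)
  have dw : ∀ S ⊆ U₀, x ∈ S → y ∈ S → dgs μ S w = μ w x + μ w y := by
    intro S hS hxS hyS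
    rw [dgs_two hxy (fun z hz => hw0 z (hS hz)), if_pos hxS, if_pos hyS]
  have dv : ∀ S ⊆ U₀, x ∈ S → dgs μ S v = μ v x := by
    intro S hS hxS
    rw [dgs_one (fun z hz => hv0 z (hS hz)), if_pos hxS]
  have hdw := hG.deg w (Finset.mem_insert_of_mem (Finset.mem_insert_self _ _))
  rw [dgs_insert hv, dgs_insert hw, hd, dw U₀ subset_rfl hx hy, hs w v] at hdw
  have hdv := hG.deg v (Finset.mem_insert_self _ _)
  rw [dgs_insert hv, dgs_insert hw, hd, dv U₀ subset_rfl hx] at hdv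
  have hdx := hG.deg x (Finset.mem_insert_of_mem (Finset.mem_insert_of_mem hx))
  rw [dgs_insert hv, dgs_insert hw, hs x v, hs x w] at hdx
  have hdy := hG.deg y (Finset.mem_insert_of_mem (Finset.mem_insert_of_mem hy))
  rw [dgs_insert hv, dgs_insert hw, hs y v, hs y w, hv0 y hy hxy.symm] at hdy
  have hwS : ∀ S ⊆ U₀, w ∉ S := fun S hS h => hw (hS h)
  have hvS : ∀ S ⊆ U₀, v ∉ insert w S := fun S hS h =>
    hv (Finset.insert_subset_insert _ hS h)
  have ein1 : ∀ S ⊆ U₀, ein μ (insert w S) = ein μ S + 2 * dgs μ S w := fun S hS =>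
    ein_insert hs hd (hwS S hS)
  have ein2 : ∀ S ⊆ U₀, ein μ (insert v (insert w S)) =
      ein μ S + 2 * dgs μ S w + 2 * (μ v w + dgs μ S v) := fun S hS => by
    rw [ein_insert hs hd (hvS S hS), ein1 S hS, dgs_insert (hwS S hS)]
  have c1 : ∀ S ⊆ U₀, #(insert w S) = #S + 1 := fun S hS =>
    Finset.card_insert_of_notMem (hwS S hS)
  have c2 : ∀ S ⊆ U₀, #(insert v (insert w S)) = #S + 2 := fun S hS => by
    rw [Finset.card_insert_of_notMem (hvS S hS), c1 S hS]
  have m1 : ∀ S ⊆ U₀, insert w S ⊆ insert w U₀ := fun S hS => Finset.insert_subset_insert _ hS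
  have m2 : ∀ S ⊆ U₀, insert v (insert w S) ⊆ insert v (insert w U₀) := fun S hS =>
    Finset.insert_subset_insert _ (m1 S hS)
  -- the triangle
  have ht : μ w x + μ v w + μ v x ≤ k := by
    have hS : ({x} : Finset V) ⊆ U₀ := Finset.singleton_subset_iff.2 hx
    have h2 := hG.odd _ (m2 _ hS) (by rw [c2 _ hS, Finset.card_singleton]; decide)
    rw [ein2 _ hS, c2 _ hS, Finset.card_singleton] at h2
    have h4 : dgs μ {x} w = μ w x := by
      unfold dgs
      simp
    have h5 : dgs μ {x} v = μ v x := by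
      unfold dgs
      simp
    rw [h4, h5] at h2
    omega
  obtain ⟨φ₀, E₁, E₂, F₁, F₂, G₁, G₂, b0, ⟨s1, s2, s3, -, s5, -⟩, ⟨n1, n2, n3, -, n5, n6⟩,
    ⟨d1, d2, -⟩, ⟨d4, d5, d6⟩, -, -, ⟨u1, u2⟩, ⟨u3, -⟩⟩ :=
    coreD hw hx hy hxy hs hd hG0 (e₁ := μ w x) (e₂ := μ w y) (f₁ := μ v w) (f₂ := 0)
      (g₁ := μ v x) (g₂ := 0) (by omega) (by omega) (by omega) (by omega) (by omega) (by omega)
      (by omega)
      (by
        intro S hS hxS hyS ho
        have h1 := hG.odd _ (m2 S hS) (by rw [c2 S hS]; exact ho.add_even (by decide))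
        rw [ein2 S hS, c2 S hS, dw S hS hxS hyS, dv S hS hxS] at h1
        have e : k * (#S + 2) = k * #S + 2 * k := by ring
        rw [e] at h1
        omega)
      (by
        intro S hS hxS hyS ho
        have h1 := even_bd0 hs hd hG1 (m1 S hS) (by rw [c1 S hS]; exact ho.add_one)
        rw [ein1 S hS, c1 S hS, dw S hS hxS hyS] at h1
        have e : k * (#S + 1) = k * #S + k := by ring
        rw [e] at h1
        omega)
      (by
        intro S hS hxS hyS he
        have h1 := hG1.odd _ (m1 S hS) (by rw [c1 S hS]; exact he.add_one)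
        rw [ein1 S hS, c1 S hS, dw S hS hxS hyS] at h1
        have e : k * (#S + 1) = k * #S + k := by ring
        rw [e] at h1
        omega)
      (by
        intro S hS hxS hyS he
        have h1 := even_bd0 hs hd hG (m2 S hS) (by rw [c2 S hS]; exact he.add (by decide))
        rw [ein2 S hS, c2 S hS, dw S hS hxS hyS, dv S hS hxS] at h1
        have e : k * (#S + 2) = k * #S + 2 * k := by ring
        rw [e] at h1
        omega)
      IH
  obtain ⟨φ₁, e1, e2, e3, e4, -⟩ := ext2 b0 hw hx hy hxy hs hd n1 n2 s1 s2 d1 u1 u3 hw0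
  obtain ⟨φ₂, e5, -⟩ := ext2 e1 hv (Finset.mem_insert_self w U₀) (Finset.mem_insert_of_mem hx)
    hwx hs hd n3 n5 s3 s5 d6
    (by
      refine Finset.disjoint_of_subset_right e2 ?_
      rw [Finset.disjoint_union_right]
      exact ⟨d4, d5⟩)
    (by
      refine Finset.disjoint_of_subset_right e3 ?_
      rw [Finset.disjoint_union_right]
      exact ⟨u2, d2.symm⟩)
    (by
      intro z hz h1 h2
      rcases Finset.mem_insert.1 hz with h3 | h3
      · exact absurd h3 h1
      · exact hv0 z h3 h2)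
  exact ⟨φ₂, e5⟩

/-- Two ears. -/
theorem redD {v₁ v₂ w x y : V} (hw : w ∉ U₀) (hv₁ : v₁ ∉ insert w U₀)
    (hv₂ : v₂ ∉ insert v₁ (insert w U₀)) (hx : x ∈ U₀) (hy : y ∈ U₀)
    (hxy : x ≠ y) (hs : ∀ x y, μ x y = μ y x) (hd : ∀ x, μ x x = 0)
    (hG : GoodOn (insert v₂ (insert v₁ (insert w U₀))) μ k) (h12 : μ v₁ v₂ = 0)
    (hv₁0 : ∀ z ∈ U₀, z ≠ x → μ v₁ z = 0) (hv₂0 : ∀ z ∈ U₀, z ≠ y → μ v₂ z = 0)
    (hw0 : ∀ z ∈ U₀, z ≠ x → z ≠ y → μ w z = 0)
    (IH : ∀ a b t, GoodOn (insert w U₀) (gad μ w x y a b t) k →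
      ∃ φ, Col (insert w U₀) (gad μ w x y a b t) k φ) :
    ∃ φ, Col (insert v₂ (insert v₁ (insert w U₀))) μ k φ := by
  have hwx : w ≠ x := fun h => hw (h ▸ hx)
  have hwy : w ≠ y := fun h => hw (h ▸ hy)
  have hv₂w : v₂ ∉ insert w U₀ := fun h => hv₂ (Finset.mem_insert_of_mem h)
  have hG2 : GoodOn (insert v₁ (insert w U₀)) μ k := hG.mono (Finset.subset_insert v₂ _)
  have hG1 : GoodOn (insert w U₀) μ k := hG2.mono (Finset.subset_insert v₁ _)
  have hG0 : GoodOn U₀ μ k := hG1.mono (Finset.subset_insert w _)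
  have h21 : μ v₂ v₁ = 0 := by rw [hs]; exact h12
  have dw : ∀ S ⊆ U₀, x ∈ S → y ∈ S → dgs μ S w = μ w x + μ w y := by
    intro S hS hxS hyS
    rw [dgs_two hxy (fun z hz => hw0 z (hS hz)), if_pos hxS, if_pos hyS]
  have dv₁ : ∀ S ⊆ U₀, x ∈ S → dgs μ S v₁ = μ v₁ x := by
    intro S hS hxS
    rw [dgs_one (fun z hz => hv₁0 z (hS hz)), if_pos hxS]
  have dv₂ : ∀ S ⊆ U₀, y ∈ S → dgs μ S v₂ = μ v₂ y := by
    intro S hS hyS
    rw [dgs_one (fun z hz => hv₂0 z (hS hz)), if_pos hyS]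
  have hdw := hG.deg w (Finset.mem_insert_of_mem (Finset.mem_insert_of_mem
    (Finset.mem_insert_self _ _)))
  rw [dgs_insert hv₂, dgs_insert hv₁, dgs_insert hw, hd, dw U₀ subset_rfl hx hy, hs w v₁,
    hs w v₂] at hdw
  have hdv₁ := hG.deg v₁ (Finset.mem_insert_of_mem (Finset.mem_insert_self _ _))
  rw [dgs_insert hv₂, dgs_insert hv₁, dgs_insert hw, hd, dv₁ U₀ subset_rfl hx, h12] at hdv₁
  have hdv₂ := hG.deg v₂ (Finset.mem_insert_self _ _)
  rw [dgs_insert hv₂, dgs_insert hv₁, dgs_insert hw, hd, dv₂ U₀ subset_rfl hy, h21] at hdv₂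
  have hdx := hG.deg x (Finset.mem_insert_of_mem (Finset.mem_insert_of_mem
    (Finset.mem_insert_of_mem hx)))
  rw [dgs_insert hv₂, dgs_insert hv₁, dgs_insert hw, hs x v₁, hs x v₂, hs x w,
    hv₂0 x hx hxy] at hdx
  have hdy := hG.deg y (Finset.mem_insert_of_mem (Finset.mem_insert_of_mem
    (Finset.mem_insert_of_mem hy)))
  rw [dgs_insert hv₂, dgs_insert hv₁, dgs_insert hw, hs y v₁, hs y v₂, hs y w,
    hv₁0 y hy hxy.symm] at hdy
  have hwS : ∀ S ⊆ U₀, w ∉ S := fun S hS h => hw (hS h)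
  have hv₁S : ∀ S ⊆ U₀, v₁ ∉ insert w S := fun S hS h =>
    hv₁ (Finset.insert_subset_insert _ hS h)
  have hv₂S : ∀ S ⊆ U₀, v₂ ∉ insert w S := fun S hS h =>
    hv₂w (Finset.insert_subset_insert _ hS h)
  have hv₂S' : ∀ S ⊆ U₀, v₂ ∉ insert v₁ (insert w S) := fun S hS h =>
    hv₂ (Finset.insert_subset_insert _ (Finset.insert_subset_insert _ hS) h)
  have ein1 : ∀ S ⊆ U₀, ein μ (insert w S) = ein μ S + 2 * dgs μ S w := fun S hS =>
    ein_insert hs hd (hwS S hS)
  have ein2 : ∀ S ⊆ U₀, ein μ (insert v₁ (insert w S)) =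
      ein μ S + 2 * dgs μ S w + 2 * (μ v₁ w + dgs μ S v₁) := fun S hS => by
    rw [ein_insert hs hd (hv₁S S hS), ein1 S hS, dgs_insert (hwS S hS)]
  have ein3 : ∀ S ⊆ U₀, ein μ (insert v₂ (insert w S)) =
      ein μ S + 2 * dgs μ S w + 2 * (μ v₂ w + dgs μ S v₂) := fun S hS => by
    rw [ein_insert hs hd (hv₂S S hS), ein1 S hS, dgs_insert (hwS S hS)]
  have ein4 : ∀ S ⊆ U₀, ein μ (insert v₂ (insert v₁ (insert w S))) =
      ein μ S + 2 * dgs μ S w + 2 * (μ v₁ w + dgs μ S v₁) + 2 * (μ v₂ w + dgs μ S v₂) :=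
    fun S hS => by
    rw [ein_insert hs hd (hv₂S' S hS), ein2 S hS, dgs_insert (hv₁S S hS), dgs_insert (hwS S hS),
      h21, Nat.zero_add]
  have c1 : ∀ S ⊆ U₀, #(insert w S) = #S + 1 := fun S hS =>
    Finset.card_insert_of_notMem (hwS S hS)
  have c2 : ∀ S ⊆ U₀, #(insert v₁ (insert w S)) = #S + 2 := fun S hS => by
    rw [Finset.card_insert_of_notMem (hv₁S S hS), c1 S hS]
  have c3 : ∀ S ⊆ U₀, #(insert v₂ (insert w S)) = #S + 2 := fun S hS => by
    rw [Finset.card_insert_of_notMem (hv₂S S hS), c1 S hS]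
  have c4 : ∀ S ⊆ U₀, #(insert v₂ (insert v₁ (insert w S))) = #S + 3 := fun S hS => by
    rw [Finset.card_insert_of_notMem (hv₂S' S hS), c2 S hS]
  have m1 : ∀ S ⊆ U₀, insert w S ⊆ insert w U₀ := fun S hS => Finset.insert_subset_insert _ hS
  have m2 : ∀ S ⊆ U₀, insert v₁ (insert w S) ⊆ insert v₁ (insert w U₀) := fun S hS =>
    Finset.insert_subset_insert _ (m1 S hS)
  have m4 : ∀ S ⊆ U₀, insert v₂ (insert v₁ (insert w S)) ⊆ insert v₂ (insert v₁ (insert w U₀)) :=
    fun S hS => Finset.insert_subset_insert _ (m2 S hS)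
  have m3 : ∀ S ⊆ U₀, insert v₂ (insert w S) ⊆ insert v₂ (insert v₁ (insert w U₀)) :=
    fun S hS => (Finset.insert_subset_insert _ (Finset.subset_insert _ _)).trans (m4 S hS)
  -- the triangles
  have ht1 : μ w x + μ v₁ w + μ v₁ x ≤ k := by
    have hS : ({x} : Finset V) ⊆ U₀ := Finset.singleton_subset_iff.2 hx
    have h2 := hG2.odd _ (m2 _ hS) (by rw [c2 _ hS, Finset.card_singleton]; decide)
    rw [ein2 _ hS, c2 _ hS, Finset.card_singleton] at h2
    have h4 : dgs μ {x} w = μ w x := by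
      unfold dgs
      simp
    have h5 : dgs μ {x} v₁ = μ v₁ x := by
      unfold dgs
      simp
    rw [h4, h5] at h2
    omega
  have ht2 : μ w y + μ v₂ w + μ v₂ y ≤ k := by
    have hS : ({y} : Finset V) ⊆ U₀ := Finset.singleton_subset_iff.2 hy
    have h2 := hG.odd _ (m3 _ hS) (by rw [c3 _ hS, Finset.card_singleton]; decide)
    rw [ein3 _ hS, c3 _ hS, Finset.card_singleton] at h2
    have h4 : dgs μ {y} w = μ w y := by
      unfold dgs
      simp
    have h5 : dgs μ {y} v₂ = μ v₂ y := by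
      unfold dgs
      simp
    rw [h4, h5] at h2
    omega
  obtain ⟨φ₀, E₁, E₂, F₁, F₂, G₁, G₂, b0, ⟨s1, s2, s3, s4, s5, s6⟩, ⟨n1, n2, n3, n4, n5, n6⟩,
    ⟨d1, d2, d3⟩, ⟨d4, d5, d6⟩, ⟨d7, d8, d9⟩, d10, ⟨u1, u2⟩, ⟨u3, u4⟩⟩ :=
    coreD hw hx hy hxy hs hd hG0 (e₁ := μ w x) (e₂ := μ w y) (f₁ := μ v₁ w) (f₂ := μ v₂ w)
      (g₁ := μ v₁ x) (g₂ := μ v₂ y) (by omega) (by omega) (by omega) (by omega) (by omega)
      (by omega) (by omega)
      (by
        intro S hS hxS hyS ho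
        have h1 := hG2.odd _ (m2 S hS) (by rw [c2 S hS]; exact ho.add_even (by decide))
        rw [ein2 S hS, c2 S hS, dw S hS hxS hyS, dv₁ S hS hxS] at h1
        have e : k * (#S + 2) = k * #S + 2 * k := by ring
        rw [e] at h1
        omega)
      (by
        intro S hS hxS hyS ho
        have h1 := hG.odd _ (m3 S hS) (by rw [c3 S hS]; exact ho.add_even (by decide))
        rw [ein3 S hS, c3 S hS, dw S hS hxS hyS, dv₂ S hS hyS] at h1
        have e : k * (#S + 2) = k * #S + 2 * k := by ring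
        rw [e] at h1
        omega)
      (by
        intro S hS hxS hyS he
        have h1 := hG1.odd _ (m1 S hS) (by rw [c1 S hS]; exact he.add_one)
        rw [ein1 S hS, c1 S hS, dw S hS hxS hyS] at h1
        have e : k * (#S + 1) = k * #S + k := by ring
        rw [e] at h1
        omega)
      (by
        intro S hS hxS hyS he
        have h1 := hG.odd _ (m4 S hS) (by rw [c4 S hS]; exact he.add_odd (by decide))
        rw [ein4 S hS, c4 S hS, dw S hS hxS hyS, dv₁ S hS hxS, dv₂ S hS hyS] at h1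
        have e : k * (#S + 3) = k * #S + 3 * k := by ring
        rw [e] at h1
        omega)
      IH
  obtain ⟨φ₁, e1, e2, e3, e4, -⟩ := ext2 b0 hw hx hy hxy hs hd n1 n2 s1 s2 d1 u1 u3 hw0
  obtain ⟨φ₂, e5, -, e7, e8, e9⟩ := ext2 e1 hv₁ (Finset.mem_insert_self w U₀)
    (Finset.mem_insert_of_mem hx) hwx hs hd n3 n5 s3 s5 d6
    (by
      refine Finset.disjoint_of_subset_right e2 ?_
      rw [Finset.disjoint_union_right]
      exact ⟨d4, d5⟩)
    (by
      refine Finset.disjoint_of_subset_right e3 ?_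
      rw [Finset.disjoint_union_right]
      exact ⟨u2, d2.symm⟩)
    (by
      intro z hz h1 h2
      rcases Finset.mem_insert.1 hz with h3 | h3
      · exact absurd h3 h1
      · exact hv₁0 z h3 h2)
  obtain ⟨φ₃, e10, -⟩ := ext2 e5 hv₂ (Finset.mem_insert_of_mem (Finset.mem_insert_self w U₀))
    (Finset.mem_insert_of_mem (Finset.mem_insert_of_mem hy)) hwy hs hd n4 n6 s4 s6 d9
    (by
      refine Finset.disjoint_of_subset_right e7 ?_
      rw [Finset.disjoint_union_right]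
      refine ⟨Finset.disjoint_of_subset_right e2 ?_, d10.symm⟩
      rw [Finset.disjoint_union_right]
      exact ⟨d7, d8⟩)
    (by
      refine Finset.disjoint_of_subset_right
        ((e9 y (Finset.mem_insert_of_mem hy) hwy.symm hxy.symm).trans e4) ?_
      rw [Finset.disjoint_union_right]
      exact ⟨u4, d3.symm⟩)
    (by
      intro z hz h1 h2
      rcases Finset.mem_insert.1 hz with h3 | h3
      · rw [h3]; exact h21
      · rcases Finset.mem_insert.1 h3 with h4 | h4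
        · exact absurd h4 h1
        · exact hv₂0 z h4 h2)
  exact ⟨φ₃, e10⟩

end Pool.Agent.MP27a405.SP
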