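import Pool.Agent.MP27a405.SPC

/-!
# MP_27a405_co: series-parallel multigraphs, part D: structure and induction
-/

namespace Pool.Agent.MP27a405.SP

open Finset

set_option linter.unusedSectionVars false

variable {V : Type} [DecidableEq V]

/-- `r` is an elimination order of the graph `H`: every vertex has at most two later neighbours,
and they are adjacent. -/
structure TT (r : V → ℕ) (H : V → V → Prop) : Prop where
  inj : Function.Injective r
  symm : ∀ x y, H x y → H y x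
  clique : ∀ v x y, r v < r x → r v < r y → x ≠ y → H v x → H v y → H x y
  two : ∀ v x y z, r v < r x → r v < r y → r v < r z → H v x → H v y → H v z →
    x = y ∨ x = z ∨ y = z

variable {U : Finset V} {μ : V → V → ℕ} {k : ℕ} {H : V → V → Prop} {r : V → ℕ}

theorem gad_sup {z x y : V} {a b t : ℕ} (hsup : ∀ x ∈ U, ∀ y ∈ U, μ x y ≠ 0 → H x y)
    (hH : ∀ x y, H x y → H y x) (hzx : H z x) (hzy : H z y) (ht : t = 0 ∨ H x y) {U' : Finset V}
    (hU : U' ⊆ U) : ∀ u ∈ U', ∀ v ∈ U', gad μ z x y a b t u v ≠ 0 → H u v := by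
  intro u hu v hv h
  unfold gad at h
  by_cases h1 : u = z
  · rw [if_pos h1] at h
    rw [h1]
    by_cases h2 : v = x
    · rw [h2]; exact hzx
    · rw [if_neg h2] at h
      by_cases h3 : v = y
      · rw [h3]; exact hzy
      · rw [if_neg h3] at h
        exact absurd rfl h
  · rw [if_neg h1] at h
    by_cases h1' : v = z
    · rw [if_pos h1'] at h
      rw [h1']
      by_cases h2 : u = x
      · rw [h2]; exact hH _ _ hzx
      · rw [if_neg h2] at h
        by_cases h3 : u = y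
        · rw [h3]; exact hH _ _ hzy
        · rw [if_neg h3] at h
          exact absurd rfl h
    · rw [if_neg h1'] at h
      by_cases h2 : (u = x ∧ v = y) ∨ (u = y ∧ v = x)
      · rw [if_pos h2] at h
        rcases ht with ht | ht
        · rw [ht, Nat.add_zero] at h
          exact hsup u (hU hu) v (hU hv) h
        · rcases h2 with ⟨h3, h4⟩ | ⟨h3, h4⟩
          · rw [h3, h4]; exact ht
          · rw [h3, h4]; exact hH _ _ ht
      · rw [if_neg h2] at h
        exact hsup u (hU hu) v (hU hv) h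

theorem ins2 {u v : V} (hu : u ∈ U) (hv : v ∈ U) (huv : u ≠ v) :
    U = insert v (insert u ((U.erase v).erase u)) := by
  rw [Finset.insert_erase (Finset.mem_erase.2 ⟨huv, hu⟩), Finset.insert_erase hv]

theorem useT {v w x : V} (hv : v ∈ U) (hw : w ∈ U) (hx : x ∈ U) (hvw : v ≠ w) (hvx : v ≠ x)
    (hwx : w ≠ x) (hs : ∀ x y, μ x y = μ y x) (hd : ∀ x, μ x x = 0) (hG : GoodOn U μ k)
    (hv0 : ∀ y ∈ U, y ≠ w → y ≠ x → μ v y = 0) (hw0 : ∀ y ∈ U, y ≠ v → y ≠ x → μ w y = 0)
    (IH : ∃ φ, Col ((U.erase v).erase w) μ k φ) : ∃ φ, Col U μ k φ := by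
  have hU := ins2 hw hv hvw.symm
  have h1 : ∀ y ∈ (U.erase v).erase w, y ∈ U ∧ y ≠ v ∧ y ≠ w := fun y hy =>
    ⟨Finset.mem_of_mem_erase (Finset.mem_of_mem_erase hy),
      Finset.ne_of_mem_erase (Finset.mem_of_mem_erase hy), Finset.ne_of_mem_erase hy⟩
  rw [hU] at hG
  obtain ⟨φ, hφ⟩ := redT (Finset.notMem_erase w _)
    (by rw [Finset.insert_erase (Finset.mem_erase.2 ⟨hvw.symm, hw⟩)]; exact Finset.notMem_erase v _)
    (Finset.mem_erase.2 ⟨hwx.symm, Finset.mem_erase.2 ⟨hvx.symm, hx⟩⟩) hs hd hG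
    (fun y hy h => hv0 y (h1 y hy).1 (h1 y hy).2.2 h)
    (fun y hy h => hw0 y (h1 y hy).1 (h1 y hy).2.1 h) IH
  exact ⟨φ, by rw [hU]; exact hφ⟩

theorem useB {u v x y : V} (hu : u ∈ U) (hv : v ∈ U) (hx : x ∈ U) (hy : y ∈ U) (huv : u ≠ v)
    (hux : u ≠ x) (huy : u ≠ y) (hvx : v ≠ x) (hvy : v ≠ y) (hxy : x ≠ y)
    (hs : ∀ x y, μ x y = μ y x) (hd : ∀ x, μ x x = 0) (hG : GoodOn U μ k)
    (hu0 : ∀ z ∈ U, z ≠ x → z ≠ y → μ u z = 0) (hv0 : ∀ z ∈ U, z ≠ x → z ≠ y → μ v z = 0)
    (IH : ∀ a b, GoodOn (U.erase v) (gad μ u x y a b 0) k →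
      ∃ φ, Col (U.erase v) (gad μ u x y a b 0) k φ) : ∃ φ, Col U μ k φ := by
  have hU := ins2 hv hu huv.symm
  have h1 : ∀ y ∈ (U.erase u).erase v, y ∈ U := fun y hy =>
    Finset.mem_of_mem_erase (Finset.mem_of_mem_erase hy)
  have h2 : insert u ((U.erase u).erase v) = U.erase v := by
    rw [Finset.erase_right_comm, Finset.insert_erase (Finset.mem_erase.2 ⟨huv, hu⟩)]
  rw [← h2] at IH
  rw [hU] at hG
  obtain ⟨φ, hφ⟩ := redB (Finset.notMem_erase v _)
    (by rw [Finset.insert_erase (Finset.mem_erase.2 ⟨huv.symm, hv⟩)]; exact Finset.notMem_erase u _)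
    (Finset.mem_erase.2 ⟨hvx.symm, Finset.mem_erase.2 ⟨hux.symm, hx⟩⟩)
    (Finset.mem_erase.2 ⟨hvy.symm, Finset.mem_erase.2 ⟨huy.symm, hy⟩⟩) hxy hs hd hG
    (hu0 v hv hvx hvy) (fun z hz => hu0 z (h1 z hz)) (fun z hz => hv0 z (h1 z hz)) IH
  exact ⟨φ, by rw [hU]; exact hφ⟩

theorem useC {v w x y : V} (hv : v ∈ U) (hw : w ∈ U) (hx : x ∈ U) (hy : y ∈ U) (hvw : v ≠ w)
    (hvx : v ≠ x) (hvy : v ≠ y) (hwx : w ≠ x) (hwy : w ≠ y) (hxy : x ≠ y)
    (hs : ∀ x y, μ x y = μ y x) (hd : ∀ x, μ x x = 0) (hG : GoodOn U μ k)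
    (hv0 : ∀ z ∈ U, z ≠ w → z ≠ x → μ v z = 0)
    (hw0 : ∀ z ∈ U, z ≠ v → z ≠ x → z ≠ y → μ w z = 0)
    (IH : ∀ a b t, GoodOn (U.erase v) (gad μ w x y a b t) k →
      ∃ φ, Col (U.erase v) (gad μ w x y a b t) k φ) : ∃ φ, Col U μ k φ := by
  have hU := ins2 hw hv hvw.symm
  have h1 : ∀ y ∈ (U.erase v).erase w, y ∈ U ∧ y ≠ v ∧ y ≠ w := fun y hy =>
    ⟨Finset.mem_of_mem_erase (Finset.mem_of_mem_erase hy),
      Finset.ne_of_mem_erase (Finset.mem_of_mem_erase hy), Finset.ne_of_mem_erase hy⟩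
  have h2 : insert w ((U.erase v).erase w) = U.erase v :=
    Finset.insert_erase (Finset.mem_erase.2 ⟨hvw.symm, hw⟩)
  rw [← h2] at IH
  rw [hU] at hG
  obtain ⟨φ, hφ⟩ := redC (Finset.notMem_erase w _)
    (by rw [h2]; exact Finset.notMem_erase v _)
    (Finset.mem_erase.2 ⟨hwx.symm, Finset.mem_erase.2 ⟨hvx.symm, hx⟩⟩)
    (Finset.mem_erase.2 ⟨hwy.symm, Finset.mem_erase.2 ⟨hvy.symm, hy⟩⟩) hxy hs hd hG
    (fun z hz h => hv0 z (h1 z hz).1 (h1 z hz).2.2 h)
    (fun z hz h h' => hw0 z (h1 z hz).1 (h1 z hz).2.1 h h') IH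
  exact ⟨φ, by rw [hU]; exact hφ⟩

theorem useD {v₁ v₂ w x y : V} (hv₁ : v₁ ∈ U) (hv₂ : v₂ ∈ U) (hw : w ∈ U) (hx : x ∈ U)
    (hy : y ∈ U) (hvv : v₁ ≠ v₂) (hv₁w : v₁ ≠ w) (hv₂w : v₂ ≠ w) (hv₁x : v₁ ≠ x) (hv₁y : v₁ ≠ y)
    (hv₂x : v₂ ≠ x) (hv₂y : v₂ ≠ y) (hwx : w ≠ x) (hwy : w ≠ y) (hxy : x ≠ y)
    (hs : ∀ x y, μ x y = μ y x) (hd : ∀ x, μ x x = 0) (hG : GoodOn U μ k)
    (hv₁0 : ∀ z ∈ U, z ≠ w → z ≠ x → μ v₁ z = 0) (hv₂0 : ∀ z ∈ U, z ≠ w → z ≠ y → μ v₂ z = 0)
    (hw0 : ∀ z ∈ U, z ≠ v₁ → z ≠ v₂ → z ≠ x → z ≠ y → μ w z = 0)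
    (IH : ∀ a b t, GoodOn ((U.erase v₂).erase v₁) (gad μ w x y a b t) k →
      ∃ φ, Col ((U.erase v₂).erase v₁) (gad μ w x y a b t) k φ) : ∃ φ, Col U μ k φ := by
  have hU := ins2 hv₁ hv₂ hvv
  obtain ⟨U₁, hU₁⟩ : ∃ U₁, U₁ = (U.erase v₂).erase v₁ := ⟨_, rfl⟩
  rw [← hU₁] at hU IH
  have m1 : ∀ z, z ∈ U₁ ↔ z ≠ v₁ ∧ z ≠ v₂ ∧ z ∈ U := fun z => by
    rw [hU₁, Finset.mem_erase, Finset.mem_erase]
  have h2 : insert w (U₁.erase w) = U₁ :=
    Finset.insert_erase ((m1 w).2 ⟨hv₁w.symm, hv₂w.symm, hw⟩)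
  have m0 : ∀ z, z ∈ U₁.erase w ↔ z ≠ w ∧ z ≠ v₁ ∧ z ≠ v₂ ∧ z ∈ U := fun z => by
    rw [Finset.mem_erase, m1]
  have hU' : U = insert v₂ (insert v₁ (insert w (U₁.erase w))) := by rw [h2]; exact hU
  rw [hU'] at hG
  obtain ⟨φ, hφ⟩ := redD (Finset.notMem_erase w _)
    (by rw [h2, m1]; exact fun h => h.1 rfl)
    (by
      rw [h2, Finset.mem_insert, m1]
      rintro (h | h)
      · exact hvv h.symm
      · exact h.2.1 rfl)
    ((m0 x).2 ⟨hwx.symm, hv₁x.symm, hv₂x.symm, hx⟩)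
    ((m0 y).2 ⟨hwy.symm, hv₁y.symm, hv₂y.symm, hy⟩) hxy hs hd hG
    (hv₁0 v₂ hv₂ hv₂w hv₂x)
    (fun z hz h => hv₁0 z ((m0 z).1 hz).2.2.2 ((m0 z).1 hz).1 h)
    (fun z hz h => hv₂0 z ((m0 z).1 hz).2.2.2 ((m0 z).1 hz).1 h)
    (fun z hz h h' => hw0 z ((m0 z).1 hz).2.2.2 ((m0 z).1 hz).2.1 ((m0 z).1 hz).2.2.1 h h')
    (fun a b t => by
      rw [h2]
      exact IH a b t)
  exact ⟨φ, by rw [hU']; exact hφ⟩

/-- The necessary conditions suffice for multigraphs with underlying graph in a graph with an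
elimination order of width two. -/
theorem sp_col (hT : TT r H) : ∀ (n : ℕ) (U : Finset V) (μ : V → V → ℕ), #U = n →
    (∀ x y, μ x y = μ y x) → (∀ x, μ x x = 0) → (∀ x ∈ U, ∀ y ∈ U, μ x y ≠ 0 → H x y) →
    GoodOn U μ k → ∃ φ, Col U μ k φ := by
  intro n
  induction n using Nat.strong_induction_on with
  | _ n ih =>
    intro U μ hUn hs hd hsup hG
    have hzero : ∀ v ∈ U, ∀ y ∈ U, ¬ H v y → μ v y = 0 := by
      intro v hv y hy h
      by_contra h'
      exact h (hsup v hv y hy h')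
    by_cases hA : ∃ v ∈ U, ∃ p, ∀ y ∈ U, y ≠ v → y ≠ p → ¬ H v y
    · obtain ⟨v, hv, p, hp⟩ := hA
      have hU : U = insert v (U.erase v) := (Finset.insert_erase hv).symm
      have hc : #(U.erase v) < n := by
        rw [← hUn]
        exact Finset.card_erase_lt_of_mem hv
      obtain ⟨φ, hφ⟩ := ih _ hc (U.erase v) μ rfl hs hd
        (fun x hx y hy => hsup x (Finset.mem_of_mem_erase hx) y (Finset.mem_of_mem_erase hy))
        (hG.mono (Finset.erase_subset v U))
      have hG' := hG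
      rw [hU] at hG'
      by_cases hpU : p ∈ U.erase v
      · obtain ⟨φ', hφ'⟩ := red1 (Finset.notMem_erase v U) hpU hs hd hG'
          (fun y hy h => hzero v hv y (Finset.mem_of_mem_erase hy)
            (hp y (Finset.mem_of_mem_erase hy) (Finset.ne_of_mem_erase hy) h)) ⟨φ, hφ⟩
        exact ⟨φ', by rw [hU]; exact hφ'⟩
      · obtain ⟨φ', hφ'⟩ := red0 (Finset.notMem_erase v U) hs hd
          (fun y hy => hzero v hv y (Finset.mem_of_mem_erase hy)
            (hp y (Finset.mem_of_mem_erase hy) (Finset.ne_of_mem_erase hy)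
              (fun h => hpU (h ▸ hy)))) ⟨φ, hφ⟩
        exact ⟨φ', by rw [hU]; exact hφ'⟩
    push Not at hA
    rcases Finset.eq_empty_or_nonempty U with hU0 | ⟨v₀, hv₀⟩
    · refine ⟨fun _ _ => ∅, fun _ _ => rfl, ?_, ?_, ?_⟩
      · intro x hx
        rw [hU0] at hx
        exact absurd hx (Finset.notMem_empty _)
      · intro x _ y _
        exact Finset.empty_subset _
      · intro x _ y _ z _ _
        exact Finset.disjoint_empty_left _
    classical
    -- the vertices with an earlier neighbour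
    obtain ⟨N, hN⟩ : ∃ N, N = U.filter fun w => ∃ v ∈ U, H w v ∧ r v < r w := ⟨_, rfl⟩
    have hNm : ∀ w, w ∈ N ↔ w ∈ U ∧ ∃ v ∈ U, H w v ∧ r v < r w := fun w => by
      rw [hN, Finset.mem_filter]
    have hNne : N.Nonempty := by
      obtain ⟨y, hy, h1, -, h3⟩ := hA v₀ hv₀ v₀
      rcases lt_trichotomy (r v₀) (r y) with h | h | h
      · exact ⟨y, (hNm y).2 ⟨hy, v₀, hv₀, hT.symm _ _ h3, h⟩⟩
      · exact absurd (hT.inj h).symm h1
      · exact ⟨v₀, (hNm v₀).2 ⟨hv₀, y, hy, h3, h⟩⟩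
    obtain ⟨w, hwN, hwmin⟩ := Finset.exists_min_image N r hNne
    obtain ⟨hw, v, hv, hwv, hrv⟩ := (hNm w).1 hwN
    -- the type of an earlier neighbour of `w`
    have ht : ∀ v' ∈ U, H w v' → r v' < r w → ∃ x' ∈ U, x' ≠ v' ∧ x' ≠ w ∧ r w < r x' ∧ H w x' ∧
        H v' x' ∧ ∀ z ∈ U, z ≠ v' → H v' z → z = w ∨ z = x' := by
      intro v' hv' h1 h2
      have h3 : v' ∉ N := fun h => absurd (hwmin v' h) (not_le.2 h2)
      have h4 : ∀ y ∈ U, y ≠ v' → H v' y → r v' < r y := by
        intro y hy h5 h6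
        by_contra h7
        refine h3 ((hNm v').2 ⟨hv', y, hy, h6, ?_⟩)
        exact lt_of_le_of_ne (not_lt.1 h7) (fun h => h5 (hT.inj h))
      obtain ⟨x', hx', h5, h6, h7⟩ := hA v' hv' w
      have h8 := h4 x' hx' h5 h7
      have h9 : H w x' := hT.clique v' w x' h2 h8 h6.symm (hT.symm _ _ h1) h7
      refine ⟨x', hx', h5, h6, ?_, h9, h7, ?_⟩
      · by_contra h10
        have h11 : x' ∈ N := (hNm x').2 ⟨hx', v', hv', hT.symm _ _ h7, h8⟩
        exact h6 (hT.inj (le_antisymm (not_lt.1 h10) (hwmin x' h11)))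
      · intro z hz h10 h11
        rcases hT.two v' w x' z h2 h8 (h4 z hz h10 h11) (hT.symm _ _ h1) h7 h11 with h | h | h
        · exact absurd h.symm h6
        · exact Or.inl h.symm
        · exact Or.inr h.symm
    obtain ⟨x, hx, hxv, hxw, hrx, hwx, hvx, hvN⟩ := ht v hv hwv hrv
    have hvw : v ≠ w := fun h => by rw [h] at hrv; exact lt_irrefl _ hrv
    have hv0 : ∀ z ∈ U, z ≠ w → z ≠ x → μ v z = 0 := by
      intro z hz h1 h2
      by_cases h3 : z = v
      · rw [h3]; exact hd v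
      · refine hzero v hv z hz fun h => ?_
        rcases hvN z hz h3 h with h | h
        · exact h1 h
        · exact h2 h
    -- the reduction of twins
    have twins : ∀ u ∈ U, ∀ u' ∈ U, ∀ x' ∈ U, u ≠ u' → u ≠ w → u' ≠ w → u ≠ x' → u' ≠ x' →
        w ≠ x' → H w u → H u x' →
        (∀ z ∈ U, z ≠ w → z ≠ x' → μ u z = 0) → (∀ z ∈ U, z ≠ w → z ≠ x' → μ u' z = 0) →
        ∃ φ, Col U μ k φ := by
      intro u hu u' hu' x' hx' h1 h2 h3 h4 h5 h6 h7 h8 h9 h10
      refine useB hu hu' hw hx' h1 h2 h4 h3 h5 h6 hs hd hG h9 h10 ?_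
      intro a b hg
      exact ih _ (by rw [← hUn]; exact Finset.card_erase_lt_of_mem hu') (U.erase u') _ rfl
        (gad_symm hs) (gad_diag hd h2 h4 h6)
        (gad_sup hsup hT.symm (hT.symm _ _ h7) h8 (Or.inl rfl) (Finset.erase_subset _ _)) hg
    have zero_of : ∀ v' ∈ U, ∀ x', (∀ z ∈ U, z ≠ v' → H v' z → z = w ∨ z = x') →
        ∀ z ∈ U, z ≠ w → z ≠ x' → μ v' z = 0 := by
      intro v' hv' x' h z hz h1 h2
      by_cases h3 : z = v'
      · rw [h3]; exact hd v'
      · refine hzero v' hv' z hz fun h4 => ?_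
        rcases h z hz h3 h4 with h5 | h5
        · exact h1 h5
        · exact h2 h5
    by_cases hy : ∃ y ∈ U, y ≠ w ∧ y ≠ x ∧ r w < r y ∧ H w y
    · obtain ⟨y, hy, hyw, hyx, hry, hwy⟩ := hy
      have hxy : H x y := hT.clique w x y hrx hry hyx.symm hwx hwy
      have hvy : v ≠ y := fun h => by
        rw [h] at hrv
        exact lt_asymm hrv hry
      -- all later neighbours
      have hlater : ∀ z ∈ U, r w < r z → H w z → z = x ∨ z = y := by
        intro z hz h1 h2
        rcases hT.two w x y z hrx hry h1 hwx hwy h2 with h | h | h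
        · exact absurd h.symm hyx
        · exact Or.inl h.symm
        · exact Or.inr h.symm
      have hw0 : ∀ P : V → Prop, (∀ z ∈ U, H w z → r z < r w → P z) →
          ∀ z ∈ U, ¬ P z → z ≠ x → z ≠ y → μ w z = 0 := by
        intro P hP z hz h1 h2 h3
        by_cases h4 : z = w
        · rw [h4]; exact hd w
        · refine hzero w hw z hz fun h5 => ?_
          rcases lt_trichotomy (r z) (r w) with h6 | h6 | h6
          · exact h1 (hP z hz h5 h6)
          · exact h4 (hT.inj h6)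
          · rcases hlater z hz h6 h5 with h7 | h7
            · exact h2 h7
            · exact h3 h7
      by_cases h2 : ∃ v' ∈ U, v' ≠ v ∧ H w v' ∧ r v' < r w
      · obtain ⟨v', hv', hvv', hwv', hrv'⟩ := h2
        have hv'w : v' ≠ w := fun h => by rw [h] at hrv'; exact lt_irrefl _ hrv'
        obtain ⟨x', hx', a1, a2, a3, a4, a5, a6⟩ := ht v' hv' hwv' hrv'
        rcases hlater x' hx' a3 a4 with h | h
        · -- twins
          rw [h] at a1 a6
          exact twins v hv v' hv' x hx hvv'.symm hvw hv'w hxv.symm a1.symm hxw.symm hwv hvx hv0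
            (zero_of v' hv' x a6)
        · rw [h] at a1 a5 a6
          have hv'0 := zero_of v' hv' y a6
          by_cases h3 : ∃ v'' ∈ U, v'' ≠ v ∧ v'' ≠ v' ∧ H w v'' ∧ r v'' < r w
          · obtain ⟨v'', hv'', b1, b2, b3, b4⟩ := h3
            have hv''w : v'' ≠ w := fun h => by rw [h] at b4; exact lt_irrefl _ b4
            obtain ⟨x'', hx'', c1, c2, c3, c4, c5, c6⟩ := ht v'' hv'' b3 b4
            rcases hlater x'' hx'' c3 c4 with h' | h'
            · rw [h'] at c1 c6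
              exact twins v hv v'' hv'' x hx b1.symm hvw hv''w hxv.symm c1.symm hxw.symm hwv hvx
                hv0 (zero_of v'' hv'' x c6)
            · rw [h'] at c1 c6
              exact twins v' hv' v'' hv'' y hy b2.symm hv'w hv''w a1.symm c1.symm hyw.symm hwv' a5
                hv'0 (zero_of v'' hv'' y c6)
          · push Not at h3
            -- two ears
            have hv'x : v' ≠ x := fun h => by
              rw [h] at hrv'
              exact lt_asymm hrv' hrx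
            refine useD hv hv' hw hx hy hvv'.symm hvw hv'w hxv.symm hvy hv'x a1.symm hxw.symm
              hyw.symm hyx.symm hs hd hG hv0 hv'0 ?_ ?_
            · intro z hz d1 d2
              refine hw0 (fun z => z = v ∨ z = v') ?_ z hz (fun h => h.elim d1 d2)
              intro z hz d3 d4
              by_contra d5
              rw [not_or] at d5
              exact absurd d4 (not_lt.2 (h3 z hz d5.1 d5.2 d3))
            · intro a b t hg
              have hsub : (U.erase v').erase v ⊆ U :=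
                (Finset.erase_subset _ _).trans (Finset.erase_subset _ _)
              exact ih _ (by
                  rw [← hUn]
                  exact (Finset.card_le_card (Finset.erase_subset _ _)).trans_lt
                    (Finset.card_erase_lt_of_mem hv')) ((U.erase v').erase v) _ rfl
                (gad_symm hs) (gad_diag hd hxw.symm hyw.symm hyx.symm)
                (gad_sup hsup hT.symm hwx hwy (Or.inr hxy) hsub) hg
      · push Not at h2
        -- one ear
        refine useC hv hw hx hy hvw hxv.symm hvy hxw.symm hyw.symm hyx.symm hs hd hG hv0 ?_ ?_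
        · intro z hz d1
          refine hw0 (fun z => z = v) ?_ z hz d1
          intro z hz d3 d4
          by_contra d5
          exact absurd d4 (not_lt.2 (h2 z hz d5 d3))
        · intro a b t hg
          exact ih _ (by rw [← hUn]; exact Finset.card_erase_lt_of_mem hv) (U.erase v) _ rfl
            (gad_symm hs) (gad_diag hd hxw.symm hyw.symm hyx.symm)
            (gad_sup hsup hT.symm hwx hwy (Or.inr hxy) (Finset.erase_subset _ _)) hg
    · push Not at hy
      have hlater : ∀ z ∈ U, z ≠ w → r w < r z → H w z → z = x := by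
        intro z hz h0 h1 h2
        by_contra h3
        exact hy z hz h0 h3 h1 h2
      by_cases h2 : ∃ v' ∈ U, v' ≠ v ∧ H w v' ∧ r v' < r w
      · obtain ⟨v', hv', hvv', hwv', hrv'⟩ := h2
        have hv'w : v' ≠ w := fun h => by rw [h] at hrv'; exact lt_irrefl _ hrv'
        obtain ⟨x', hx', a1, a2, a3, a4, a5, a6⟩ := ht v' hv' hwv' hrv'
        have h := hlater x' hx' a2 a3 a4
        rw [h] at a1 a6
        exact twins v hv v' hv' x hx hvv'.symm hvw hv'w hxv.symm a1.symm hxw.symm hwv hvx hv0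
          (zero_of v' hv' x a6)
      · push Not at h2
        -- a triangle at a cut vertex
        refine useT hv hw hx hvw hxv.symm hxw.symm hs hd hG hv0 ?_ ?_
        · intro z hz d1 d2
          by_cases h4 : z = w
          · rw [h4]; exact hd w
          · refine hzero w hw z hz fun h5 => ?_
            rcases lt_trichotomy (r z) (r w) with h6 | h6 | h6
            · exact absurd h6 (not_lt.2 (h2 z hz d1 h5))
            · exact h4 (hT.inj h6)
            · exact d2 (hlater z hz h4 h6 h5)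
        · have hsub : (U.erase v).erase w ⊆ U :=
            (Finset.erase_subset _ _).trans (Finset.erase_subset _ _)
          exact ih _ (by
              rw [← hUn]
              exact (Finset.card_le_card (Finset.erase_subset _ _)).trans_lt
                (Finset.card_erase_lt_of_mem hv)) ((U.erase v).erase w) _ rfl hs hd
            (fun x hx y hy => hsup x (hsub hx) y (hsub hy)) (hG.mono hsub)

end Pool.Agent.MP27a405.SP
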