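import Pool.Agent.MP27a405.Def

/-!
# MP_27a405_co: the transfer theorem

Let `k ≤ min (δ(G), t^*(G))`.  If every set `F` of edges of `G` with maximum degree at most `k`
and with at most `k (|S| - 1) / 2` edges inside every odd set `S` is `k`-edge-colourable,
then the cover index of `G` is at least `k`.
-/

namespace Pool.Agent.MP27a405

open Finset

namespace Mg

set_option linter.unusedSectionVars false

variable {V E : Type} [Fintype V] [DecidableEq V] [Fintype E] [DecidableEq E] (G : Mg V E)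

theorem ex_ends (e : E) : ∃ a b : V, a ≠ b ∧ G.ends e = s(a, b) := by
  have h := G.noloop e
  induction hx : G.ends e using Sym2.ind with
  | _ a b =>
    rw [hx] at h
    exact ⟨a, b, fun hab => h (by simp [hab]), rfl⟩

/-- the number of ends of `e` in `S` -/
theorem card_ends (e : E) {a b : V} (hab : a ≠ b) (h : G.ends e = s(a, b)) (S : Finset V) :
    #{w ∈ S | w ∈ G.ends e} = (if a ∈ S then 1 else 0) + (if b ∈ S then 1 else 0) := by
  have h1 : ({w ∈ S | w ∈ G.ends e} : Finset V) = ({a, b} : Finset V).filter (· ∈ S) := by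
    ext w
    simp only [mem_filter, h, Sym2.mem_iff, mem_insert, mem_singleton]
    tauto
  rw [h1, Finset.card_filter, Finset.sum_pair hab]

theorem sum_deg (F : Finset E) (S : Finset V) :
    ∑ v ∈ S, G.deg F v = ∑ e ∈ F, #{w ∈ S | w ∈ G.ends e} := by
  simp only [deg, Finset.card_filter]
  exact Finset.sum_comm

theorem ins_card (F : Finset E) (S : Finset V) :
    #(G.ins F S) = ∑ e ∈ F, if (∀ v ∈ G.ends e, v ∈ S) then 1 else 0 := by
  rw [ins, Finset.card_filter]

theorem lemA (F : Finset E) (S T : Finset V) :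
    #(G.ins F S) + #(G.ins F T) ≤ #(G.ins F (S ∩ T)) + #(G.ins F (S ∪ T)) := by
  simp only [ins_card, ← Finset.sum_add_distrib]
  refine Finset.sum_le_sum fun e _ => ?_
  obtain ⟨a, b, hab, h⟩ := G.ex_ends e
  simp only [h, Sym2.mem_iff, forall_eq_or_imp, forall_eq, mem_inter, mem_union]
  by_cases h1 : a ∈ S <;> by_cases h2 : b ∈ S <;> by_cases h3 : a ∈ T <;> by_cases h4 : b ∈ T <;>
    simp [h1, h2, h3, h4]

theorem lemB (F : Finset E) (S T : Finset V) :
    #(G.ins F S) + #(G.ins F T) ≤
      #(G.ins F (S \ T)) + #(G.ins F (T \ S)) + ∑ w ∈ S ∩ T, G.deg F w := by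
  simp only [ins_card, sum_deg, ← Finset.sum_add_distrib]
  refine Finset.sum_le_sum fun e _ => ?_
  obtain ⟨a, b, hab, h⟩ := G.ex_ends e
  rw [G.card_ends e hab h]
  simp only [h, Sym2.mem_iff, forall_eq_or_imp, forall_eq, mem_inter, mem_sdiff]
  by_cases h1 : a ∈ S <;> by_cases h2 : b ∈ S <;> by_cases h3 : a ∈ T <;> by_cases h4 : b ∈ T <;>
    simp [h1, h2, h3, h4]

theorem lemD (S : Finset V) :
    ∑ v ∈ S, G.deg univ v = #(G.ins univ S) + #(G.touch S) := by
  rw [sum_deg, ins_card, touch, Finset.card_filter, ← Finset.sum_add_distrib]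
  refine Finset.sum_congr rfl fun e _ => ?_
  obtain ⟨a, b, hab, h⟩ := G.ex_ends e
  rw [G.card_ends e hab h]
  simp only [h, Sym2.mem_iff, forall_eq_or_imp, forall_eq, exists_eq_or_imp, exists_eq_left]
  by_cases h1 : a ∈ S <;> by_cases h2 : b ∈ S <;> simp [h1, h2]

theorem lemE (F : Finset E) (S : Finset V) (u : V) :
    #(G.ins F S) ≤ #(G.ins F (S.erase u)) + G.deg F u := by
  rw [deg, ← Finset.card_union_add_card_inter]
  refine le_trans (Finset.card_le_card ?_) (Nat.le_add_right _ _)
  intro e he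
  simp only [ins, mem_filter, mem_union, mem_erase] at he ⊢
  by_cases hu : u ∈ G.ends e
  · exact Or.inr ⟨he.1, hu⟩
  · exact Or.inl ⟨he.1, fun v hv => ⟨fun hvu => hu (hvu ▸ hv), he.2 v hv⟩⟩

theorem ins_erase_eq (F : Finset E) (S : Finset V) (v : V)
    (h : ∀ e ∈ F, v ∈ G.ends e → ¬ ∀ w ∈ G.ends e, w ∈ S) :
    G.ins F S = G.ins F (S.erase v) := by
  ext e
  simp only [ins, mem_filter, mem_erase]
  constructor
  · rintro ⟨h1, h2⟩
    exact ⟨h1, fun w hw => ⟨fun hwv => h e h1 (hwv ▸ hw) h2, h2 w hw⟩⟩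
  · rintro ⟨h1, h2⟩
    exact ⟨h1, fun w hw => (h2 w hw).2⟩

/-- the number of half edges pointing out of `v` -/
def outd (F : Finset E) (o : E → V) (v : V) : ℕ := #{e | e ∉ F ∧ o e = v}

/-- the surplus at `v` -/
def sur (k : ℕ) (F : Finset E) (o : E → V) (v : V) : ℤ := (G.deg F v : ℤ) + outd F o v - k

/-- `2 |E_F(S)| - 2 s(S) - k |S|` -/
def gg (k : ℕ) (F : Finset E) (o : E → V) (S : Finset V) : ℤ :=
  2 * (#(G.ins F S) : ℤ) - 2 * ∑ v ∈ S, G.sur k F o v - k * #S

/-- The invariant of the dropping process. -/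
structure Inv (k : ℕ) (F : Finset E) (o : E → V) : Prop where
  tail : ∀ e, e ∉ F → o e ∈ G.ends e
  nn : ∀ v, 0 ≤ G.sur k F o v
  odd : ∀ S : Finset V, Odd #S → G.gg k F o S ≤ -k

variable {G}
variable {k : ℕ} {F : Finset E} {o : E → V}

theorem gg_super (S T : Finset V) :
    G.gg k F o S + G.gg k F o T ≤ G.gg k F o (S ∩ T) + G.gg k F o (S ∪ T) := by
  have h1 := G.lemA F S T
  have h2 : ∑ v ∈ S ∪ T, G.sur k F o v + ∑ v ∈ S ∩ T, G.sur k F o v =
      ∑ v ∈ S, G.sur k F o v + ∑ v ∈ T, G.sur k F o v := Finset.sum_union_inter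
  have h3 := Finset.card_union_add_card_inter S T
  have h3' : (k : ℤ) * #(S ∪ T) + k * #(S ∩ T) = k * #S + k * #T := by
    rw [← mul_add, ← mul_add]
    congr 1
    exact_mod_cast h3
  unfold gg
  have h1' : (#(G.ins F S) : ℤ) + #(G.ins F T) ≤ #(G.ins F (S ∩ T)) + #(G.ins F (S ∪ T)) := by
    exact_mod_cast h1
  linarith

theorem gg_sub (S T : Finset V) :
    G.gg k F o S + G.gg k F o T ≤ G.gg k F o (S \ T) + G.gg k F o (T \ S)
      + 2 * ∑ w ∈ S ∩ T, ((G.deg F w : ℤ) - 2 * G.sur k F o w - k) := by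
  have h1 := G.lemB F S T
  have h2 : ∑ v ∈ S \ T, G.sur k F o v + ∑ v ∈ S ∩ T, G.sur k F o v = ∑ v ∈ S, G.sur k F o v := by
    rw [← Finset.sum_union (Finset.disjoint_left.2 (by
      intro x hx hx'
      exact (Finset.mem_sdiff.1 hx).2 (Finset.mem_inter.1 hx').2)), Finset.sdiff_union_inter]
  have h2' : ∑ v ∈ T \ S, G.sur k F o v + ∑ v ∈ S ∩ T, G.sur k F o v
      = ∑ v ∈ T, G.sur k F o v := by
    rw [Finset.inter_comm, ← Finset.sum_union (Finset.disjoint_left.2 (by
      intro x hx hx'
      exact (Finset.mem_sdiff.1 hx).2 (Finset.mem_inter.1 hx').2)), Finset.sdiff_union_inter]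
  have h3 : (k : ℤ) * #S = k * #(S \ T) + k * #(S ∩ T) := by
    rw [← mul_add]
    congr 1
    exact_mod_cast (Finset.card_sdiff_add_card_inter S T).symm
  have h3' : (k : ℤ) * #T = k * #(T \ S) + k * #(S ∩ T) := by
    rw [← mul_add, Finset.inter_comm]
    congr 1
    exact_mod_cast (Finset.card_sdiff_add_card_inter T S).symm
  have h4 : ∑ w ∈ S ∩ T, ((G.deg F w : ℤ) - 2 * G.sur k F o w - k)
      = ∑ w ∈ S ∩ T, (G.deg F w : ℤ) - 2 * ∑ w ∈ S ∩ T, G.sur k F o w - k * #(S ∩ T) := by
    rw [Finset.sum_sub_distrib, Finset.sum_sub_distrib, Finset.mul_sum, Finset.sum_const,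
      nsmul_eq_mul]
    ring
  unfold gg
  rw [h4]
  have h1' : (#(G.ins F S) : ℤ) + #(G.ins F T) ≤ #(G.ins F (S \ T)) + #(G.ins F (T \ S))
      + ∑ w ∈ S ∩ T, (G.deg F w : ℤ) := by
    exact_mod_cast h1
  linarith

/-- tight odd sets through a vertex with positive surplus are closed under intersection -/
theorem tight_inter (hI : G.Inv k F o) {v : V} (hv : 0 < G.sur k F o v) {S T : Finset V}
    (hS : Odd #S) (hT : Odd #T) (hvS : v ∈ S) (hvT : v ∈ T)
    (tS : G.gg k F o S = -k) (tT : G.gg k F o T = -k) :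
    Odd #(S ∩ T) ∧ G.gg k F o (S ∩ T) = -k := by
  rcases Nat.even_or_odd #(S ∩ T) with he | ho
  · exfalso
    have h1 : Odd #(S \ T) := by
      have := Finset.card_sdiff_add_card_inter S T
      rcases Nat.even_or_odd #(S \ T) with h | h
      · exfalso
        rw [← this] at hS
        exact (Nat.not_odd_iff_even.2 (h.add he)) hS
      · exact h
    have h2 : Odd #(T \ S) := by
      have := Finset.card_sdiff_add_card_inter T S
      rw [Finset.inter_comm] at this
      rcases Nat.even_or_odd #(T \ S) with h | h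
      · exfalso
        rw [← this] at hT
        exact (Nat.not_odd_iff_even.2 (h.add he)) hT
      · exact h
    have h3 := gg_sub (G := G) (k := k) (F := F) (o := o) S T
    have h4 := hI.odd _ h1
    have h5 := hI.odd _ h2
    have h6 : ∑ w ∈ S ∩ T, ((G.deg F w : ℤ) - 2 * G.sur k F o w - k) < 0 := by
      refine Finset.sum_neg' ?_ ⟨v, Finset.mem_inter.2 ⟨hvS, hvT⟩, ?_⟩
      · intro w _
        have := hI.nn w
        unfold sur at this ⊢
        have : (0 : ℤ) ≤ outd F o w := by positivity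
        linarith
      · unfold sur at hv ⊢
        have : (0 : ℤ) ≤ outd F o v := by positivity
        linarith
    linarith
  · refine ⟨ho, le_antisymm (hI.odd _ ho) ?_⟩
    have hu : Odd #(S ∪ T) := by
      have := Finset.card_union_add_card_inter S T
      rcases Nat.even_or_odd #(S ∪ T) with h | h
      · exfalso
        have h7 : Odd (#(S ∪ T) + #(S ∩ T)) := h.add_odd ho
        rw [this] at h7
        exact (Nat.not_odd_iff_even.2 (hS.add_odd hT)) h7
      · exact h
    have h1 := gg_super (G := G) (k := k) (F := F) (o := o) S T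
    have h2 := hI.odd _ hu
    linarith

/-- a tight odd set through a vertex `v` with positive surplus has an edge at `v` inside -/
theorem tight_edge (hI : G.Inv k F o) {v : V} (hv : 0 < G.sur k F o v) {S : Finset V}
    (hS : Odd #S) (hvS : v ∈ S) (tS : G.gg k F o S = -k) :
    ∃ e ∈ F, v ∈ G.ends e ∧ ∀ w ∈ G.ends e, w ∈ S := by
  by_contra hcon
  push Not at hcon
  have h1 := G.ins_erase_eq F S v (fun e he hve hall => by
    obtain ⟨w, hw, hwS⟩ := hcon e he hve
    exact hwS (hall w hw))
  have hsum : ∑ w ∈ S, G.sur k F o w = ∑ w ∈ S.erase v, G.sur k F o w + G.sur k F o v :=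
    (Finset.sum_erase_add S _ hvS).symm
  have hcard : #S = #(S.erase v) + 1 := (Finset.card_erase_add_one hvS).symm
  rcases (S.erase v).eq_empty_or_nonempty with h0 | ⟨u, hu⟩
  · unfold gg at tS
    rw [h1, hsum, hcard, h0] at tS
    have : G.ins F ∅ = ∅ := by
      ext e
      simp only [ins, mem_filter, notMem_empty, imp_false, iff_false, not_and, not_forall, not_not]
      intro _
      obtain ⟨a, b, hab, h⟩ := G.ex_ends e
      exact ⟨a, by simp [h]⟩
    rw [this] at tS
    simp at tS
    linarith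
  · have h2 := G.lemE F (S.erase v) u
    have hsum2 : ∑ w ∈ S.erase v, G.sur k F o w
        = ∑ w ∈ (S.erase v).erase u, G.sur k F o w + G.sur k F o u :=
      (Finset.sum_erase_add _ _ hu).symm
    have hcard2 : #(S.erase v) = #((S.erase v).erase u) + 1 :=
      (Finset.card_erase_add_one hu).symm
    have hodd : Odd #((S.erase v).erase u) := by
      rw [hcard, hcard2] at hS
      rcases Nat.even_or_odd #((S.erase v).erase u) with h | h
      · exfalso
        exact (Nat.not_odd_iff_even.2 (by simpa [add_assoc] using h.add (even_two))) hS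
      · exact h
    have h3 := hI.odd _ hodd
    unfold gg at tS h3
    rw [h1, hsum, hsum2, hcard, hcard2] at tS
    have h4 : (#(G.ins F (S.erase v)) : ℤ) ≤ #(G.ins F ((S.erase v).erase u)) + G.deg F u := by
      exact_mod_cast h2
    have h5 : (G.deg F u : ℤ) ≤ k + G.sur k F o u := by
      unfold sur
      have : (0 : ℤ) ≤ outd F o u := by positivity
      linarith
    push_cast at tS
    have h6 : (k : ℤ) * (#((S.erase v).erase u) + 1 + 1) = k * #((S.erase v).erase u) + 2 * k := by
      ring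
    rw [h6] at tS
    linarith

theorem deg_erase {e : E} (he : e ∈ F) (v : V) :
    (G.deg (F.erase e) v : ℤ) = G.deg F v - if v ∈ G.ends e then 1 else 0 := by
  unfold deg
  rw [Finset.filter_erase]
  split_ifs with h
  · rw [Finset.card_erase_of_mem (by simp [he, h])]
    have : 0 < #{e ∈ F | v ∈ G.ends e} := Finset.card_pos.2 ⟨e, by simp [he, h]⟩
    push_cast [Nat.cast_sub this]
    ring
  · rw [Finset.erase_eq_of_notMem (by simp [h])]
    ring

theorem ins_erase {e : E} (he : e ∈ F) (S : Finset V) :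
    (#(G.ins (F.erase e) S) : ℤ) = #(G.ins F S) - if (∀ v ∈ G.ends e, v ∈ S) then 1 else 0 := by
  unfold ins
  rw [Finset.filter_erase]
  split_ifs with h
  · rw [Finset.card_erase_of_mem (by simp only [mem_filter]; exact ⟨he, h⟩)]
    have : 0 < #{e ∈ F | ∀ v ∈ G.ends e, v ∈ S} :=
      Finset.card_pos.2 ⟨e, by simp only [mem_filter]; exact ⟨he, h⟩⟩
    push_cast [Nat.cast_sub this]
    ring
  · rw [Finset.erase_eq_of_notMem (by simp only [mem_filter]; exact fun h' => h h'.2)]
    ring

theorem out_erase {e : E} (he : e ∈ F) (u v : V) :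
    (outd (F.erase e) (Function.update o e u) v : ℤ) = outd F o v + if v = u then 1 else 0 := by
  unfold outd
  have h1 : ({f | f ∉ F.erase e ∧ Function.update o e u f = v} : Finset E)
      = if v = u then insert e ({f | f ∉ F ∧ o f = v} : Finset E)
        else ({f | f ∉ F ∧ o f = v} : Finset E) := by
    ext f
    by_cases hf : f = e
    · subst hf
      split_ifs with h
      · simp [h]
      · simp [he, Ne.symm h]
    · split_ifs with h <;> simp [hf, Function.update_of_ne]
  rw [h1]
  split_ifs with h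
  · rw [Finset.card_insert_of_notMem (by simp [he])]
    push_cast
    ring
  · simp

/-- one step of the dropping process -/
theorem step (hI : G.Inv k F o) {v : V} (hv : 0 < G.sur k F o v) (hd : 0 < G.deg F v) :
    ∃ e ∈ F, ∃ u, G.Inv k (F.erase e) (Function.update o e u) := by
  classical
  -- an edge at `v` inside every tight odd set through `v`
  obtain ⟨e, heF, hve, hall⟩ : ∃ e ∈ F, v ∈ G.ends e ∧ ∀ S : Finset V, Odd #S → v ∈ S →
      G.gg k F o S = -k → ∀ w ∈ G.ends e, w ∈ S := by
    by_cases hex : ∃ S : Finset V, Odd #S ∧ v ∈ S ∧ G.gg k F o S = -k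
    · obtain ⟨S, ⟨hS, hvS, tS⟩, hmin⟩ := exists_minimal_of_wellFoundedLT
        (fun S : Finset V => Odd #S ∧ v ∈ S ∧ G.gg k F o S = -k) hex
      obtain ⟨e, he, hve, hin⟩ := tight_edge hI hv hS hvS tS
      refine ⟨e, he, hve, fun T hT hvT tT w hw => ?_⟩
      obtain ⟨h1, h2⟩ := tight_inter hI hv hS hT hvS hvT tS tT
      have h3 := hmin (y := S ∩ T) ⟨h1, Finset.mem_inter.2 ⟨hvS, hvT⟩, h2⟩ Finset.inter_subset_left
      exact (Finset.mem_inter.1 (h3 (hin w hw))).2
    · obtain ⟨e, he⟩ := Finset.card_pos.1 hd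
      rw [Finset.mem_filter] at he
      exact ⟨e, he.1, he.2, fun S h1 h2 h3 => absurd ⟨S, h1, h2, h3⟩ hex⟩
  obtain ⟨u, hu⟩ : ∃ u, G.ends e = s(v, u) := by
    obtain ⟨a, b, hab, h⟩ := G.ex_ends e
    rw [h, Sym2.mem_iff] at hve
    rcases hve with rfl | rfl
    · exact ⟨b, h⟩
    · exact ⟨a, by rw [h, Sym2.eq_swap]⟩
  have hvu : v ≠ u := by
    rintro rfl
    exact G.noloop e (by rw [hu]; simp)
  have hsur : ∀ w, G.sur k (F.erase e) (Function.update o e u) w
      = G.sur k F o w - if w = v then 1 else 0 := by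
    intro w
    unfold sur
    rw [deg_erase heF, out_erase heF, hu]
    by_cases h1 : w = v
    · subst h1
      simp [hvu]
      ring
    · by_cases h2 : w = u
      · subst h2
        simp [h1]
      · simp [h1, h2]
  refine ⟨e, heF, u, ⟨?_, ?_, ?_⟩⟩
  · intro f hf
    by_cases hfe : f = e
    · subst hfe
      simp [hu]
    · rw [Function.update_of_ne hfe]
      exact hI.tail f (fun h => hf (Finset.mem_erase.2 ⟨hfe, h⟩))
  · intro w
    rw [hsur]
    split_ifs with h
    · subst h
      omega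
    · simpa using hI.nn w
  · intro S hS
    have h1 := hI.odd S hS
    unfold gg at h1 ⊢
    rw [ins_erase heF]
    have h2 : ∑ w ∈ S, G.sur k (F.erase e) (Function.update o e u) w
        = ∑ w ∈ S, G.sur k F o w - if v ∈ S then 1 else 0 := by
      rw [Finset.sum_congr rfl fun w _ => hsur w, Finset.sum_sub_distrib, Finset.sum_ite_eq']
    rw [h2]
    by_cases hvS : v ∈ S
    · by_cases hall' : ∀ w ∈ G.ends e, w ∈ S
      · rw [if_pos hall', if_pos hvS]
        linarith
      · rw [if_neg hall', if_pos hvS]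
        have h3 : G.gg k F o S ≠ -k := fun h => hall' (hall S hS hvS h)
        have h4 : G.gg k F o S ≤ -k - 2 := by
          have h5 := lt_of_le_of_ne (hI.odd S hS) h3
          -- parity
          have h6 : (2 : ℤ) ∣ G.gg k F o S + k := by
            unfold gg
            obtain ⟨m, hm⟩ := hS
            rw [hm]
            refine ⟨(#(G.ins F S) : ℤ) - ∑ v ∈ S, G.sur k F o v - k * m, ?_⟩
            push_cast
            ring
          omega
        unfold gg at h4
        linarith
    · have : ¬ ∀ w ∈ G.ends e, w ∈ S := fun h => hvS (h v hve)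
      rw [if_neg this, if_neg hvS]
      linarith

/-- the end of the dropping process -/
theorem drop_all : ∀ (n : ℕ) (F : Finset E) (o : E → V), #F = n → G.Inv k F o →
    ∃ F' o', G.Inv k F' o' ∧ ∀ v, G.sur k F' o' v = 0 ∨ G.deg F' v = 0 := by
  intro n
  induction n with
  | zero =>
    intro F o hF hI
    refine ⟨F, o, hI, fun v => Or.inr ?_⟩
    rw [Finset.card_eq_zero] at hF
    subst hF
    simp [deg]
  | succ n ih =>
    intro F o hF hI
    by_cases h : ∀ v, G.sur k F o v = 0 ∨ G.deg F v = 0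
    · exact ⟨F, o, hI, h⟩
    · push Not at h
      obtain ⟨v, h1, h2⟩ := h
      obtain ⟨e, he, u, hI'⟩ := step hI (lt_of_le_of_ne (hI.nn v) (Ne.symm h1))
        (Nat.pos_of_ne_zero h2)
      exact ih _ _ (by rw [Finset.card_erase_of_mem he, hF]; rfl) hI'

theorem good_of_inv (hI : G.Inv k F o) (h0 : ∀ v, G.sur k F o v = 0 ∨ G.deg F v = 0) :
    G.Good F k := by
  have hdeg : ∀ v, G.deg F v ≤ k := by
    intro v
    rcases h0 v with h | h
    · unfold sur at h
      omega
    · omega
  refine ⟨hdeg, fun S hS => ?_⟩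
  -- the vertices of positive degree in `S`
  set T := S.filter (fun v => G.deg F v ≠ 0) with hT
  have hins : G.ins F S = G.ins F T := by
    ext e
    simp only [ins, mem_filter, hT]
    constructor
    · rintro ⟨h1, h2⟩
      refine ⟨h1, fun v hv => ⟨h2 v hv, ?_⟩⟩
      exact Nat.pos_iff_ne_zero.1 (Finset.card_pos.2 ⟨e, by simp [h1, hv]⟩)
    · rintro ⟨h1, h2⟩
      exact ⟨h1, fun v hv => (h2 v hv).1⟩
  have hTS : #T ≤ #S := Finset.card_filter_le _ _
  rw [hins]
  have hS0 : 1 ≤ #S := hS.pos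
  rcases Nat.even_or_odd #T with he | ho
  · -- even: half the sum of the degrees
    have h1 : 2 * #(G.ins F T) ≤ ∑ v ∈ T, G.deg F v := by
      rw [G.sum_deg, G.ins_card, Finset.mul_sum]
      refine Finset.sum_le_sum fun e _ => ?_
      obtain ⟨a, b, hab, h⟩ := G.ex_ends e
      rw [G.card_ends e hab h]
      simp only [h, Sym2.mem_iff, forall_eq_or_imp, forall_eq]
      by_cases h1 : a ∈ T <;> by_cases h2 : b ∈ T <;> simp [h1, h2]
    have h2 : ∑ v ∈ T, G.deg F v ≤ #T * k := by
      refine le_trans (Finset.sum_le_card_nsmul _ _ k fun v _ => hdeg v) (by simp)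
    have h3 : #T ≤ #S - 1 := by
      have : #T ≠ #S := fun h => (Nat.not_odd_iff_even.2 he) (h ▸ hS)
      omega
    calc 2 * #(G.ins F T) ≤ #T * k := le_trans h1 h2
      _ = k * #T := mul_comm _ _
      _ ≤ k * (#S - 1) := Nat.mul_le_mul_left _ h3
  · have h1 := hI.odd T ho
    have h2 : ∑ v ∈ T, G.sur k F o v = 0 := by
      refine Finset.sum_eq_zero fun v hv => ?_
      rcases h0 v with h | h
      · exact h
      · exact absurd h (Finset.mem_filter.1 hv).2
    unfold gg at h1
    rw [h2] at h1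
    have h3 : 1 ≤ #T := ho.pos
    have h4 : (2 * #(G.ins F T) : ℤ) ≤ k * (#T - 1) := by linarith
    have h5 : 2 * #(G.ins F T) ≤ k * (#T - 1) := by
      have : ((#T - 1 : ℕ) : ℤ) = #T - 1 := by push_cast [Nat.cast_sub h3]; ring
      rw [← this] at h4
      exact_mod_cast h4
    exact le_trans h5 (Nat.mul_le_mul_left _ (by omega))

/-- from a proper colouring of the undropped edges to a decomposition into covers -/
theorem covers_of_inv (hk : 0 < k) (hI : G.Inv k F o) (hc : G.EdgeCol F k) : G.Covers k := by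
  classical
  obtain ⟨c, hc1, hc2⟩ := hc
  have : NeZero k := ⟨hk.ne'⟩
  -- the colours at `v`
  let A : V → Finset ℕ := fun v => ({e ∈ F | v ∈ G.ends e} : Finset E).image c
  have hA : ∀ v, #(A v) = G.deg F v := by
    intro v
    refine Finset.card_image_of_injOn ?_
    intro e he f hf hef
    have he' := (Finset.mem_filter.1 he)
    have hf' := (Finset.mem_filter.1 hf)
    exact hc2 e he'.1 f hf'.1 v he'.2 hf'.2 hef
  have hAk : ∀ v, A v ⊆ Finset.range k := by
    intro v i hi
    obtain ⟨e, he, rfl⟩ := Finset.mem_image.1 hi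
    exact Finset.mem_range.2 (hc1 e (Finset.mem_filter.1 he).1)
  have hM : ∀ v, ∃ f : E → ℕ, ∀ i ∈ Finset.range k \ A v, ∃ e, (e ∉ F ∧ o e = v) ∧ f e = i := by
    intro v
    have h1 : #(Finset.range k \ A v) ≤ #({e | e ∉ F ∧ o e = v} : Finset E) := by
      rw [Finset.card_sdiff_of_subset (hAk v), Finset.card_range, hA]
      have := hI.nn v
      unfold sur outd at this
      omega
    obtain ⟨φ, hφ⟩ := Finset.exists_subset_card_eq h1
    have e1 : φ ≃ (Finset.range k \ A v : Finset ℕ) := Finset.equivOfCardEq hφ.2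
    refine ⟨fun e => if h : e ∈ φ then (e1 ⟨e, h⟩ : ℕ) else 0, fun i hi => ?_⟩
    refine ⟨(e1.symm ⟨i, hi⟩ : E), ?_, ?_⟩
    · have := hφ.1 (e1.symm ⟨i, hi⟩).2
      simpa using this
    · simp
  choose f hf using hM
  refine ⟨fun e => Fin.ofNat k (if e ∈ F then c e else f (o e) e), fun v i => ?_⟩
  by_cases hi : (i : ℕ) ∈ A v
  · obtain ⟨e, he, hei⟩ := Finset.mem_image.1 hi
    have he' := Finset.mem_filter.1 he
    refine ⟨e, he'.2, ?_⟩
    beta_reduce
    rw [if_pos he'.1, hei]
    exact Fin.ofNat_val_eq_self i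
  · obtain ⟨e, ⟨he1, he2⟩, he3⟩ := hf v i (Finset.mem_sdiff.2 ⟨Finset.mem_range.2 i.2, hi⟩)
    refine ⟨e, ?_, ?_⟩
    · rw [← he2]
      exact hI.tail e he1
    · beta_reduce
      rw [if_neg he1, he2, he3]
      exact Fin.ofNat_val_eq_self i

variable (G)

theorem inv_init [Nonempty V] (hdeg : ∀ v, k ≤ G.deg univ v)
    (ht : ∀ r ≥ 1, ∀ S : Finset V, #S = 2 * r + 1 → k * (r + 1) ≤ #(G.touch S)) (o : E → V) :
    G.Inv k univ o := by
  have hout : ∀ v, outd univ o v = 0 := by
    intro v
    simp [outd]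
  refine ⟨fun e he => absurd (Finset.mem_univ e) he, fun v => ?_, fun S hS => ?_⟩
  · unfold sur
    have := hdeg v
    rw [hout]
    push_cast
    omega
  · have h1 : ∑ v ∈ S, G.sur k univ o v = (∑ v ∈ S, (G.deg univ v : ℤ)) - k * #S := by
      unfold sur
      simp only [hout]
      push_cast
      simp only [add_zero]
      rw [Finset.sum_sub_distrib, Finset.sum_const, nsmul_eq_mul]
      ring
    have h2 := G.lemD S
    have h2' : (∑ v ∈ S, (G.deg univ v : ℤ)) = #(G.ins univ S) + #(G.touch S) := by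
      exact_mod_cast h2
    unfold gg
    rw [h1, h2']
    obtain ⟨r, hr⟩ := hS
    rcases Nat.eq_zero_or_pos r with h0 | hpos
    · -- a single vertex
      subst h0
      obtain ⟨v, hv⟩ := Finset.card_eq_one.1 hr
      subst hv
      have h3 := hdeg v
      rw [Finset.sum_singleton] at h2
      have h4 : G.ins univ {v} = ∅ := by
        ext e
        simp only [ins, mem_filter, mem_univ, true_and, mem_singleton, notMem_empty, iff_false]
        intro h
        obtain ⟨a, b, hab, he⟩ := G.ex_ends e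
        rw [he] at h
        exact hab ((h a (by simp)).trans (h b (by simp)).symm)
      rw [h4] at h2 ⊢
      simp at h2 ⊢
      have h5 : (k : ℤ) ≤ #(G.touch {v}) := by
        rw [← h2]
        exact_mod_cast h3
      linarith
    · have h3 := ht r hpos S hr
      have h3' : (k : ℤ) * (r + 1) ≤ #(G.touch S) := by exact_mod_cast h3
      rw [hr]
      push_cast
      nlinarith

/-- **The transfer theorem.** -/
theorem transfer [Nonempty V] (hk : 0 < k) (hdeg : ∀ v, k ≤ G.deg univ v)
    (ht : ∀ r ≥ 1, ∀ S : Finset V, #S = 2 * r + 1 → k * (r + 1) ≤ #(G.touch S))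
    (hcol : ∀ F : Finset E, G.Good F k → G.EdgeCol F k) : G.Covers k := by
  obtain ⟨F, o, hI, h0⟩ := drop_all (G := G) (k := k) _ univ (fun _ => Classical.arbitrary V) rfl
    (G.inv_init hdeg ht _)
  exact covers_of_inv hk hI (hcol F (good_of_inv hI h0))

end Mg

end Pool.Agent.MP27a405
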